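import Pool.Agent.Lib.H58T.Core

/-! # H58T: the functions of `Core` in ordinary terms -/

namespace H58T

theorem frc_eq (x : ℕ) (k : ℕ → Bool) : frc x k = k x := by cases x <;> rfl
theorem frn_eq (x : ℕ) (k : ℕ → ℕ) : frn x k = k x := by cases x <;> rfl
theorem band_eq (b c : Bool) : band b c = (b && c) := by cases b <;> rfl
theorem bor_eq (b c : Bool) : bor b c = (b || c) := by cases b <;> rfl
theorem bnot_eq (b : Bool) : bnot b = !b := by cases b <;> rfl
theorem cnd_eq (b : Bool) (x y : ℕ) : cnd b x y = if b = true then x else y := by cases b <;> rfl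
theorem brec_eq {α : Type} (b : Bool) (x y : α) : (Bool.rec x y b : α) = if b = true then y else x := by
  cases b <;> rfl

theorem band_iff {b c : Bool} : band b c = true ↔ b = true ∧ c = true := by cases b <;> cases c <;> simp [band]
theorem bor_iff {b c : Bool} : bor b c = true ↔ b = true ∨ c = true := by cases b <;> cases c <;> simp [bor]
theorem bnot_iff {b : Bool} : bnot b = true ↔ b = false := by cases b <;> simp [bnot]
theorem beq_iff {a b : ℕ} : Nat.beq a b = true ↔ a = b := Iff.of_eq Nat.beq_eq
theorem ble_iff {a b : ℕ} : Nat.ble a b = true ↔ a ≤ b := Iff.of_eq Nat.ble_eq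

theorem tb_eq (m k : ℕ) : tb m k = m.testBit k := by
  unfold tb
  rw [Bool.eq_iff_iff, beq_iff]
  change (m >>> k) &&& 1 = 1 ↔ _
  rw [Nat.and_one_is_mod, Nat.testBit_eq_decide_div_mod_eq, Nat.shiftRight_eq_div_pow]
  simp

theorem p2_eq (k : ℕ) : p2 k = 2 ^ k := rfl

/-- `n` consecutive fields from number `i` on -/
def lst (E n i : ℕ) : List ℕ := (List.range n).map fun j => fld E (i + j)

theorem lst_succ (E n i : ℕ) : lst E (n + 1) i = fld E i :: lst E n (i + 1) := by
  unfold lst
  rw [List.range_succ_eq_map, List.map_cons, List.map_map, add_zero]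
  congr 1
  apply List.map_congr_left
  intro j _
  simp only [Function.comp_apply]
  congr 1
  omega

theorem unl_eq (E n i : ℕ) (k : List ℕ → Bool) : unl E n i k = k (lst E n i) := by
  induction n generalizing i k with
  | zero => rfl
  | succ n ih =>
    rw [lst_succ]
    have : unl E (n + 1) i k = frc (fld E i) fun a => unl E n (Nat.succ i) fun l => k (a :: l) := rfl
    rw [this, frc_eq, ih]

/-- the entry number `i` -/
def bgv : BT → ℕ → ℕ
  | BT.leaf n, _ => n
  | BT.node l r, i => if i % 2 = 0 then bgv l (i / 2) else bgv r (i / 2)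

theorem bget_eq (t : BT) (i : ℕ) (k : ℕ → Bool) : bget t i k = k (bgv t i) := by
  induction t generalizing i with
  | leaf n => rfl
  | node l r ihl ihr =>
    have : bget (BT.node l r) i k = Bool.rec (frc (Nat.shiftRight i 1) fun j => bget r j k)
      (frc (Nat.shiftRight i 1) fun j => bget l j k) (Nat.beq (Nat.land i 1) 0) := rfl
    rw [this, brec_eq, frc_eq, frc_eq, ihl, ihr, bgv]
    have e1 : Nat.shiftRight i 1 = i / 2 := by
      change i >>> 1 = i / 2
      rw [Nat.shiftRight_eq_div_pow]
    have e2 : Nat.land i 1 = i % 2 := by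
      change i &&& 1 = i % 2
      rw [Nat.and_one_is_mod]
    rw [e1, e2]
    by_cases h : i % 2 = 0
    · rw [if_pos (beq_iff.mpr h), if_pos h]
    · rw [if_neg (fun h' => h (beq_iff.mp h')), if_neg h]

theorem mem_iff {v : ℕ} {L : List ℕ} : mem v L = true ↔ v ∈ L := by
  induction L with
  | nil => simp [mem]
  | cons a L ih =>
    have : mem v (a :: L) = bor (Nat.beq v a) (mem v L) := rfl
    rw [this, bor_iff, beq_iff, ih, List.mem_cons]

theorem allL_iff {p : ℕ → Bool} {L : List ℕ} : allL p L = true ↔ ∀ a ∈ L, p a = true := by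
  induction L with
  | nil => simp [allL]
  | cons a L ih =>
    have : allL p (a :: L) = band (p a) (allL p L) := rfl
    rw [this, band_iff, ih, List.forall_mem_cons]

theorem allP_iff {p : ℕ × ℕ → Bool} {L : List (ℕ × ℕ)} : allP p L = true ↔ ∀ a ∈ L, p a = true := by
  induction L with
  | nil => simp [allP]
  | cons a L ih =>
    have : allP p (a :: L) = band (p a) (allP p L) := rfl
    rw [this, band_iff, ih, List.forall_mem_cons]

theorem sub_iff {x y : ℕ} : sub x y = true ↔ x &&& y = x := by
  unfold sub
  rw [beq_iff]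
  exact Iff.rfl

theorem app_eq (C L : List ℕ) : app C L = C ++ L := by
  induction C with
  | nil => rfl
  | cons a C ih =>
    have : app (a :: C) L = a :: app C L := rfl
    rw [this, ih, List.cons_append]

theorem len_eq (L : List ℕ) : len L = L.length := by
  induction L with
  | nil => rfl
  | cons a L ih =>
    have : len (a :: L) = Nat.succ (len L) := rfl
    rw [this, ih, List.length_cons]

theorem ins1_eq (m b w : ℕ) : ins1 m b w = if w = m then w else if w &&& m = m then w ||| b else w := by
  unfold ins1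
  rw [cnd_eq, cnd_eq]
  by_cases h : w = m
  · rw [if_pos (beq_iff.mpr h), if_pos h]
  · rw [if_neg (fun h' => h (beq_iff.mp h')), if_neg h]
    change (if Nat.beq (w &&& m) m = true then w ||| b else w) = _
    by_cases h2 : w &&& m = m
    · rw [if_pos (beq_iff.mpr h2), if_pos h2]
    · rw [if_neg (fun h' => h2 (beq_iff.mp h')), if_neg h2]

theorem insL_eq (m b : ℕ) (C : List ℕ) : insL m b C = C.map (ins1 m b) ++ [m, m ||| b] := by
  induction C with
  | nil => rfl
  | cons a C ih =>
    have : insL m b (a :: C) = ins1 m b a :: insL m b C := rfl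
    rw [this, ih, List.map_cons, List.cons_append]

theorem mem_sgl {S s z m : ℕ} : m ∈ sgl S s z ↔ m = z ∨ ∃ j, j < 30 ∧ S.testBit j = true ∧ j ≠ s ∧ m = 2 ^ j := by
  have key : ∀ n : ℕ, m ∈ (Nat.rec [z] (fun j r => Bool.rec r (p2 j :: r)
      (band (tb S j) (bnot (Nat.beq j s)))) n : List ℕ) ↔
      m = z ∨ ∃ j, j < n ∧ S.testBit j = true ∧ j ≠ s ∧ m = 2 ^ j := by
    intro n
    induction n with
    | zero => simp
    | succ n ih =>
      simp only
      rw [brec_eq]
      have hc : (band (tb S n) (bnot (Nat.beq n s)) = true) ↔ (S.testBit n = true ∧ n ≠ s) := by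
        rw [band_iff, tb_eq, bnot_iff]
        constructor
        · rintro ⟨h1, h2⟩
          refine ⟨h1, fun h => ?_⟩
          rw [beq_iff.mpr h] at h2
          exact absurd h2 (by simp)
        · rintro ⟨h1, h2⟩
          refine ⟨h1, ?_⟩
          cases hb : Nat.beq n s with
          | false => rfl
          | true => exact absurd (beq_iff.mp hb) h2
      by_cases h : band (tb S n) (bnot (Nat.beq n s)) = true
      · rw [if_pos h, List.mem_cons, ih, p2_eq]
        have h' := hc.mp h
        constructor
        · rintro (h1 | h1 | ⟨j, h1, h2⟩)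
          · exact Or.inr ⟨n, by omega, h'.1, h'.2, h1⟩
          · exact Or.inl h1
          · exact Or.inr ⟨j, by omega, h2⟩
        · rintro (h1 | ⟨j, h1, h2, h3, h4⟩)
          · exact Or.inr (Or.inl h1)
          · by_cases hj : j = n
            · subst hj; exact Or.inl h4
            · exact Or.inr (Or.inr ⟨j, by omega, h2, h3, h4⟩)
      · rw [if_neg h, ih]
        have h' := fun h1 => h (hc.mpr h1)
        constructor
        · rintro (h1 | ⟨j, h1, h2⟩)
          · exact Or.inl h1
          · exact Or.inr ⟨j, by omega, h2⟩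
        · rintro (h1 | ⟨j, h1, h2, h3, h4⟩)
          · exact Or.inl h1
          · by_cases hj : j = n
            · subst hj; exact absurd ⟨h2, h3⟩ h'
            · exact Or.inr ⟨j, by omega, h2, h3, h4⟩
  exact key 30

/-- the cut of the root -/
def rcut (S s : ℕ) : ℕ := if S = 0 then 0 else S ^^^ 2 ^ s

theorem mem_posl {C : List ℕ} {S s m : ℕ} : m ∈ posl C S s ↔
    m ∈ C ∨ m = rcut S s ∨ ∃ j, j < 30 ∧ S.testBit j = true ∧ j ≠ s ∧ m = 2 ^ j := by
  unfold posl
  rw [app_eq, List.mem_append, mem_sgl, cnd_eq]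
  have : (if Nat.beq S 0 = true then 0 else Nat.xor S (p2 s)) = rcut S s := by
    unfold rcut
    by_cases h : S = 0
    · rw [if_pos (beq_iff.mpr h), if_pos h]
    · rw [if_neg (fun h' => h (beq_iff.mp h')), if_neg h]; rfl
  rw [this]

theorem lp_spec {pos : List ℕ} {i : ℕ} {k : ℕ → ℕ → Bool} (h : lp pos i k = true) :
    ∀ m ∈ pos, ∃ j, k j m = true := by
  induction pos generalizing i with
  | nil => intro m hm; exact absurd hm (by simp)
  | cons a L ih =>
    have : lp (a :: L) i k = frc i fun i => frc a fun m => band (k i m) (lp L (Nat.succ i) k) := rfl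
    rw [this, frc_eq, frc_eq, band_iff] at h
    intro m hm
    rcases List.mem_cons.mp hm with h1 | h1
    · exact ⟨i, by rw [h1]; exact h.1⟩
    · exact ih h.2 m h1

theorem lp2_spec {pos0 pos1 : List ℕ} {n i : ℕ} {k : ℕ → ℕ → ℕ → Bool}
    (h : lp2 pos0 pos1 n i k = true) : ∀ m0 ∈ pos0, ∀ m1 ∈ pos1, ∃ j, k j m0 m1 = true := by
  induction pos0 generalizing i with
  | nil => intro m hm; exact absurd hm (by simp)
  | cons a L ih =>
    have : lp2 (a :: L) pos1 n i k = frc i fun i => frc a fun m =>
      band (lp pos1 i (fun j m1 => k j m m1)) (lp2 L pos1 n (Nat.add i n) k) := rfl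
    rw [this, frc_eq, frc_eq, band_iff] at h
    intro m hm
    rcases List.mem_cons.mp hm with h1 | h1
    · intro m1 hm1
      rw [h1]
      exact lp_spec h.1 m1 hm1
    · exact ih h.2 m h1

theorem rootok_iff {S s : ℕ} {C : List ℕ} : rootok S s C = true ↔
    S = 0 ∨ (S.testBit s = true ∧ ∀ w ∈ C, w.testBit s = false) := by
  unfold rootok
  rw [bor_iff, band_iff, beq_iff, tb_eq, allL_iff]
  simp only [bnot_iff, tb_eq]

theorem fld_lt (E i : ℕ) : fld E i < 2 ^ 32 := by
  unfold fld
  change (E >>> (32 * i)) &&& 4294967295 < 2 ^ 32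
  exact lt_of_le_of_lt Nat.and_le_right (by norm_num)

end H58T
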