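import Pool.Agent.Lib.H58T.Defs

/-! # H58T, C0: masks -/

namespace H58T

open Finset

theorem testBit_msk {A : Finset ℕ} (hA : A ⊆ range 30) (S k : ℕ) :
    (msk A S).testBit k = (decide (k ∈ A) && S.testBit k) := by
  unfold msk
  by_cases hk : k < 32
  · rw [Nat.testBit_ofBits_lt _ _ hk]
  · rw [Nat.testBit_ofBits_ge _ _ (by omega)]
    have : k ∉ A := fun h => by
      have := mem_range.mp (hA h)
      omega
    simp [this]

/-- the mask in a smaller set -/
theorem msk_sub {A : Finset ℕ} (hA : A ⊆ range 30) {S s : ℕ} (h : s &&& S = s) :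
    msk A s = msk A S &&& s := by
  apply Nat.eq_of_testBit_eq
  intro k
  rw [Nat.testBit_and, testBit_msk hA, testBit_msk hA]
  have h1 : s.testBit k = (s.testBit k && S.testBit k) := by
    rw [← Nat.testBit_and, h]
  rw [h1]
  cases s.testBit k <;> cases S.testBit k <;> simp

/-- `triv v u`: one of the two numbers is zero or a power of two -/
theorem and_sub_one {v : ℕ} (h : v &&& (v - 1) = 0) : v = 0 ∨ ∃ k, v = 2 ^ k := by
  rcases Nat.eq_zero_or_pos v with h0 | h0
  · exact Or.inl h0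
  right
  refine ⟨Nat.log2 v, ?_⟩
  by_contra hne
  have hlt : 2 ^ Nat.log2 v < v := lt_of_le_of_ne (Nat.log2_self_le h0.ne') (fun h => hne h.symm)
  have hlt2 : v < 2 ^ (Nat.log2 v + 1) := Nat.lt_log2_self
  have hb1 : v.testBit (Nat.log2 v) = true := by
    rw [Nat.testBit_eq_decide_div_mod_eq]
    have : v / 2 ^ Nat.log2 v = 1 := by
      apply Nat.div_eq_of_lt_le
      · linarith
      · rw [pow_succ] at hlt2; linarith
    rw [this]; simp
  have hb2 : (v - 1).testBit (Nat.log2 v) = true := by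
    rw [Nat.testBit_eq_decide_div_mod_eq]
    have : (v - 1) / 2 ^ Nat.log2 v = 1 := by
      apply Nat.div_eq_of_lt_le
      · rw [one_mul]; omega
      · rw [pow_succ] at hlt2; omega
    rw [this]; simp
  have h3 : (v &&& (v - 1)).testBit (Nat.log2 v) = true := by
    rw [Nat.testBit_and, hb1, hb2]; rfl
  rw [h, Nat.zero_testBit] at h3
  exact absurd h3 (by simp)

theorem two_pow_and_sub_one (k : ℕ) : 2 ^ k &&& (2 ^ k - 1) = 0 := by
  apply Nat.eq_of_testBit_eq
  intro j
  rw [Nat.testBit_and, Nat.testBit_two_pow_sub_one, Nat.testBit_two_pow, Nat.zero_testBit]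
  by_cases h : k = j
  · subst h; simp
  · simp [h]

theorem triv_iff {v u : ℕ} : triv v u = true ↔
    (v = 0 ∨ ∃ k, v = 2 ^ k) ∨ (u = 0 ∨ ∃ k, u = 2 ^ k) := by
  unfold triv
  rw [bor_iff, beq_iff, beq_iff]
  have key : ∀ v : ℕ, Nat.land v (Nat.sub v 1) = 0 ↔ (v = 0 ∨ ∃ k, v = 2 ^ k) := by
    intro v
    change v &&& (v - 1) = 0 ↔ _
    constructor
    · exact and_sub_one
    · rintro (h | ⟨k, h⟩)
      · rw [h]; rfl
      · rw [h]; exact two_pow_and_sub_one k
  rw [key, key]

theorem triv_comm {v u : ℕ} (h : triv v u = true) : triv u v = true := by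
  rw [triv_iff] at h ⊢
  exact h.symm

end H58T
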