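import Pool.Agent.Lib.H58T.C0

namespace H58T

open Finset

/-- the re-rooted set -/
def c1_rr (s : ℕ) (A : Finset ℕ) : Finset ℕ := if s ∈ A then range 30 \ A else A

theorem c1_rr_sub {s : ℕ} {A : Finset ℕ} (hA : A ⊆ range 30) : c1_rr s A ⊆ range 30 := by
  unfold c1_rr
  split_ifs
  · exact sdiff_subset
  · exact hA

theorem c1_rr_root {s : ℕ} {A : Finset ℕ} : s ∉ c1_rr s A := by
  unfold c1_rr
  split_ifs with h
  · simp [h]
  · exact h

theorem c1_rr_lam {s : ℕ} {A B : Finset ℕ} (hA : A ⊆ range 30) (hB : B ⊆ range 30)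
    (h : A ⊆ B ∨ B ⊆ A ∨ Disjoint A B) :
    c1_rr s A ⊆ c1_rr s B ∨ c1_rr s B ⊆ c1_rr s A ∨ Disjoint (c1_rr s A) (c1_rr s B) := by
  unfold c1_rr
  by_cases ha : s ∈ A <;> by_cases hb : s ∈ B
  · rw [if_pos ha, if_pos hb]
    rcases h with h | h | h
    · exact Or.inr (Or.inl (sdiff_subset_sdiff (Subset.refl _) h))
    · exact Or.inl (sdiff_subset_sdiff (Subset.refl _) h)
    · exact absurd hb (Finset.disjoint_left.mp h ha)
  · rw [if_pos ha, if_neg hb]
    rcases h with h | h | h
    · exact absurd (h ha) hb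
    · right; right
      rw [Finset.disjoint_left]
      intro a h1 h2
      exact (mem_sdiff.mp h1).2 (h h2)
    · right; left
      intro a h1
      exact mem_sdiff.mpr ⟨hB h1, fun h2 => Finset.disjoint_left.mp h h2 h1⟩
  · rw [if_neg ha, if_pos hb]
    rcases h with h | h | h
    · right; right
      rw [Finset.disjoint_left]
      intro a h1 h2
      exact (mem_sdiff.mp h2).2 (h h1)
    · exact absurd (h hb) ha
    · left
      intro a h1
      exact mem_sdiff.mpr ⟨hA h1, fun h2 => Finset.disjoint_left.mp h h1 h2⟩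
  · rw [if_neg ha, if_neg hb]
    exact h

theorem c1_msk_rr {s : ℕ} {A : Finset ℕ} (hA : A ⊆ range 30) {S : ℕ}
    (hS : ∀ k, S.testBit k = true → k < 30) :
    msk A S = msk (c1_rr s A) S ∨ msk A S = msk (c1_rr s A) S ^^^ S := by
  by_cases ha : s ∈ A
  · right
    apply Nat.eq_of_testBit_eq
    intro k
    rw [Nat.testBit_xor, testBit_msk hA, testBit_msk (c1_rr_sub hA)]
    unfold c1_rr
    rw [if_pos ha]
    cases hk : S.testBit k with
    | false => simp
    | true =>
      have := hS k hk
      by_cases hkA : k ∈ A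
      · simp [hkA]
      · simp [hkA, this]
  · left
    unfold c1_rr
    rw [if_neg ha]

/-- `Cut` is symmetric -/
theorem c1_cut_compl {S : ℕ} {C : List ℕ} {w : ℕ} (h : Cut S C w) : Cut S C (w ^^^ S) := by
  unfold Cut at h ⊢
  rw [Nat.xor_assoc, Nat.xor_self, Nat.xor_zero]
  rcases h with h | h | h
  · exact Or.inl (triv_comm h)
  · exact Or.inr (Or.inr h)
  · exact Or.inr (Or.inl h)

theorem c1_cut_rr {s : ℕ} {A : Finset ℕ} (hA : A ⊆ range 30) {S : ℕ} {C : List ℕ}
    (hS : ∀ k, S.testBit k = true → k < 30) :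
    Cut S C (msk A S) ↔ Cut S C (msk (c1_rr s A) S) := by
  rcases c1_msk_rr (s := s) hA hS with h | h
  · rw [h]
  · constructor
    · intro h1
      have h2 := c1_cut_compl h1
      rw [h, Nat.xor_assoc, Nat.xor_self, Nat.xor_zero] at h2
      exact h2
    · intro h1
      rw [h]
      exact c1_cut_compl h1

/-- the classification of the masks -/
theorem c1_class {S s : ℕ} {C : List ℕ} {w : ℕ} (hS : ∀ k, S.testBit k = true → k < 30)
    (hs : S.testBit s = true) (hC : ∀ w ∈ C, w.testBit s = false) (hw : ∀ k, w.testBit k = true → S.testBit k = true)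
    (hws : w.testBit s = false) (h : Cut S C w) :
    w = 0 ∨ w ∈ C ∨ (∃ j, j < 30 ∧ S.testBit j = true ∧ j ≠ s ∧ w = 2 ^ j) ∨ w = S ^^^ 2 ^ s := by
  have hxs : (w ^^^ S).testBit s = true := by
    rw [Nat.testBit_xor, hws, hs]; rfl
  rcases h with h | h | h
  · rw [triv_iff] at h
    rcases h with (h | ⟨j, h⟩) | (h | ⟨j, h⟩)
    · exact Or.inl h
    · right; right; left
      have hj : w.testBit j = true := by rw [h, Nat.testBit_two_pow]; simp
      refine ⟨j, hS j (hw j hj), hw j hj, ?_, h⟩
      intro hjs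
      rw [hjs, hws] at hj
      exact absurd hj (by simp)
    · rw [h, Nat.zero_testBit] at hxs
      exact absurd hxs (by simp)
    · right; right; right
      have hjs : j = s := by
        rw [h, Nat.testBit_two_pow] at hxs
        exact of_decide_eq_true hxs
      rw [hjs] at h
      rw [← h, Nat.xor_comm w S, ← Nat.xor_assoc, Nat.xor_self, Nat.zero_xor]
  · exact Or.inr (Or.inl h)
  · rw [hC _ h] at hxs
    exact absurd hxs (by simp)

/-- bits of an intersection which is equal to the second member -/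
theorem c1_and_iff {w m : ℕ} : w &&& m = m ↔ ∀ k, m.testBit k = true → w.testBit k = true := by
  constructor
  · intro h k hk
    rw [← h, Nat.testBit_and, Bool.and_eq_true] at hk
    exact hk.1
  · intro h
    apply Nat.eq_of_testBit_eq
    intro k
    rw [Nat.testBit_and]
    cases hk : m.testBit k with
    | false => simp
    | true => simp [h k hk]

theorem c1_exists_bit {m : ℕ} (h : m ≠ 0) : ∃ k, m.testBit k = true := by
  by_contra hcon
  push Not at hcon
  apply h
  apply Nat.eq_of_testBit_eq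
  intro k
  rw [Nat.zero_testBit]
  simpa using hcon k

theorem c1_msk_le {A : Finset ℕ} (hA : A ⊆ range 30) {S k : ℕ} (h : (msk A S).testBit k = true) :
    k ∈ A ∧ S.testBit k = true := by
  rw [testBit_msk hA] at h
  simpa using h

theorem c1_msk_of {A : Finset ℕ} (hA : A ⊆ range 30) {S k : ℕ} (h1 : k ∈ A) (h2 : S.testBit k = true) :
    (msk A S).testBit k = true := by
  rw [testBit_msk hA]
  simp [h1, h2]

/-- the choice of the position -/
theorem c1_choose (F : Set (Finset ℕ)) (hfin : ∀ A ∈ F, A ⊆ range 30)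
    (hlam : ∀ A ∈ F, ∀ B ∈ F, A ⊆ B ∨ B ⊆ A ∨ Disjoint A B) {S x s : ℕ} {C : List ℕ}
    (hS : ∀ k, S.testBit k = true → k < 30) (hS0 : S ≠ 0)
    (hs : S.testBit s = true) (hrC : ∀ w ∈ C, w.testBit s = false) (hC : Compat F S C) :
    ∃ m ∈ posl C S s, (S ^^^ 2 ^ s) &&& m = m ∧
      (∀ A ∈ F, x ∈ c1_rr s A → msk (c1_rr s A) S = 0 ∨ (m ≠ 0 ∧ msk (c1_rr s A) S &&& m = m)) ∧
      (∀ A ∈ F, x ∉ c1_rr s A → msk (c1_rr s A) S &&& m = m → msk (c1_rr s A) S = m) := by
  have hroot : ∀ A ∈ F, (msk (c1_rr s A) S).testBit s = false := by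
    intro A hA
    rw [testBit_msk (c1_rr_sub (hfin A hA))]
    simp [c1_rr_root]
  have hle : ∀ A ∈ F, (S ^^^ 2 ^ s) &&& msk (c1_rr s A) S = msk (c1_rr s A) S := by
    intro A hA
    rw [c1_and_iff]
    intro k hk
    have h1 := (c1_msk_le (c1_rr_sub (hfin A hA)) hk).2
    rw [Nat.testBit_xor, h1, Nat.testBit_two_pow]
    have : s ≠ k := by
      intro h
      rw [← h, hroot A hA] at hk
      exact absurd hk (by simp)
    simp [this]
  have hclass : ∀ A ∈ F, msk (c1_rr s A) S = 0 ∨ msk (c1_rr s A) S ∈ C ∨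
      (∃ j, j < 30 ∧ S.testBit j = true ∧ j ≠ s ∧ msk (c1_rr s A) S = 2 ^ j) ∨
      msk (c1_rr s A) S = S ^^^ 2 ^ s := by
    intro A hA
    exact c1_class hS hs hrC (fun k hk => (c1_msk_le (c1_rr_sub (hfin A hA)) hk).2) (hroot A hA)
      ((c1_cut_rr (hfin A hA) hS).mp (hC A hA))
  have hrc : rcut S s = S ^^^ 2 ^ s := by unfold rcut; rw [if_neg hS0]
  by_cases hne : ∃ A ∈ F, x ∈ c1_rr s A ∧ msk (c1_rr s A) S ≠ 0
  · obtain ⟨A0, ⟨hA0, hx0, hm0⟩, hmin⟩ : ∃ A0, (A0 ∈ F ∧ x ∈ c1_rr s A0 ∧ msk (c1_rr s A0) S ≠ 0) ∧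
        ∀ B, (B ∈ F ∧ x ∈ c1_rr s B ∧ msk (c1_rr s B) S ≠ 0) → (c1_rr s A0).card ≤ (c1_rr s B).card := by
      obtain ⟨A1, hA1⟩ := hne
      have hwf := (measure (fun A : Finset ℕ => (c1_rr s A).card)).wf
      obtain ⟨A0, h0, h1⟩ := hwf.has_min {B | B ∈ F ∧ x ∈ c1_rr s B ∧ msk (c1_rr s B) S ≠ 0}
        ⟨A1, hA1⟩
      exact ⟨A0, h0, fun B hB => not_lt.mp (h1 B hB)⟩
    refine ⟨msk (c1_rr s A0) S, ?_, hle A0 hA0, ?_, ?_⟩
    · rw [mem_posl, hrc]
      rcases hclass A0 hA0 with h | h | h | h
      · exact absurd h hm0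
      · exact Or.inl h
      · exact Or.inr (Or.inr h)
      · exact Or.inr (Or.inl h)
    · intro A hA hxA
      by_cases h0 : msk (c1_rr s A) S = 0
      · exact Or.inl h0
      right
      refine ⟨hm0, ?_⟩
      have hsub : c1_rr s A0 ⊆ c1_rr s A := by
        rcases c1_rr_lam (s := s) (hfin A0 hA0) (hfin A hA) (hlam A0 hA0 A hA) with h | h | h
        · exact h
        · have := Finset.eq_of_subset_of_card_le h (hmin A ⟨hA, hxA, h0⟩)
          rw [this]
        · exact absurd hxA (Finset.disjoint_left.mp h hx0)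
      rw [c1_and_iff]
      intro k hk
      have h1 := c1_msk_le (c1_rr_sub (hfin A0 hA0)) hk
      exact c1_msk_of (c1_rr_sub (hfin A hA)) (hsub h1.1) h1.2
    · intro A hA hxA hand
      obtain ⟨k, hk⟩ := c1_exists_bit hm0
      have hk1 := c1_msk_le (c1_rr_sub (hfin A0 hA0)) hk
      have hk2 := c1_msk_le (c1_rr_sub (hfin A hA)) (c1_and_iff.mp hand k hk)
      have hsub : c1_rr s A ⊆ c1_rr s A0 := by
        rcases c1_rr_lam (s := s) (hfin A0 hA0) (hfin A hA) (hlam A0 hA0 A hA) with h | h | h
        · exact absurd (h hx0) hxA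
        · exact h
        · exact absurd hk2.1 (Finset.disjoint_left.mp h hk1.1)
      apply Nat.eq_of_testBit_eq
      intro j
      cases hj : (msk (c1_rr s A0) S).testBit j with
      | true => exact c1_and_iff.mp hand j hj
      | false =>
        cases hj2 : (msk (c1_rr s A) S).testBit j with
        | false => rfl
        | true =>
          have h1 := c1_msk_le (c1_rr_sub (hfin A hA)) hj2
          rw [c1_msk_of (c1_rr_sub (hfin A0 hA0)) (hsub h1.1) h1.2] at hj
          exact hj
  · push Not at hne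
    refine ⟨S ^^^ 2 ^ s, ?_, Nat.and_self _, ?_, ?_⟩
    · rw [mem_posl, hrc]
      exact Or.inr (Or.inl rfl)
    · intro A hA hxA
      exact Or.inl (hne A hA hxA)
    · intro A hA hxA hand
      have h1 := hle A hA
      rw [Nat.and_comm, hand] at h1
      exact h1.symm

/-- **C1 (M).** Insertion of a leaf in a tree, in terms of cuts.
PROOF. If `S = 0`: `m = rcut S s = 0` (`mem_posl`); `S ||| 2 ^ x = 2 ^ x`; for `A ∈ F` the mask `msk A (2 ^ x)` is `0` or `2 ^ x`
(`testBit_msk`), so it is trivial (`triv_iff`). Let `S ≠ 0`; then (`rootok_iff`) `s` is a bit of `S` and no `w ∈ C` contains `s`.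
Also `s < 30`, all bits of `S` are below `30` (`hS`).
*Re-rooting.* For `A ∈ F` let `A' = A` if `s ∉ A`, and `A' = range 30 \ A` if `s ∈ A`. Then `s ∉ A'`, the family `F' = {A'}` is again laminar
(if `A, B` both contain `s` they are nested, so the complements are; if only `A` does, then `B ⊆ A` or `B ∩ A = ∅` (`A ⊆ B` is impossible), so `B` and the
complement of `A` are disjoint or nested). Put `w(A) = msk A' S` for `A ∈ F`: `w(A) = msk A S`, resp. `msk A S ^^^ S`. CLAIM: `w(A) = 0`, or `w(A) ∈ C`, or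
`w(A) = 2 ^ j` for some `j ≠ s`, `j < 30`, `S.testBit j`, or `w(A) = S ^^^ 2 ^ s = rcut S s`. Indeed `Cut S C (msk A S)` has the cases trivial (`triv_iff`: `w` or `w ^^^ S` is `0` or a power of two),
`∈ C`, complement `∈ C`; since `w(A)` does not contain `s` and `s` is in its complement: `w(A) = S` is impossible, `w(A) ^^^ S = 2 ^ j` forces `j = s`,
`w(A) ^^^ S ∈ C` is impossible by `rootok`, `w(A) = 2 ^ j` forces `j ≠ s`; so `w(A) ∈ {0} ∪ posl C S s` (`mem_posl`).
*Choice of `m`.* Let `F₁ = {A' | A ∈ F, x ∈ A', w(A) ≠ 0}`. If `F₁` is empty, `m = rcut S s`. Otherwise let `A₀'` be an element of `F₁` of smallest cardinality, `m = w(A₀) ∈ posl C S s`.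
Any two elements of `F₁` contain `x`, so they are nested, hence `A₀' ⊆ A'` for all `A' ∈ F₁`.
*The new cuts.* Let `b = 2 ^ x`, `S' = S ||| b`, `A ∈ F`. It suffices that `w'(A) = msk A' S'` is `0`, `b`, or in `insL m b C` (`insL_eq`, `ins1_eq`), or trivial in `S'`: then `Cut S' _ (msk A S')`, because
`msk A S'` is `w'(A)` or its complement in `S'` (`triv_comm`). Note: `w' = w(A)` if `x ∉ A'`, `w' = w(A) ||| b` if `x ∈ A'`.
Case `x ∈ A'`: if `w(A) = 0`, `w' = b`, trivial. Else `A' ∈ F₁`, `A₀' ⊆ A'`, so `w(A) &&& m = m`. If `w(A) = m`: `w' = m ||| b ∈ insL m b C`. If `w(A) ≠ m`: if `w(A) ∈ C` then `w' = ins1 m b w(A)`; if `w(A) = rcut S s = S ^^^ 2 ^ s`, then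
`w' ^^^ S' = 2 ^ s` is trivial; if `w(A) = 2 ^ j`, then `m` is a nonempty subset, so `m = w(A)`.
Case `x ∉ A'`: `w' = w(A)`. If it is `0` or `2 ^ j`: trivial. If `w(A) = m`: it is in the list. If it is different from `m` and `w(A) &&& m ≠ m`, and in `C`: `ins1 m b w(A) = w(A)` is in the list. The case `w(A) ≠ m`, `w(A) &&& m = m` is impossible:
if `F₁` is empty, `m = rcut S s` is the largest mask without `s`; else `A'` meets `A₀'` (`m ≠ 0`), so they are nested, `A₀' ⊆ A'` is impossible (`x`), and `A' ⊆ A₀'` gives `w(A) ⊆ m`, so `w(A) = m`. For `w(A) = rcut S s ≠ m` use the same. -/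
theorem insert_sound (F : Set (Finset ℕ)) (hfin : ∀ A ∈ F, A ⊆ range 30)
    (hlam : ∀ A ∈ F, ∀ B ∈ F, A ⊆ B ∨ B ⊆ A ∨ Disjoint A B) {S x s : ℕ} {C : List ℕ}
    (hS : ∀ k, S.testBit k = true → k < 30) (hx30 : x < 30)
    (hx : S.testBit x = false) (hr : rootok S s C = true) (hC : Compat F S C) :
    ∃ m ∈ posl C S s, Compat F (S ||| 2 ^ x) (insL m (2 ^ x) C) := by
  by_cases hS0 : S = 0
  · refine ⟨rcut S s, mem_posl.mpr (Or.inr (Or.inl rfl)), ?_⟩
    intro A hA
    left
    rw [triv_iff, hS0, Nat.zero_or]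
    left
    by_cases hxA : x ∈ A
    · right
      refine ⟨x, ?_⟩
      apply Nat.eq_of_testBit_eq
      intro k
      rw [testBit_msk (hfin A hA), Nat.testBit_two_pow]
      by_cases hk : x = k
      · subst hk; simp [hxA]
      · simp [hk]
    · left
      apply Nat.eq_of_testBit_eq
      intro k
      rw [testBit_msk (hfin A hA), Nat.testBit_two_pow, Nat.zero_testBit]
      by_cases hk : x = k
      · subst hk; simp [hxA]
      · simp [hk]
  obtain ⟨hs, hrC⟩ : S.testBit s = true ∧ ∀ w ∈ C, w.testBit s = false := by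
    rcases rootok_iff.mp hr with h | h
    · exact absurd h hS0
    · exact h
  have hxs : x ≠ s := by
    intro h
    rw [h, hs] at hx
    exact absurd hx (by simp)
  obtain ⟨m, hm, hmS, ha, hb⟩ := c1_choose (x := x) F hfin hlam hS hS0 hs hrC hC
  refine ⟨m, hm, ?_⟩
  have hS' : ∀ k, (S ||| 2 ^ x).testBit k = true → k < 30 := by
    intro k hk
    rw [Nat.testBit_or, Nat.testBit_two_pow] at hk
    by_cases hkx : x = k
    · rw [← hkx]; exact hx30
    · simp [hkx] at hk
      exact hS k hk
  intro A hA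
  rw [c1_cut_rr (s := s) (hfin A hA) hS']
  have hA' : c1_rr s A ⊆ range 30 := c1_rr_sub (hfin A hA)
  have hroot : (msk (c1_rr s A) S).testBit s = false := by
    rw [testBit_msk hA']
    simp [c1_rr_root]
  have hclass := c1_class hS hs hrC (fun k hk => (c1_msk_le hA' hk).2) hroot
      ((c1_cut_rr (hfin A hA) hS).mp (hC A hA))
  have ha' := ha A hA
  have hb' := hb A hA
  by_cases hxA : x ∈ c1_rr s A
  · have hw' : msk (c1_rr s A) (S ||| 2 ^ x) = msk (c1_rr s A) S ||| 2 ^ x := by
      apply Nat.eq_of_testBit_eq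
      intro k
      rw [testBit_msk hA', Nat.testBit_or, Nat.testBit_or, testBit_msk hA', Nat.testBit_two_pow]
      by_cases hk : x = k
      · subst hk; simp [hxA]
      · simp [hk]
    rw [hw']
    have ha'' := ha' hxA
    generalize msk (c1_rr s A) S = w at *
    rcases ha'' with h0 | ⟨hm0, hwm⟩
    · left
      rw [triv_iff, h0, Nat.zero_or]
      exact Or.inl (Or.inr ⟨x, rfl⟩)
    · by_cases hwe : w = m
      · right; left
        rw [insL_eq, hwe]
        simp
      · rcases hclass with h | h | ⟨j, hj1, hj2, hj3, h⟩ | h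
        · left
          rw [triv_iff, h, Nat.zero_or]
          exact Or.inl (Or.inr ⟨x, rfl⟩)
        · right; left
          rw [insL_eq, List.mem_append]
          left
          rw [List.mem_map]
          refine ⟨w, h, ?_⟩
          rw [ins1_eq, if_neg hwe, if_pos hwm]
        · exfalso
          apply hwe
          rw [h]
          rw [h] at hwm
          obtain ⟨k, hk⟩ := c1_exists_bit hm0
          have hk2 := c1_and_iff.mp hwm k hk
          rw [Nat.testBit_two_pow] at hk2
          have hjk : j = k := of_decide_eq_true hk2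
          subst hjk
          apply Nat.eq_of_testBit_eq
          intro i
          cases hi : m.testBit i with
          | true => exact c1_and_iff.mp hwm i hi
          | false =>
            rw [Nat.testBit_two_pow]
            by_cases hji : j = i
            · subst hji
              rw [hk] at hi
              exact absurd hi (by simp)
            · simp [hji]
        · left
          rw [triv_iff]
          right; right
          refine ⟨s, ?_⟩
          rw [h]
          apply Nat.eq_of_testBit_eq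
          intro k
          rw [Nat.testBit_xor, Nat.testBit_or, Nat.testBit_or, Nat.testBit_xor, Nat.testBit_two_pow,
            Nat.testBit_two_pow]
          by_cases hkx : x = k
          · subst hkx
            have : s ≠ x := fun h => hxs h.symm
            simp [this]
          · by_cases hks : s = k
            · subst hks
              simp [hkx, hs]
            · simp [hkx, hks]
  · have hw' : msk (c1_rr s A) (S ||| 2 ^ x) = msk (c1_rr s A) S := by
      apply Nat.eq_of_testBit_eq
      intro k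
      rw [testBit_msk hA', Nat.testBit_or, testBit_msk hA', Nat.testBit_two_pow]
      by_cases hk : x = k
      · subst hk; simp [hxA]
      · simp [hk]
    rw [hw']
    have hb'' := hb' hxA
    generalize msk (c1_rr s A) S = w at *
    by_cases hwe : w = m
    · right; left
      rw [insL_eq, hwe]
      simp
    · have hwm : ¬ (w &&& m = m) := fun h => hwe (hb'' h)
      rcases hclass with h | h | ⟨j, hj1, hj2, hj3, h⟩ | h
      · left
        rw [triv_iff]
        exact Or.inl (Or.inl h)
      · right; left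
        rw [insL_eq, List.mem_append]
        left
        rw [List.mem_map]
        refine ⟨w, h, ?_⟩
        rw [ins1_eq, if_neg hwe, if_neg hwm]
      · left
        rw [triv_iff]
        exact Or.inl (Or.inr ⟨j, h⟩)
      · exact absurd (by rw [h]; exact hmS) hwm

end H58T
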