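import Pool.Agent.Lib.H58T.C0

namespace H58T

open Finset

theorem c2_small {v : ℕ} (s : ℕ) (h : v = 0 ∨ ∃ k, v = 2 ^ k) :
    v &&& s = 0 ∨ ∃ k, v &&& s = 2 ^ k := by
  rcases h with h | ⟨k, h⟩
  · left; rw [h, Nat.zero_and]
  · cases hs : s.testBit k with
    | false =>
      left
      apply Nat.eq_of_testBit_eq
      intro j
      rw [h, Nat.testBit_and, Nat.testBit_two_pow, Nat.zero_testBit]
      by_cases hj : k = j
      · subst hj; simp [hs]
      · simp [hj]
    | true =>
      right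
      refine ⟨k, ?_⟩
      apply Nat.eq_of_testBit_eq
      intro j
      rw [h, Nat.testBit_and, Nat.testBit_two_pow]
      by_cases hj : k = j
      · subst hj; simp [hs]
      · simp [hj]

theorem c2_compl {W S s : ℕ} (hs : s &&& S = s) : (W ^^^ S) &&& s = (W &&& s) ^^^ s := by
  apply Nat.eq_of_testBit_eq
  intro j
  rw [Nat.testBit_and, Nat.testBit_xor, Nat.testBit_xor, Nat.testBit_and]
  have h1 : s.testBit j = (s.testBit j && S.testBit j) := by
    rw [← Nat.testBit_and, hs]
  revert h1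
  cases s.testBit j <;> cases S.testBit j <;> cases W.testBit j <;> simp

theorem c2_okc {S : ℕ} {L : List ℕ} {w : ℕ} (h : okc S L w = true) :
    triv (w &&& S) ((w &&& S) ^^^ S) = true ∨ (w &&& S) ∈ L ∨ ((w &&& S) ^^^ S) ∈ L := by
  unfold okc at h
  rw [frc_eq, frc_eq, bor_iff, bor_iff, mem_iff, mem_iff] at h
  exact h

/-- **C2 (S/M).** Restriction of a compatible list of cuts to a smaller set of leaves.
PROOF. Let `A ∈ F`, `W = msk A S`, `V = msk A s = W &&& s` (`msk_sub`). Cases of `Cut S C W`: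
* `W = 0` or `W = 2 ^ k`: `V = 0` or `V = 2 ^ k` (`(2 ^ k) &&& s` is `2 ^ k` or `0`), trivial. `W ^^^ S = 0` or `2 ^ k`: then `V ^^^ s = (W ^^^ S) &&& s` (because `s &&& S = s`), the same.
* `W ∈ C`: `okc s L W` says (unfold, `frc_eq`, `bor_iff`, `mem_iff`; `Nat.land`, `Nat.xor` are `&&&`, `^^^`): with `v = W &&& s = V`, `u = v ^^^ s`: `triv v u` or `v ∈ L` or `u ∈ L`, which is `Cut s L V`.
* `W ^^^ S ∈ C`: the same with `v = (W ^^^ S) &&& s = V ^^^ s`, `u = v ^^^ s = V` (`Nat.xor_xor_cancel_right`); use `triv_comm`. -/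
theorem okc_sound (F : Set (Finset ℕ)) (hfin : ∀ A ∈ F, A ⊆ range 30) {S s : ℕ} {C L : List ℕ}
    (hs : s &&& S = s) (hC : Compat F S C) (h : ∀ w ∈ C, okc s L w = true) : Compat F s L := by
  intro A hA
  have hc := hC A hA
  unfold Cut at hc ⊢
  rw [msk_sub (hfin A hA) hs]
  generalize msk A S = W at hc
  rcases hc with hc | hc | hc
  · left
    rw [triv_iff] at hc ⊢
    rcases hc with hc | hc
    · exact Or.inl (c2_small s hc)
    · right
      rw [← c2_compl hs]
      exact c2_small s hc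
  · exact c2_okc (h W hc)
  · have h2 := c2_okc (h _ hc)
    rw [c2_compl hs, Nat.xor_assoc, Nat.xor_self, Nat.xor_zero] at h2
    rcases h2 with h2 | h2 | h2
    · exact Or.inl (triv_comm h2)
    · exact Or.inr (Or.inr h2)
    · exact Or.inr (Or.inl h2)

end H58T
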