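import Pool.Agent.Lib.H58T.C2

namespace H58T

open Finset

theorem c3_bit {s S k : ℕ} (h : s &&& S = s) (hk : s.testBit k = true) : S.testBit k = true := by
  have h1 : (s &&& S).testBit k = true := by rw [h, hk]
  rw [Nat.testBit_and, hk, Bool.true_and] at h1
  exact h1

/-- **C3 (S/M).** The matching of an entry.
PROOF. Unfold `mt`, remove `frc` (`frc_eq`) and `unl` (`unl_eq`), split the conjunction (`band_iff`, `sub_iff`, `allL_iff`; `Nat.add` is `+`).
`c0`, `c1`: `okc_sound` with `s = fld E 5`, resp. `fld E 6`. `s0`: a bit of `fld E 5` is a bit of `S0` (`fld E 5 &&& S0 = fld E 5`, `Nat.testBit_and`), `q0`: the same with `P0`, and so on. -/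
theorem mt_sound {S0 S1 P0 P1 : ℕ} {C0 C1 : List ℕ} {E : ℕ} (h : mt S0 S1 P0 P1 C0 C1 E = true)
    {Λ : ℝ} (w : World Λ) (h0 : Compat (w.F 0) S0 C0) (h1 : Compat (w.F 1) S1 C1)
    (hS0 : ∀ k, S0.testBit k = true → w.pres 0 k) (hS1 : ∀ k, S1.testBit k = true → w.pres 1 k)
    (hP0 : ∀ k, P0.testBit k = true → w.pres 0 k) (hP1 : ∀ k, P1.testBit k = true → w.pres 1 k) :
    Holds w (cfgE E) := by
  unfold mt at h
  simp only [frc_eq, unl_eq, band_iff, sub_iff, allL_iff] at h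
  obtain ⟨a1, a2, a3, a4, a5, a6⟩ := h
  exact {
    c0 := okc_sound (w.F 0) (w.fin 0) a1 h0 a5
    c1 := okc_sound (w.F 1) (w.fin 1) a2 h1 a6
    s0 := fun k hk => hS0 k (c3_bit a1 hk)
    s1 := fun k hk => hS1 k (c3_bit a2 hk)
    q0 := fun k hk => hP0 k (c3_bit a3 hk)
    q1 := fun k hk => hP1 k (c3_bit a4 hk) }

end H58T
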