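import Pool.Agent.Lib.H58T.C0

namespace H58T

open Finset

/-- A symmetry of the square: the involution `σ` of the leaves and the matrix `(a, b; c, d)`. -/
structure Sy (σ : ℕ → ℕ) (a b c d : ℝ) : Prop where
  inv : ∀ k, σ (σ k) = k
  s20 : ∀ k, k < 20 → σ k < 20
  s30 : ∀ k, 20 ≤ k → k < 30 → 20 ≤ σ k ∧ σ k < 30
  com : ∀ D, 20 ≤ D → D < 30 → (kp (σ D) = σ (kp D) ∧ km (σ D) = σ (km D)) ∨
    (kp (σ D) = σ (km D) ∧ km (σ D) = σ (kp D))
  orth : ∀ x y : ℝ, (a * x + b * y) ^ 2 + (c * x + d * y) ^ 2 = x ^ 2 + y ^ 2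
  par : ∀ k, k < 30 → ∀ x y : ℝ, x * dY k = y * dX k →
    (a * x + b * y) * dY (σ k) = (c * x + d * y) * dX (σ k)
  pos : ∀ k, k < 20 → ∀ x y : ℝ,
    (gx (cor (σ k)) * (a * x + b * y) = gx (cor k) * x ∧ gy (cor (σ k)) * (c * x + d * y) = gy (cor k) * y) ∨
    (gx (cor (σ k)) * (a * x + b * y) = gy (cor k) * y ∧ gy (cor (σ k)) * (c * x + d * y) = gx (cor k) * x)

theorem c4a_sum {σ : ℕ → ℕ} (hi : ∀ k, σ (σ k) = k) {n : ℕ} (hn : ∀ k, k < n → σ k < n) (g : ℕ → ℝ) :
    ∑ k ∈ range n, g (σ k) = ∑ k ∈ range n, g k := by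
  refine Finset.sum_nbij' σ σ ?_ ?_ ?_ ?_ ?_
  · intro k hk
    exact mem_range.2 (hn k (mem_range.1 hk))
  · intro k hk
    exact mem_range.2 (hn k (mem_range.1 hk))
  · intro k _
    exact hi k
  · intro k _
    exact hi k
  · intro k _
    rfl

/-- **C4A (M).** The image of a world under a symmetry.
PROOF. `σ` is an involution, so a bijection of `ℕ` which maps `{0, .., 19}`, `{20, .., 29}` and the rest onto themselves (`k ≥ 30`: if `σ k < 30` then `k = σ (σ k) < 30`). Put `pres' e k = w.pres e (σ k)`, `F' e = {A | A.image σ ∈ w.F e}`.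
`lt`, `fin`: by the above. `lam`: `A.image σ ⊆ B.image σ ↔ A ⊆ B` (`Finset.image_subset_image_iff` with injectivity), `Finset.disjoint_image`. `supp`: `w.supp (σ k)`. `com`: for `D` the hypothesis says (`h.com D`) that the pair
`kp (σ D), km (σ D)` is the pair `σ (kp D), σ (km D)` in one of the two orders; use `w.com (σ D)`. `ineq`: let `x, y` be admissible for the new data; put `X e k = a x e (σ k) + b y e (σ k)`, `Y e k = c x e (σ k) + d y e (σ k)`. They are admissible for `w`: `sup`: if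
`X e k ≠ 0` or `Y e k ≠ 0` then `x e (σ k) ≠ 0` or `y e (σ k) ≠ 0`, so `σ k < 30` and `w.pres e (σ (σ k))`, i.e. `w.pres e k`. `par` with `h.par (σ k)` (for `k ≥ 30` all is zero by `sup`), `pos` with `h.pos (σ k)`, `opp`: linear (`20 ≤ σ k` for `20 ≤ k`), `sum`: `∑ k ∈ range 30, X e k = a ∑ x e k + b ∑ y e k`
(`Finset.sum_nbij'` or `Finset.sum_bij` with `σ`; `Finset.sum_add_distrib`, `Finset.mul_sum`), `one`: `h.orth`, `cut`: for `A ∈ w.F e` the set `A.image σ` is in `F' e` (`(A.image σ).image σ = A`), and `∑ k ∈ A, X e k = a ∑ k ∈ A.image σ, x e k + b ∑ ...` (`Finset.sum_image`), then `h.orth`.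
`val (X e) (Y e) = val (x e) (y e)`: reindex by `σ` and use `h.pos` (in both cases the two terms have the same sum). -/
theorem world_sy {σ : ℕ → ℕ} {a b c d : ℝ} (h : Sy σ a b c d) {Λ : ℝ} (w : World Λ) :
    ∃ w' : World Λ, ∀ e k, w'.pres e k ↔ w.pres e (σ k) := by
  have hinj : Function.Injective σ := by
    intro k j hkj
    rw [← h.inv k, hkj, h.inv j]
  have h30 : ∀ k, k < 30 → σ k < 30 := by
    intro k hk
    by_cases h1 : k < 20
    · have := h.s20 k h1
      omega
    · exact (h.s30 k (by omega) hk).2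
  have h30' : ∀ k, σ k < 30 → k < 30 := by
    intro k hk
    have := h30 (σ k) hk
    rwa [h.inv] at this
  have h20' : ∀ k, 20 ≤ k → 20 ≤ σ k := by
    intro k hk
    by_contra h1
    have := h.s20 (σ k) (by omega)
    rw [h.inv] at this
    omega
  have himg : ∀ A : Finset ℕ, (A.image σ).image σ = A := by
    intro A
    rw [Finset.image_image]
    have e : σ ∘ σ = id := by
      funext k
      exact h.inv k
    rw [e, Finset.image_id]
  have hineq : ∀ x y : Fin 2 → ℕ → ℝ, Adm (fun e k => w.pres e (σ k)) (fun e => {A | A.image σ ∈ w.F e}) x y →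
      val (x 0) (y 0) + val (x 1) (y 1) ≤ 2 * Λ := by
    intro x y hA
    obtain ⟨X, hX⟩ : ∃ X : Fin 2 → ℕ → ℝ, ∀ e k, X e k = a * x e (σ k) + b * y e (σ k) :=
      ⟨fun e k => _, fun e k => rfl⟩
    obtain ⟨Y, hY⟩ : ∃ Y : Fin 2 → ℕ → ℝ, ∀ e k, Y e k = c * x e (σ k) + d * y e (σ k) :=
      ⟨fun e k => _, fun e k => rfl⟩
    have hsup : ∀ e k, (X e k ≠ 0 ∨ Y e k ≠ 0) → k < 30 ∧ w.pres e k := by
      intro e k hk
      have h1 : x e (σ k) ≠ 0 ∨ y e (σ k) ≠ 0 := by
        by_contra h2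
        rw [not_or, not_not, not_not] at h2
        rw [hX, hY, h2.1, h2.2] at hk
        simp at hk
      obtain ⟨h2, h3⟩ := hA.sup e (σ k) h1
      have h4 : w.pres e (σ (σ k)) := h3
      rw [h.inv] at h4
      exact ⟨h30' k h2, h4⟩
    have hsumX : ∀ e (s : Finset ℕ), ∑ k ∈ s, X e k = a * ∑ k ∈ s, x e (σ k) + b * ∑ k ∈ s, y e (σ k) := by
      intro e s
      rw [Finset.mul_sum, Finset.mul_sum, ← Finset.sum_add_distrib]
      exact Finset.sum_congr rfl fun k _ => hX e k
    have hsumY : ∀ e (s : Finset ℕ), ∑ k ∈ s, Y e k = c * ∑ k ∈ s, x e (σ k) + d * ∑ k ∈ s, y e (σ k) := by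
      intro e s
      rw [Finset.mul_sum, Finset.mul_sum, ← Finset.sum_add_distrib]
      exact Finset.sum_congr rfl fun k _ => hY e k
    have hAdm : Adm w.pres w.F X Y := by
      refine ⟨hsup, ?_, ?_, ?_, ?_, ?_, ?_⟩
      · intro e k
        by_cases hk : k < 30
        · have h1 := h.par (σ k) (h30 k hk) _ _ (hA.par e (σ k))
          rw [h.inv] at h1
          rw [hX, hY]
          exact h1
        · have h1 : X e k = 0 := by
            by_contra h2
            exact hk (hsup e k (Or.inl h2)).1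
          have h2 : Y e k = 0 := by
            by_contra h2
            exact hk (hsup e k (Or.inr h2)).1
          rw [h1, h2, zero_mul, zero_mul]
      · intro e k hk
        have h1 := hA.pos e (σ k) (h.s20 k hk)
        have h2 := h.pos (σ k) (h.s20 k hk) (x e (σ k)) (y e (σ k))
        rw [h.inv] at h2
        rw [hX, hY]
        rcases h2 with ⟨h3, h4⟩ | ⟨h3, h4⟩
        · rw [h3, h4]
          exact h1
        · rw [h3, h4]
          exact ⟨h1.2, h1.1⟩
      · intro k hk
        obtain ⟨h1, h2⟩ := hA.opp (σ k) (h20' k hk)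
        rw [hX, hX, hY, hY]
        constructor
        · linear_combination a * h1 + b * h2
        · linear_combination c * h1 + d * h2
      · intro e
        obtain ⟨h1, h2⟩ := hA.sum e
        rw [hsumX, hsumY, c4a_sum h.inv h30 (x e), c4a_sum h.inv h30 (y e), h1, h2]
        constructor <;> ring
      · intro e k
        rw [hX, hY, h.orth]
        exact hA.one e (σ k)
      · intro e A hAF
        have h1 : A.image σ ∈ {A : Finset ℕ | A.image σ ∈ w.F e} := by
          show (A.image σ).image σ ∈ w.F e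
          rw [himg]
          exact hAF
        have h2 := hA.cut e (A.image σ) h1
        rw [Finset.sum_image (fun k _ j _ hkj => hinj hkj), Finset.sum_image (fun k _ j _ hkj => hinj hkj)] at h2
        rw [hsumX, hsumY, h.orth]
        exact h2
    have hval : ∀ e, val (X e) (Y e) = val (x e) (y e) := by
      intro e
      unfold val
      rw [← c4a_sum h.inv h.s20 (fun k => gx (cor k) * x e k + gy (cor k) * y e k)]
      apply Finset.sum_congr rfl
      intro k hk
      have h2 := h.pos (σ k) (h.s20 k (mem_range.1 hk)) (x e (σ k)) (y e (σ k))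
      rw [h.inv] at h2
      rw [hX, hY]
      rcases h2 with ⟨h3, h4⟩ | ⟨h3, h4⟩
      · rw [h3, h4]
      · rw [h3, h4, add_comm]
    have h5 := w.ineq X Y hAdm
    rw [hval, hval] at h5
    exact h5
  refine ⟨⟨fun e k => w.pres e (σ k), fun e => {A | A.image σ ∈ w.F e}, ?_, ?_, ?_, ?_, ?_, hineq⟩,
    fun e k => Iff.rfl⟩
  · intro e k hk
    exact h30' k (w.lt e (σ k) hk)
  · intro e A hA k hk
    have h1 := w.fin e _ hA (Finset.mem_image_of_mem σ hk)
    exact mem_range.2 (h30' k (mem_range.1 h1))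
  · intro e A hA B hB
    rcases w.lam e _ hA _ hB with h1 | h1 | h1
    · exact Or.inl ((Finset.image_subset_image_iff hinj).1 h1)
    · exact Or.inr (Or.inl ((Finset.image_subset_image_iff hinj).1 h1))
    · exact Or.inr (Or.inr ((Finset.disjoint_image hinj).1 h1))
  · intro k hk
    exact w.supp (σ k) (h.s20 k hk)
  · intro D h1 h2 hyp
    obtain ⟨h3, h4⟩ := h.s30 D h1 h2
    apply w.com (σ D) h3 h4
    rcases h.com D h1 h2 with ⟨h5, h6⟩ | ⟨h5, h6⟩
    · rw [h5, h6]
      exact hyp
    · rw [h5, h6]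
      rcases hyp with ⟨h7, h8⟩ | ⟨h7, h8⟩
      · exact Or.inr ⟨h8, h7⟩
      · exact Or.inl ⟨h8, h7⟩

end H58T
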