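import Pool.Agent.Lib.H58T.C4A

namespace H58T

/-- reflection in the vertical axis -/
def sX (k : ℕ) : ℕ := [1, 0, 3, 2, 5, 4, 7, 6, 9, 8, 11, 10, 13, 12, 15, 14, 17, 16, 19, 18, 21, 20, 23, 22, 25, 24, 27, 26, 29, 28].getD k k
/-- reflection in the horizontal axis -/
def sY (k : ℕ) : ℕ := [3, 2, 1, 0, 7, 6, 5, 4, 11, 10, 9, 8, 15, 14, 13, 12, 19, 18, 17, 16, 21, 20, 23, 22, 25, 24, 27, 26, 29, 28].getD k k
/-- reflection in the diagonal -/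
def sD (k : ℕ) : ℕ := [2, 1, 0, 3, 10, 9, 8, 11, 6, 5, 4, 7, 18, 17, 16, 19, 14, 13, 12, 15, 20, 21, 24, 25, 22, 23, 28, 29, 26, 27].getD k k

end H58T
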