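import Pool.Agent.Lib.H58T.C4B

namespace H58T

/-- the kind of the reflected direction -/
def c4d_sw (t : ℕ) : ℕ := if t = 0 then 0 else if t = 1 then 2 else if t = 2 then 1 else if t = 3 then 4 else 3

theorem c4d_kd : ∀ k, k < 30 → kd (sD k) = c4d_sw (kd k) ∧ kd k < 5 := by decide +kernel

theorem c4d_gx : ∀ k, k < 20 → ((cor (sD k) = 0 ∨ cor (sD k) = 3) ↔ 2 ≤ cor k) := by
  decide +kernel

theorem c4d_gy : ∀ k, k < 20 → (2 ≤ cor (sD k) ↔ (cor k = 0 ∨ cor k = 3)) := by decide +kernel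

theorem c4d_h : ∀ k, k < 30 → 20 ≤ k → (cor k = 1 ∧ cor (sD k) = 1) ∨ (cor k = 0 ∧ cor (sD k) = 0) := by
  decide +kernel

theorem c4d_pr : ∀ t, t < 5 → pr (c4d_sw t) = qr t ∧ qr (c4d_sw t) = pr t := by
  intro t ht
  unfold c4d_sw pr qr
  interval_cases t <;> norm_num

theorem c4d_gx' {k : ℕ} (hk : k < 20) : gx (cor (sD k)) = gy (cor k) := by
  unfold gx gy
  by_cases h : 2 ≤ cor k
  · rw [if_pos h, if_pos ((c4d_gx k hk).2 h)]
  · rw [if_neg h, if_neg (fun h1 => h ((c4d_gx k hk).1 h1))]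

theorem c4d_gy' {k : ℕ} (hk : k < 20) : gy (cor (sD k)) = gx (cor k) := by
  unfold gx gy
  by_cases h : cor k = 0 ∨ cor k = 3
  · rw [if_pos h, if_pos ((c4d_gy k hk).2 h)]
  · rw [if_neg h, if_neg (fun h1 => h ((c4d_gy k hk).1 h1))]

/-- **C4D (M).** PROOF. As `C4X`. For `k < 20`: `gx (cor (sD k)) = gy (cor k)`, `gy (cor (sD k)) = gx (cor k)`; `kd (sD k)` is `kd k` with `1, 2` and `3, 4` exchanged, so `pr (kd (sD k)) = qr (kd k)`, `qr (kd (sD k)) = pr (kd k)`: `dX (sD k) = dY k`, `dY (sD k) = dX k`.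
For `20 ≤ k < 30`, corner `1`: the same; corner `0` (TL): `dX (sD k) = - dY k`, `dY (sD k) = - dX k`. -/
theorem sy_D : Sy sD 0 1 1 0 := by
  have hge : ∀ k, 30 ≤ k → sD k = k := fun k hk => List.getD_eq_default _ _ hk
  have hfin : ∀ k, k < 30 → sD (sD k) = k := by decide +kernel
  refine ⟨?_, ?_, ?_, ?_, ?_, ?_, ?_⟩
  · intro k
    by_cases hk : k < 30
    · exact hfin k hk
    · rw [hge k (by omega), hge k (by omega)]
  · decide +kernel
  · intro k h1 h2
    have h3 : ∀ k, k < 30 → 20 ≤ k → 20 ≤ sD k ∧ sD k < 30 := by decide +kernel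
    exact h3 k h2 h1
  · intro D h1 h2
    have h3 : ∀ D, D < 30 → 20 ≤ D → (kp (sD D) = sD (kp D) ∧ km (sD D) = sD (km D)) ∨
      (kp (sD D) = sD (km D) ∧ km (sD D) = sD (kp D)) := by decide +kernel
    exact h3 D h2 h1
  · intro x y
    ring
  · intro k hk x y hxy
    obtain ⟨h1, h2⟩ := c4d_kd k hk
    obtain ⟨h3, h4⟩ := c4d_pr _ h2
    by_cases h20 : k < 20
    · have e1 : dX (sD k) = dY k := by
        unfold dX dY
        rw [c4d_gx' h20, h1, h3]
      have e2 : dY (sD k) = dX k := by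
        unfold dX dY
        rw [c4d_gy' h20, h1, h4]
      rw [e1, e2]
      linear_combination (-1 : ℝ) * hxy
    · rcases c4d_h k hk (by omega) with ⟨h5, h6⟩ | ⟨h5, h6⟩
      · have e1 : dX (sD k) = dY k := by
          unfold dX dY gx gy
          rw [h1, h3, h5, h6]
          norm_num
        have e2 : dY (sD k) = dX k := by
          unfold dX dY gx gy
          rw [h1, h4, h5, h6]
          norm_num
        rw [e1, e2]
        linear_combination (-1 : ℝ) * hxy
      · have e1 : dX (sD k) = - dY k := by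
          unfold dX dY gx gy
          rw [h1, h3, h5, h6]
          norm_num
        have e2 : dY (sD k) = - dX k := by
          unfold dX dY gx gy
          rw [h1, h4, h5, h6]
          norm_num
        rw [e1, e2]
        linear_combination hxy
  · intro k hk x y
    right
    rw [c4d_gx' hk, c4d_gy' hk]
    constructor <;> ring

end H58T
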