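import Pool.Agent.Lib.H58T.C4B

namespace H58T

theorem c4x_kd : ∀ k, k < 30 → kd (sX k) = kd k := by decide +kernel

theorem c4x_gx : ∀ k, k < 30 → ((cor (sX k) = 0 ∨ cor (sX k) = 3) ↔ ¬ (cor k = 0 ∨ cor k = 3)) := by
  decide +kernel

theorem c4x_gy : ∀ k, k < 30 → (2 ≤ cor (sX k) ↔ 2 ≤ cor k) := by decide +kernel

theorem c4x_gx' {k : ℕ} (hk : k < 30) : gx (cor (sX k)) = - gx (cor k) := by
  unfold gx
  by_cases h : cor k = 0 ∨ cor k = 3
  · rw [if_pos h, if_neg (fun h1 => (c4x_gx k hk).1 h1 h)]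
    norm_num
  · rw [if_neg h, if_pos ((c4x_gx k hk).2 h)]

theorem c4x_gy' {k : ℕ} (hk : k < 30) : gy (cor (sX k)) = gy (cor k) := by
  unfold gy
  by_cases h : 2 ≤ cor k
  · rw [if_pos h, if_pos ((c4x_gy k hk).2 h)]
  · rw [if_neg h, if_neg (fun h1 => h ((c4x_gy k hk).1 h1))]

/-- **C4X (M).** PROOF. `inv`: for `k < 30` by `decide` / `interval_cases`, for `k ≥ 30` the default value of `getD` (`List.getD_eq_default`). `s20`, `s30`, `com`: finite (`interval_cases`, `decide`). `orth`: `ring`. `par`, `pos`: for each `k` (`interval_cases k`), with the discrete functions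
`kd`, `cor`, `sX` evaluated by `decide` or `rfl` (e.g. a lemma: for all `k < 30`: `kd (sX k) = kd k`, and for `k < 30`: `gx (cor (sX k)) = - gx (cor k)`, and `gy (cor (sX k)) = gy (cor k)` for all `k < 30`; then `dX (sX k) = - dX k`, `dY (sX k) = dY k`, and `ring` / `linarith`). -/
theorem sy_X : Sy sX (-1) 0 0 1 := by
  have hge : ∀ k, 30 ≤ k → sX k = k := fun k hk => List.getD_eq_default _ _ hk
  have hfin : ∀ k, k < 30 → sX (sX k) = k := by decide +kernel
  refine ⟨?_, ?_, ?_, ?_, ?_, ?_, ?_⟩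
  · intro k
    by_cases hk : k < 30
    · exact hfin k hk
    · rw [hge k (by omega), hge k (by omega)]
  · decide +kernel
  · intro k h1 h2
    have h3 : ∀ k, k < 30 → 20 ≤ k → 20 ≤ sX k ∧ sX k < 30 := by decide +kernel
    exact h3 k h2 h1
  · intro D h1 h2
    have h3 : ∀ D, D < 30 → 20 ≤ D → (kp (sX D) = sX (kp D) ∧ km (sX D) = sX (km D)) ∨
      (kp (sX D) = sX (km D) ∧ km (sX D) = sX (kp D)) := by decide +kernel
    exact h3 D h2 h1
  · intro x y
    ring
  · intro k hk x y hxy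
    have e1 : dX (sX k) = - dX k := by
      unfold dX
      rw [c4x_gx' hk, c4x_kd k hk]
      ring
    have e2 : dY (sX k) = dY k := by
      unfold dY
      rw [c4x_gy' hk, c4x_kd k hk]
    rw [e1, e2]
    linear_combination (-1 : ℝ) * hxy
  · intro k hk x y
    left
    rw [c4x_gx' (by omega), c4x_gy' (by omega)]
    constructor <;> ring

end H58T
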