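import Pool.Agent.Lib.H58T.C4B

namespace H58T

theorem c4y_kd : ∀ k, k < 30 → kd (sY k) = kd k := by decide +kernel

theorem c4y_gx : ∀ k, k < 20 → ((cor (sY k) = 0 ∨ cor (sY k) = 3) ↔ (cor k = 0 ∨ cor k = 3)) := by
  decide +kernel

theorem c4y_gy : ∀ k, k < 20 → (2 ≤ cor (sY k) ↔ ¬ 2 ≤ cor k) := by decide +kernel

theorem c4y_hx : ∀ k, k < 30 → 20 ≤ k → ((cor (sY k) = 0 ∨ cor (sY k) = 3) ↔ ¬ (cor k = 0 ∨ cor k = 3)) := by
  decide +kernel

theorem c4y_hy : ∀ k, k < 30 → 20 ≤ k → (2 ≤ cor (sY k) ↔ 2 ≤ cor k) := by decide +kernel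

theorem c4y_gx' {k : ℕ} (hk : k < 20) : gx (cor (sY k)) = gx (cor k) := by
  unfold gx
  by_cases h : cor k = 0 ∨ cor k = 3
  · rw [if_pos h, if_pos ((c4y_gx k hk).2 h)]
  · rw [if_neg h, if_neg (fun h1 => h ((c4y_gx k hk).1 h1))]

theorem c4y_gy' {k : ℕ} (hk : k < 20) : gy (cor (sY k)) = - gy (cor k) := by
  unfold gy
  by_cases h : 2 ≤ cor k
  · rw [if_pos h, if_neg (fun h1 => (c4y_gy k hk).1 h1 h)]
    norm_num
  · rw [if_neg h, if_pos ((c4y_gy k hk).2 h)]

theorem c4y_hx' {k : ℕ} (hk : k < 30) (hk' : 20 ≤ k) : gx (cor (sY k)) = - gx (cor k) := by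
  unfold gx
  by_cases h : cor k = 0 ∨ cor k = 3
  · rw [if_pos h, if_neg (fun h1 => (c4y_hx k hk hk').1 h1 h)]
    norm_num
  · rw [if_neg h, if_pos ((c4y_hx k hk hk').2 h)]

theorem c4y_hy' {k : ℕ} (hk : k < 30) (hk' : 20 ≤ k) : gy (cor (sY k)) = gy (cor k) := by
  unfold gy
  by_cases h : 2 ≤ cor k
  · rw [if_pos h, if_pos ((c4y_hy k hk hk').2 h)]
  · rw [if_neg h, if_neg (fun h1 => h ((c4y_hy k hk hk').1 h1))]

/-- **C4Y (M).** PROOF. As `C4X`. For `k < 20`: `gx (cor (sY k)) = gx (cor k)`, `gy (cor (sY k)) = - gy (cor k)`, `kd (sY k) = kd k`, so `dX (sY k) = dX k`, `dY (sY k) = - dY k`. For `20 ≤ k < 30`: `dX (sY k) = - dX k`, `dY (sY k) = dY k`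
(the corner changes from TL to TR), which also gives `par`. -/
theorem sy_Y : Sy sY 1 0 0 (-1) := by
  have hge : ∀ k, 30 ≤ k → sY k = k := fun k hk => List.getD_eq_default _ _ hk
  have hfin : ∀ k, k < 30 → sY (sY k) = k := by decide +kernel
  refine ⟨?_, ?_, ?_, ?_, ?_, ?_, ?_⟩
  · intro k
    by_cases hk : k < 30
    · exact hfin k hk
    · rw [hge k (by omega), hge k (by omega)]
  · decide +kernel
  · intro k h1 h2
    have h3 : ∀ k, k < 30 → 20 ≤ k → 20 ≤ sY k ∧ sY k < 30 := by decide +kernel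
    exact h3 k h2 h1
  · intro D h1 h2
    have h3 : ∀ D, D < 30 → 20 ≤ D → (kp (sY D) = sY (kp D) ∧ km (sY D) = sY (km D)) ∨
      (kp (sY D) = sY (km D) ∧ km (sY D) = sY (kp D)) := by decide +kernel
    exact h3 D h2 h1
  · intro x y
    ring
  · intro k hk x y hxy
    by_cases h20 : k < 20
    · have e1 : dX (sY k) = dX k := by
        unfold dX
        rw [c4y_gx' h20, c4y_kd k hk]
      have e2 : dY (sY k) = - dY k := by
        unfold dY
        rw [c4y_gy' h20, c4y_kd k hk]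
        ring
      rw [e1, e2]
      linear_combination (-1 : ℝ) * hxy
    · have e1 : dX (sY k) = - dX k := by
        unfold dX
        rw [c4y_hx' hk (by omega), c4y_kd k hk]
        ring
      have e2 : dY (sY k) = dY k := by
        unfold dY
        rw [c4y_hy' hk (by omega), c4y_kd k hk]
      rw [e1, e2]
      linear_combination hxy
  · intro k hk x y
    left
    rw [c4y_gx' hk, c4y_gy' hk]
    constructor <;> ring

end H58T
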