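import Pool.Agent.Lib.H58T.C0

namespace H58T

open Finset

/-- **C4S (S).** Exchange of the components.
PROOF. `pres' e = w.pres (1 - e)`, `F' e = w.F (1 - e)` (e.g. `![w.pres 1, w.pres 0]`, or `fun e => w.pres (Equiv.swap 0 1 e)`), all conditions by `Fin.forall_fin_two`; `ineq`: apply `w.ineq` to the exchanged vectors. -/
theorem world_swap {Λ : ℝ} (w : World Λ) :
    ∃ w' : World Λ, ∀ k, (w'.pres 0 k ↔ w.pres 1 k) ∧ (w'.pres 1 k ↔ w.pres 0 k) := by
  refine ⟨{ pres := fun e => w.pres (1 - e)
            F := fun e => w.F (1 - e)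
            lt := fun c k h => w.lt (1 - c) k h
            fin := fun c A h => w.fin (1 - c) A h
            lam := fun c A hA B hB => w.lam (1 - c) A hA B hB
            supp := fun k hk => ?_
            com := fun D h1 h2 h => ?_
            ineq := fun x y h => ?_ }, fun k => ⟨Iff.rfl, Iff.rfl⟩⟩
  · exact (w.supp k hk).symm
  · have h' : (w.pres 0 (kp D) ∧ w.pres 1 (km D)) ∨ (w.pres 1 (kp D) ∧ w.pres 0 (km D)) := by
      rcases h with h | h
      · exact Or.inr h
      · exact Or.inl h
    exact (w.com D h1 h2 h').symm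
  · have key : Adm w.pres w.F (fun e => x (1 - e)) (fun e => y (1 - e)) := by
      have e2 : ∀ c : Fin 2, (1 : Fin 2) - (1 - c) = c := by decide
      refine ⟨fun c k hk => ?_, fun c k => h.par (1 - c) k, fun c k hk => h.pos (1 - c) k hk,
        fun k hk => ?_, fun c => h.sum (1 - c), fun c k => h.one (1 - c) k, fun c A hA => ?_⟩
      · have := h.sup (1 - c) k hk
        rwa [e2] at this
      · have := h.opp k hk
        refine ⟨?_, ?_⟩
        · have h1 := this.1
          change x 1 k + x 0 k = 0
          linarith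
        · have h1 := this.2
          change y 1 k + y 0 k = 0
          linarith
      · refine h.cut (1 - c) A ?_
        show A ∈ w.F (1 - (1 - c))
        rw [e2]
        exact hA
    have := w.ineq _ _ key
    change val (x 1) (y 1) + val (x 0) (y 0) ≤ 2 * Λ at this
    linarith

/-- root situation -/
def rt (P0 P1 : ℕ) : Cfg := ⟨0, 0, P0, P1, [], []⟩

/-- **C5A (S).** PROOF. `Compat _ 0 []`: `msk A 0 = 0` (`Nat.eq_of_testBit_eq`, or `testBit_msk`), `triv 0 0 = true`. -/
theorem holds_rt {Λ : ℝ} (w : World Λ) {P0 P1 : ℕ} (h0 : ∀ k, P0.testBit k = true → w.pres 0 k)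
    (h1 : ∀ k, P1.testBit k = true → w.pres 1 k) : Holds w (rt P0 P1) := by
  have hc : ∀ e, Compat (w.F e) 0 [] := by
    intro e A hA
    left
    have : msk A 0 = 0 := by
      apply Nat.eq_of_testBit_eq
      intro i
      rw [testBit_msk (w.fin e A hA)]
      simp
    rw [this]
    rw [triv_iff]
    left
    left
    rfl
  refine ⟨hc 0, hc 1, fun k hk => ?_, fun k hk => ?_, h0, h1⟩
  · simp [rt] at hk
  · simp [rt] at hk

/-- **C5C (S).** The connected case. PROOF. `holds_rt`; a bit of `1048575 = 2 ^ 20 - 1` is `< 20` (`Nat.testBit_two_pow_sub_one`). -/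
theorem roots1 {R T : ℝ} (h : Good R T (rt 1048575 0)) {Λ : ℝ} (w : World Λ)
    (hw : ∀ k < 20, w.pres 0 k) : T ≤ 2 * √R * Λ := by
  refine h Λ w (holds_rt w (fun k hk => hw k ?_) (fun k hk => ?_))
  · have : (1048575 : ℕ) = 2 ^ 20 - 1 := by norm_num
    rw [this, Nat.testBit_two_pow_sub_one] at hk
    simpa using hk
  · simp at hk

end H58T
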