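import Pool.Agent.Lib.H58T.C4X
import Pool.Agent.Lib.H58T.C4Y
import Pool.Agent.Lib.H58T.C4D
import Pool.Agent.Lib.H58T.C5A

namespace H58T

open Finset

/-- the bound for the worlds with the leaf `0` in component `a`, etc. -/
private def St (Λ R T : ℝ) (a b c d : Fin 2) : Prop :=
  ∀ w : World Λ, w.pres a 0 → w.pres b 1 → w.pres c 2 → w.pres d 3 → T ≤ 2 * √R * Λ

private theorem st_X {Λ R T : ℝ} {a b c d : Fin 2} (h : St Λ R T a b c d) : St Λ R T b a d c := by
  intro w h0 h1 h2 h3
  obtain ⟨w', hw⟩ := world_sy sy_X w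
  exact h w' ((hw a 0).mpr h1) ((hw b 1).mpr h0) ((hw c 2).mpr h3) ((hw d 3).mpr h2)

private theorem st_Y {Λ R T : ℝ} {a b c d : Fin 2} (h : St Λ R T a b c d) : St Λ R T d c b a := by
  intro w h0 h1 h2 h3
  obtain ⟨w', hw⟩ := world_sy sy_Y w
  exact h w' ((hw a 0).mpr h3) ((hw b 1).mpr h2) ((hw c 2).mpr h1) ((hw d 3).mpr h0)

private theorem st_D {Λ R T : ℝ} {a b c d : Fin 2} (h : St Λ R T a b c d) : St Λ R T c b a d := by
  intro w h0 h1 h2 h3
  obtain ⟨w', hw⟩ := world_sy sy_D w
  exact h w' ((hw a 0).mpr h2) ((hw b 1).mpr h1) ((hw c 2).mpr h0) ((hw d 3).mpr h3)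

private theorem st_S {Λ R T : ℝ} {a b c d : Fin 2} (h : St Λ R T a b c d) :
    St Λ R T (1 - a) (1 - b) (1 - c) (1 - d) := by
  intro w h0 h1 h2 h3
  obtain ⟨w', hw⟩ := world_swap w
  have key : ∀ (e : Fin 2) (k : ℕ), w.pres (1 - e) k → w'.pres e k := by
    intro e k hk
    fin_cases e
    · exact (hw k).1.mpr hk
    · exact (hw k).2.mpr hk
  exact h w' (key a 0 h0) (key b 1 h1) (key c 2 h2) (key d 3 h3)

/-- **C5 (M).** The sixteen distributions of the four 45 degree lines.
PROOF. For `k < 4`: `w.supp k`. Write `p k` for `w.pres 0 k`, `q k` for `w.pres 1 k`. Claim A: if `w` has the pattern of one of the four roots then the bound holds (`holds_rt`; bits of `13, 2, 3, 12, 15, 5, 10` by `interval_cases` / `Nat.testBit` decision: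
`13 = {0, 2, 3}`, `2 = {1}`, `3 = {0, 1}`, `12 = {2, 3}`, `5 = {0, 2}`, `10 = {1, 3}`). Claim B: all `0`: root `15`. Three in component `0`, one in `1`: `1`: root; `0`: apply `sy_X` (`sX 1 = 0`, ...); `2`: `sy_Y`; `3`: `sy_X`, then `sy_Y`. Two and two: `{0, 2}` in component `0`: root `5, 10`;
`{0, 1}`: root `3, 12`; `{1, 2}` in component `0`: `sy_D` (`sD 0 = 2`, `sD 1 = 1`, `sD 2 = 0`, `sD 3 = 3`) gives `{0, 1}`. The complementary patterns (`0` and `1` exchanged: `{2, 3}`, `{0, 3}`, `{1, 3}`, one in component `0`, none): `world_swap`. Structure: prove a lemma for worlds with given presence of `0, 1, 2, 3` for each of the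
patterns and conclude by `world_sy`, `world_swap` (they preserve `Λ`). -/
theorem roots2 {R T : ℝ} (h1 : Good R T (rt 13 2)) (h2 : Good R T (rt 3 12)) (h3 : Good R T (rt 15 0))
    (h4 : Good R T (rt 5 10)) {Λ : ℝ} (w : World Λ) : T ≤ 2 * √R * Λ := by
  have bits : ∀ (n : ℕ), n < 16 → ∀ k, n.testBit k = true → k < 4 := by
    intro n hn k hk
    by_contra hc
    have h16 : n < 2 ^ k := lt_of_lt_of_le hn (by
      calc (16 : ℕ) = 2 ^ 4 := by norm_num
        _ ≤ 2 ^ k := Nat.pow_le_pow_right (by norm_num) (by omega))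
    rw [Nat.testBit_lt_two_pow h16] at hk
    exact Bool.false_ne_true hk
  have a1 : St Λ R T 0 1 0 0 := by
    intro w p0 p1 p2 p3
    refine h1 Λ w (holds_rt w (fun k hk => ?_) (fun k hk => ?_))
    · have hk4 := bits 13 (by norm_num) k hk
      interval_cases k
      · exact p0
      · exact absurd hk (by decide)
      · exact p2
      · exact p3
    · have hk4 := bits 2 (by norm_num) k hk
      interval_cases k
      · exact absurd hk (by decide)
      · exact p1
      · exact absurd hk (by decide)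
      · exact absurd hk (by decide)
  have a2 : St Λ R T 0 0 1 1 := by
    intro w p0 p1 p2 p3
    refine h2 Λ w (holds_rt w (fun k hk => ?_) (fun k hk => ?_))
    · have hk4 := bits 3 (by norm_num) k hk
      interval_cases k
      · exact p0
      · exact p1
      · exact absurd hk (by decide)
      · exact absurd hk (by decide)
    · have hk4 := bits 12 (by norm_num) k hk
      interval_cases k
      · exact absurd hk (by decide)
      · exact absurd hk (by decide)
      · exact p2
      · exact p3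
  have a3 : St Λ R T 0 0 0 0 := by
    intro w p0 p1 p2 p3
    refine h3 Λ w (holds_rt w (fun k hk => ?_) (fun k hk => ?_))
    · have hk4 := bits 15 (by norm_num) k hk
      interval_cases k
      · exact p0
      · exact p1
      · exact p2
      · exact p3
    · simp at hk
  have a4 : St Λ R T 0 1 0 1 := by
    intro w p0 p1 p2 p3
    refine h4 Λ w (holds_rt w (fun k hk => ?_) (fun k hk => ?_))
    · have hk4 := bits 5 (by norm_num) k hk
      interval_cases k
      · exact p0
      · exact absurd hk (by decide)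
      · exact p2
      · exact absurd hk (by decide)
    · have hk4 := bits 10 (by norm_num) k hk
      interval_cases k
      · exact absurd hk (by decide)
      · exact p1
      · exact absurd hk (by decide)
      · exact p3
  have b1000 : St Λ R T 1 0 0 0 := st_X a1
  have b0010 : St Λ R T 0 0 1 0 := st_Y a1
  have b0001 : St Λ R T 0 0 0 1 := st_X b0010
  have b1111 : St Λ R T 1 1 1 1 := st_S a3
  have b1011 : St Λ R T 1 0 1 1 := st_S a1
  have b0111 : St Λ R T 0 1 1 1 := st_S b1000
  have b1101 : St Λ R T 1 1 0 1 := st_S b0010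
  have b1110 : St Λ R T 1 1 1 0 := st_S b0001
  have b1100 : St Λ R T 1 1 0 0 := st_S a2
  have b1010 : St Λ R T 1 0 1 0 := st_S a4
  have b1001 : St Λ R T 1 0 0 1 := st_D a2
  have b0110 : St Λ R T 0 1 1 0 := st_S b1001
  rcases w.supp 0 (by norm_num) with q0 | q0 <;> rcases w.supp 1 (by norm_num) with q1 | q1 <;>
    rcases w.supp 2 (by norm_num) with q2 | q2 <;> rcases w.supp 3 (by norm_num) with q3 | q3
  · exact a3 w q0 q1 q2 q3
  · exact b0001 w q0 q1 q2 q3
  · exact b0010 w q0 q1 q2 q3
  · exact a2 w q0 q1 q2 q3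
  · exact a1 w q0 q1 q2 q3
  · exact a4 w q0 q1 q2 q3
  · exact b0110 w q0 q1 q2 q3
  · exact b0111 w q0 q1 q2 q3
  · exact b1000 w q0 q1 q2 q3
  · exact b1001 w q0 q1 q2 q3
  · exact b1010 w q0 q1 q2 q3
  · exact b1011 w q0 q1 q2 q3
  · exact b1100 w q0 q1 q2 q3
  · exact b1101 w q0 q1 q2 q3
  · exact b1110 w q0 q1 q2 q3
  · exact b1111 w q0 q1 q2 q3

end H58T
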