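import Mathlib

/-! # H58T: the arithmetic of the kernel checks

Only raw operations on `Nat` are used, so that the kernel evaluates the checks with its built in
arithmetic. `frc x k = k x` (forces the evaluation of `x`), `band b c = (b && c)`,
`bor b c = (b || c)`, `cnd b x y = if b then x else y`. -/

namespace H58T

noncomputable section

def frc (x : ℕ) (k : ℕ → Bool) : Bool := Nat.rec (k 0) (fun n _ => k (Nat.succ n)) x
def frn (x : ℕ) (k : ℕ → ℕ) : ℕ := Nat.rec (k 0) (fun n _ => k (Nat.succ n)) x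
def band (b c : Bool) : Bool := Bool.rec false c b
def bor (b c : Bool) : Bool := Bool.rec c true b
def bnot (b : Bool) : Bool := Bool.rec true false b
def cnd (b : Bool) (x y : ℕ) : ℕ := Bool.rec y x b

/-- the bit `k` of `m` -/
def tb (m k : ℕ) : Bool := Nat.beq (Nat.land (Nat.shiftRight m k) 1) 1

/-- `2 ^ k` -/
def p2 (k : ℕ) : ℕ := Nat.pow 2 k

/-- the field number `i` (32 bits) of a packed number -/
def fld (E i : ℕ) : ℕ := Nat.land (Nat.shiftRight E (Nat.mul 32 i)) 4294967295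

/-- `n` consecutive fields from number `i` on, as a list -/
def unl (E : ℕ) (n i : ℕ) (k : List ℕ → Bool) : Bool :=
  Nat.rec (motive := fun _ => ℕ → (List ℕ → Bool) → Bool) (fun _ k => k [])
    (fun _ r i k => frc (fld E i) fun a => r (Nat.succ i) fun l => k (a :: l)) n i k

/-- a binary tree of numbers -/
inductive BT where
  | leaf (n : ℕ)
  | node (l r : BT)

/-- `k` applied to the entry number `i` of the tree (lowest bit first) -/
def bget (t : BT) (i : ℕ) (k : ℕ → Bool) : Bool :=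
  BT.rec (motive := fun _ => ℕ → Bool) (fun n _ => k n)
    (fun _ _ gl gr i => Bool.rec (frc (Nat.shiftRight i 1) gr) (frc (Nat.shiftRight i 1) gl)
      (Nat.beq (Nat.land i 1) 0)) t i

/-! ### Cuts -/

def mem (v : ℕ) (L : List ℕ) : Bool := List.rec false (fun a _ r => bor (Nat.beq v a) r) L

def allL (p : ℕ → Bool) (L : List ℕ) : Bool := List.rec true (fun a _ r => band (p a) r) L

/-- `v` or its complement in `S` (`u = v xor S`) is empty or a single leaf -/
def triv (v u : ℕ) : Bool :=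
  bor (Nat.beq (Nat.land v (Nat.sub v 1)) 0) (Nat.beq (Nat.land u (Nat.sub u 1)) 0)

/-- the cut `w`, restricted to `S`, is trivial or in the list `L`, up to complement -/
def okc (S : ℕ) (L : List ℕ) (w : ℕ) : Bool :=
  frc (Nat.land w S) fun v => frc (Nat.xor v S) fun u =>
    bor (triv v u) (bor (mem v L) (mem u L))

/-- `x` is contained in `y` -/
def sub (x y : ℕ) : Bool := Nat.beq (Nat.land x y) x

/-- The entry `E` applies to the situation `S0, S1, C0, C1` with the present leaves `P0, P1`. -/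
def mt (S0 S1 P0 P1 : ℕ) (C0 C1 : List ℕ) (E : ℕ) : Bool :=
  frc (fld E 5) fun s0 => frc (fld E 6) fun s1 =>
  band (sub s0 S0) (band (sub s1 S1) (band (sub (fld E 7) P0) (band (sub (fld E 8) P1)
    (frc (fld E 9) fun n0 => frc (fld E 10) fun n1 =>
      unl E n0 11 fun L0 => unl E n1 (Nat.add 11 n0) fun L1 =>
        band (allL (okc s0 L0) C0) (allL (okc s1 L1) C1)))))

/-- the cut `w` after the insertion of the leaf with the bit `b` at the cut `m` -/
def ins1 (m b w : ℕ) : ℕ :=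
  cnd (Nat.beq w m) w (cnd (Nat.beq (Nat.land w m) m) (Nat.lor w b) w)

/-- the cuts after the insertion of the leaf with the bit `b` at the cut `m` -/
def insL (m b : ℕ) (C : List ℕ) : List ℕ :=
  List.rec [m, Nat.lor m b] (fun w _ r => ins1 m b w :: r) C

/-- the single leaves of `S` other than `s`, then `z` -/
def sgl (S s z : ℕ) : List ℕ :=
  Nat.rec [z] (fun j r => Bool.rec r (p2 j :: r) (band (tb S j) (bnot (Nat.beq j s)))) 30

def app (C L : List ℕ) : List ℕ := List.rec L (fun a _ r => a :: r) C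

/-- the insertion positions: the cuts of `C`, the single leaves of `S` except the root `s`, and the
cut of the root -/
def posl (C : List ℕ) (S s : ℕ) : List ℕ :=
  app C (sgl S s (cnd (Nat.beq S 0) 0 (Nat.xor S (p2 s))))

/-- all positions `m`, numbered from `i` on, satisfy `k i m` -/
def lp (pos : List ℕ) (i : ℕ) (k : ℕ → ℕ → Bool) : Bool :=
  List.rec (motive := fun _ => ℕ → Bool) (fun _ => true)
    (fun m _ r i => frc i fun i => frc m fun m => band (k i m) (r (Nat.succ i))) pos i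

def len (L : List ℕ) : ℕ := List.rec 0 (fun _ _ r => Nat.succ r) L

/-- double loop: `n` is the length of `pos1` -/
def lp2 (pos0 pos1 : List ℕ) (n i : ℕ) (k : ℕ → ℕ → ℕ → Bool) : Bool :=
  List.rec (motive := fun _ => ℕ → Bool) (fun _ => true)
    (fun m _ r i => frc i fun i => frc m fun m =>
      band (lp pos1 i (fun j m1 => k j m m1)) (r (Nat.add i n))) pos0 i

/-- the root `s` is a leaf of `S` and not in any cut of `C` (or `S` is empty) -/
def rootok (S s : ℕ) (C : List ℕ) : Bool :=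
  bor (Nat.beq S 0) (band (tb S s) (allL (fun w => bnot (tb w s)) C))

/-- the two support lines with the direction of the common line `D` -/
def kp (D : ℕ) : ℕ := Nat.add (Nat.mul 4 (Nat.div (Nat.sub D 20) 2)) (Nat.mod (Nat.sub D 20) 2)
def km (D : ℕ) : ℕ := Nat.add (kp D) 2

/-- insertion of the leaf `x` in component `0` -/
def chk10 (T : BT) (n E : ℕ) : Bool :=
  frc (fld E 1) fun x => frc (fld E 3) fun s => frc (fld E 5) fun S0 => frc (fld E 6) fun S1 =>
  frc (fld E 7) fun p0 => frc (fld E 8) fun p1 => frc (fld E 9) fun n0 => frc (fld E 10) fun n1 =>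
  unl E n0 11 fun C0 => unl E n1 (Nat.add 11 n0) fun C1 =>
  band (tb p0 x) (band (bnot (tb S0 x)) (band (rootok S0 s C0)
    (frc (p2 x) fun b => frc (Nat.lor S0 b) fun S0' => frc (Nat.lor p0 S0') fun P0 =>
     frc (Nat.lor p1 S1) fun P1 =>
      lp (posl C0 S0 s) (Nat.add 11 (Nat.add n0 n1)) fun i m => frc (fld E i) fun j =>
        band (Nat.ble (Nat.succ j) n) (bget T j (mt S0' S1 P0 P1 (insL m b C0) C1)))))

/-- insertion of the leaf `x` in component `1` -/
def chk11 (T : BT) (n E : ℕ) : Bool :=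
  frc (fld E 1) fun x => frc (fld E 4) fun s => frc (fld E 5) fun S0 => frc (fld E 6) fun S1 =>
  frc (fld E 7) fun p0 => frc (fld E 8) fun p1 => frc (fld E 9) fun n0 => frc (fld E 10) fun n1 =>
  unl E n0 11 fun C0 => unl E n1 (Nat.add 11 n0) fun C1 =>
  band (tb p1 x) (band (bnot (tb S1 x)) (band (rootok S1 s C1)
    (frc (p2 x) fun b => frc (Nat.lor S1 b) fun S1' => frc (Nat.lor p1 S1') fun P1 =>
     frc (Nat.lor p0 S0) fun P0 =>
      lp (posl C1 S1 s) (Nat.add 11 (Nat.add n0 n1)) fun i m => frc (fld E i) fun j =>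
        band (Nat.ble (Nat.succ j) n) (bget T j (mt S0 S1' P0 P1 C0 (insL m b C1))))))

/-- the support line `x < 20` is met by component `0` or `1` -/
def chk2 (T : BT) (n E : ℕ) : Bool :=
  frc (fld E 1) fun x => frc (fld E 5) fun S0 => frc (fld E 6) fun S1 =>
  frc (fld E 7) fun p0 => frc (fld E 8) fun p1 => frc (fld E 9) fun n0 => frc (fld E 10) fun n1 =>
  unl E n0 11 fun C0 => unl E n1 (Nat.add 11 n0) fun C1 =>
  band (Nat.ble (Nat.succ x) 20)
    (frc (p2 x) fun b => frc (Nat.lor p0 S0) fun P0 => frc (Nat.lor p1 S1) fun P1 =>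
     frc (fld E (Nat.add 11 (Nat.add n0 n1))) fun j0 =>
     frc (fld E (Nat.add 12 (Nat.add n0 n1))) fun j1 =>
      band (band (Nat.ble (Nat.succ j0) n) (bget T j0 (mt S0 S1 (Nat.lor P0 b) P1 C0 C1)))
        (band (Nat.ble (Nat.succ j1) n) (bget T j1 (mt S0 S1 P0 (Nat.lor P1 b) C0 C1))))

/-- insertion of the common line `x` in both components -/
def chk3 (T : BT) (n E : ℕ) : Bool :=
  frc (fld E 1) fun x => frc (fld E 3) fun r0 => frc (fld E 4) fun r1 =>
  frc (fld E 5) fun S0 => frc (fld E 6) fun S1 =>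
  frc (fld E 7) fun p0 => frc (fld E 8) fun p1 => frc (fld E 9) fun n0 => frc (fld E 10) fun n1 =>
  unl E n0 11 fun C0 => unl E n1 (Nat.add 11 n0) fun C1 =>
  frc (p2 x) fun b => frc (Nat.lor S0 b) fun S0' => frc (Nat.lor S1 b) fun S1' =>
  frc (Nat.lor p0 S0) fun P0 => frc (Nat.lor p1 S1) fun P1 =>
  band (band (Nat.ble 20 x) (Nat.ble (Nat.succ x) 30))
    (band (bor (band (tb P0 (kp x)) (tb P1 (km x))) (band (tb P1 (kp x)) (tb P0 (km x))))
    (band (band (bnot (tb S0 x)) (bnot (tb S1 x))) (band (band (rootok S0 r0 C0) (rootok S1 r1 C1))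
    (frc (len (posl C1 S1 r1)) fun l =>
      lp2 (posl C0 S0 r0) (posl C1 S1 r1) l (Nat.add 11 (Nat.add n0 n1)) fun i m0 m1 =>
        frc (fld E i) fun j => band (Nat.ble (Nat.succ j) n)
          (bget T j (mt S0' S1' P0 P1 (insL m0 b C0) (insL m1 b C1)))))))

/-! ### Linear programming certificates

A leaf `k` carries a vector `(x0 + x1 r, y0 + y1 r)`, `r = √3`, which is a multiple of the direction
of the leaf. Its shorter coordinate is given by two fields `g0 + B`, `g1 + B`, `B = 2 ^ 31`. All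
coordinates are stored with the offset `5 B = 10737418240`, in one number with the fields
`x0, x1, y0, y1, 1` of `64` bits. -/

/-- the kind of the direction of the leaf `k` : `0, 1, 2, 3, 4` for `45, 15, 75, 30, 60` degrees -/
def kd (k : ℕ) : ℕ := cnd (Nat.ble 20 k) (Nat.div (Nat.sub k 20) 2) (Nat.div k 4)
/-- the corner: `0` TL, `1` TR, `2` BR, `3` BL -/
def cor (k : ℕ) : ℕ := cnd (Nat.ble 20 k) (Nat.mod (Nat.sub k 20) 2) (Nat.mod k 4)

def pack (x0 x1 y0 y1 : ℕ) : ℕ :=
  Nat.add x0 (Nat.add (Nat.shiftLeft x1 64) (Nat.add (Nat.shiftLeft y0 128)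
    (Nat.add (Nat.shiftLeft y1 192) (Nat.shiftLeft 1 256))))

/-- the longer coordinate -/
def big0 (t g0 g1 : ℕ) : ℕ :=
  cnd (Nat.beq t 0) (Nat.add g0 8589934592)
    (cnd (Nat.ble t 2) (Nat.add (Nat.mul 2 g0) (Nat.mul 3 g1)) (Nat.add (Nat.mul 3 g1) 4294967296))
def big1 (t g0 g1 : ℕ) : ℕ :=
  cnd (Nat.beq t 0) (Nat.add g1 8589934592)
    (cnd (Nat.ble t 2) (Nat.add (Nat.add g0 (Nat.mul 2 g1)) 4294967296) (Nat.add g0 8589934592))

/-- `k` applied to the packed vector of the leaf `j` -/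
def lvec (j g0 g1 : ℕ) (k : ℕ → Bool) : Bool :=
  frc (kd j) fun t => frc (cor j) fun c =>
  frc (Nat.add g0 8589934592) fun s0 => frc (Nat.add g1 8589934592) fun s1 =>
  frc (big0 t g0 g1) fun b0 => frc (big1 t g0 g1) fun b1 =>
  Bool.rec
    -- `t = 0, 1, 3`: `x` is the short coordinate
    (frc (cnd (bor (Nat.beq c 0) (Nat.beq c 3)) (Nat.sub 21474836480 s0) s0) fun x0 =>
     frc (cnd (bor (Nat.beq c 0) (Nat.beq c 3)) (Nat.sub 21474836480 s1) s1) fun x1 =>
     frc (cnd (Nat.ble 2 c) (Nat.sub 21474836480 b0) b0) fun y0 =>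
     frc (cnd (Nat.ble 2 c) (Nat.sub 21474836480 b1) b1) fun y1 => frc (pack x0 x1 y0 y1) k)
    (frc (cnd (bor (Nat.beq c 0) (Nat.beq c 3)) (Nat.sub 21474836480 b0) b0) fun x0 =>
     frc (cnd (bor (Nat.beq c 0) (Nat.beq c 3)) (Nat.sub 21474836480 b1) b1) fun x1 =>
     frc (cnd (Nat.ble 2 c) (Nat.sub 21474836480 s0) s0) fun y0 =>
     frc (cnd (Nat.ble 2 c) (Nat.sub 21474836480 s1) s1) fun y1 => frc (pack x0 x1 y0 y1) k)
    (bor (Nat.beq t 2) (Nat.beq t 4))

/-- `0 ≤ (pa - na) + (pb - nb) √3` -/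
def nneg (pa na pb nb : ℕ) : Bool :=
  Bool.rec
    (band (Nat.ble nb pb) (frc (Nat.sub na pa) fun a => frc (Nat.sub pb nb) fun b =>
      Nat.ble (Nat.mul a a) (Nat.mul 3 (Nat.mul b b))))
    (bor (Nat.ble nb pb) (frc (Nat.sub pa na) fun a => frc (Nat.sub nb pb) fun b =>
      Nat.ble (Nat.mul 3 (Nat.mul b b)) (Nat.mul a a)))
    (Nat.ble na pa)

/-- the vectors of the leaves of `S` (from the fields `i, i + 1, ...` of `E`, in the order
`29, 28, ..., 0`); for the support lines the sign is checked, and the numbers `v0, v1` collect the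
values (offset `10 B` each) and `n` counts the support lines -/
def lvs (E S : ℕ) (i v0 v1 n : ℕ) (k : List (ℕ × ℕ) → ℕ → ℕ → ℕ → ℕ → Bool) : Bool :=
  Nat.rec (motive := fun _ => ℕ → ℕ → ℕ → ℕ → (List (ℕ × ℕ) → ℕ → ℕ → ℕ → ℕ → Bool) → Bool)
    (fun i v0 v1 n k => k [] i v0 v1 n)
    (fun j r i v0 v1 n k => Bool.rec (r i v0 v1 n k)
      (frc (fld E i) fun g0 => frc (fld E (Nat.succ i)) fun g1 => frc (Nat.add i 2) fun i' =>
       lvec j g0 g1 fun V =>
        Bool.rec (r i' v0 v1 n fun L => k ((j, V) :: L))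
          (band (nneg g0 2147483648 g1 2147483648)
            (frc (Nat.add v0 (Nat.add (Nat.add g0 8589934592) (big0 (kd j) g0 g1))) fun v0' =>
             frc (Nat.add v1 (Nat.add (Nat.add g1 8589934592) (big1 (kd j) g0 g1))) fun v1' =>
             frc (Nat.succ n) fun n' => r i' v0' v1' n' fun L => k ((j, V) :: L)))
          (Nat.ble (Nat.succ j) 20))
      (tb S j)) 30 i v0 v1 n k

/-- the sum of the vectors of the leaves in `w` -/
def csum (w : ℕ) (L : List (ℕ × ℕ)) : ℕ :=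
  List.rec 0 (fun p _ r => cnd (tb w p.1) (Nat.add p.2 r) r) L

/-- `(x0 + x1 r) ^ 2 + (y0 + y1 r) ^ 2 ≤ M` for a packed vector, offset `O = 5 B * (fifth field)` -/
def nrm (M V : ℕ) : Bool :=
  frc (Nat.mul 10737418240 (Nat.shiftRight V 256)) fun O =>
  frc (Nat.land V 18446744073709551615) fun x0 =>
  frc (Nat.land (Nat.shiftRight V 64) 18446744073709551615) fun x1 =>
  frc (Nat.land (Nat.shiftRight V 128) 18446744073709551615) fun y0 =>
  frc (Nat.land (Nat.shiftRight V 192) 18446744073709551615) fun y1 =>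
  frc (Nat.add (Nat.sub x0 O) (Nat.sub O x0)) fun a0 =>
  frc (Nat.add (Nat.sub x1 O) (Nat.sub O x1)) fun a1 =>
  frc (Nat.add (Nat.sub y0 O) (Nat.sub O y0)) fun b0 =>
  frc (Nat.add (Nat.sub y1 O) (Nat.sub O y1)) fun b1 =>
  frc (Nat.add (Nat.add (Nat.mul a0 a0) (Nat.mul b0 b0))
    (Nat.mul 3 (Nat.add (Nat.mul a1 a1) (Nat.mul b1 b1)))) fun U =>
  frc (Nat.add (Nat.add (Nat.mul x0 x1) (Nat.mul y0 y1)) (Nat.mul 2 (Nat.mul O O))) fun P =>
  frc (Nat.mul O (Nat.add (Nat.add x0 x1) (Nat.add y0 y1))) fun Q =>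
  nneg M U (Nat.mul 2 Q) (Nat.mul 2 P)

/-- all coordinates of the packed vector are zero -/
def zer (V : ℕ) : Bool :=
  frc (Nat.mul 10737418240 (Nat.shiftRight V 256)) fun O =>
  Nat.beq V (Nat.add O (Nat.add (Nat.shiftLeft O 64) (Nat.add (Nat.shiftLeft O 128)
    (Nat.add (Nat.shiftLeft O 192) (Nat.shiftLeft (Nat.shiftRight V 256) 256)))))

def allP (p : ℕ × ℕ → Bool) (L : List (ℕ × ℕ)) : Bool := List.rec true (fun a _ r => band (p a) r) L

/-- the vectors of the common lines in the two components are opposite -/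
def opp (S : ℕ) (L0 L1 : List (ℕ × ℕ)) : Bool :=
  Nat.rec true (fun j r => Bool.rec r
    (frc (p2 (Nat.add 20 j)) fun b => band (frc (Nat.add (csum b L0) (csum b L1)) zer) r)
    (tb S (Nat.add 20 j))) 10

/-- the linear programming certificate: `R N²` bounds the squares of the norms, the value is at
least `(T0 + T1 √3) N` -/
def chk0 (R T0 T1 E : ℕ) : Bool :=
  frc (fld E 1) fun N => frc (fld E 5) fun S0 => frc (fld E 6) fun S1 =>
  frc (fld E 9) fun n0 => frc (fld E 10) fun n1 =>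
  unl E n0 11 fun C0 => unl E n1 (Nat.add 11 n0) fun C1 =>
  frc (Nat.mul R (Nat.mul N N)) fun M =>
  band (band (Nat.ble 1 N) (Nat.beq (Nat.shiftRight S0 20) (Nat.shiftRight S1 20)))
  (lvs E S0 (Nat.add 11 (Nat.add n0 n1)) 0 0 0 fun L0 i v0 v1 n =>
   lvs E S1 i v0 v1 n fun L1 _ v0 v1 n =>
    band (nneg v0 (Nat.add (Nat.mul 21474836480 n) (Nat.mul T0 N)) v1
      (Nat.add (Nat.mul 21474836480 n) (Nat.mul T1 N)))
    (band (band (zer (csum S0 L0)) (zer (csum S1 L1)))
    (band (opp S0 L0 L1)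
    (band (band (allP (fun p => nrm M p.2) L0) (allP (fun p => nrm M p.2) L1))
    (band (allL (fun w => frc (csum w L0) (nrm M)) C0) (allL (fun w => frc (csum w L1) (nrm M)) C1))))))

/-- the check of the entry number `n` -/
def chkE (R T0 T1 : ℕ) (T : BT) (n E : ℕ) : Bool :=
  frc (fld E 0) fun k =>
    Bool.rec (Bool.rec (Bool.rec (chk3 T n E) (chk2 T n E) (Nat.beq k 2))
      (Bool.rec (chk11 T n E) (chk10 T n E) (Nat.beq (fld E 2) 0)) (Nat.beq k 1))
      (chk0 R T0 T1 E) (Nat.beq k 0)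

/-- the checks of the entries `a, ..., a + n - 1` -/
def chkR (R T0 T1 : ℕ) (T : BT) (a n : ℕ) : Bool :=
  Nat.rec true (fun i r => band (frc (Nat.add a i) fun j => bget T j (chkE R T0 T1 T j)) r) n

end

end H58T
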