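import Pool.Agent.Lib.H58T.Basic

/-! # H58T (MP_da76ea_co): opaque sets of the square with at most two components. Definitions.

The square is `[0,1]²`; coordinates are centred at `(1/2, 1/2)` when scalar products are taken.
*Leaves.* `k = 4 a + c < 20` : the support line of the square at the corner `c`
(`0` TL, `1` TR, `2` BR, `3` BL) with the normal `(dX k, dY k)` of the kind `a`
(`0, 1, 2, 3, 4` for `45, 15, 75, 30, 60` degrees). `k = 20 + 2 a + c < 30`, `c < 2` : a line with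
the normal `(dX k, dY k)` which (almost) meets both components. -/

namespace H58T

open Finset

noncomputable section

/-- sign of the first coordinate of the corner -/
def gx (c : ℕ) : ℝ := if c = 0 ∨ c = 3 then -1 else 1
/-- sign of the second coordinate of the corner -/
def gy (c : ℕ) : ℝ := if 2 ≤ c then -1 else 1

def pr (t : ℕ) : ℝ := if t = 0 then 1 else if t = 1 then √3 - 1 else if t = 2 then √3 + 1 else if t = 3 then 1 else √3
def qr (t : ℕ) : ℝ := if t = 0 then 1 else if t = 1 then √3 + 1 else if t = 2 then √3 - 1 else if t = 3 then √3 else 1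

/-- the normal of the leaf `k` -/
def dX (k : ℕ) : ℝ := gx (cor k) * pr (kd k)
def dY (k : ℕ) : ℝ := gy (cor k) * qr (kd k)

/-- A weight: the vectors `(x c k, y c k)`, `c` the component, `k` the leaf. -/
structure Adm (pres : Fin 2 → ℕ → Prop) (F : Fin 2 → Set (Finset ℕ)) (x y : Fin 2 → ℕ → ℝ) : Prop where
  sup : ∀ c k, (x c k ≠ 0 ∨ y c k ≠ 0) → k < 30 ∧ pres c k
  par : ∀ c k, x c k * dY k = y c k * dX k
  pos : ∀ c k, k < 20 → 0 ≤ gx (cor k) * x c k ∧ 0 ≤ gy (cor k) * y c k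
  opp : ∀ k, 20 ≤ k → x 0 k + x 1 k = 0 ∧ y 0 k + y 1 k = 0
  sum : ∀ c, ∑ k ∈ range 30, x c k = 0 ∧ ∑ k ∈ range 30, y c k = 0
  one : ∀ c k, x c k ^ 2 + y c k ^ 2 ≤ 1
  cut : ∀ c, ∀ A ∈ F c, (∑ k ∈ A, x c k) ^ 2 + (∑ k ∈ A, y c k) ^ 2 ≤ 1

/-- the value of a weight (one component), times `2` -/
def val (x y : ℕ → ℝ) : ℝ := ∑ k ∈ range 20, (gx (cor k) * x k + gy (cor k) * y k)

/-- The combinatorial data of an opaque set of two components of total length `Λ`: which leaves are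
present in which component, and the laminar families of the cuts. -/
structure World (Λ : ℝ) where
  pres : Fin 2 → ℕ → Prop
  F : Fin 2 → Set (Finset ℕ)
  lt : ∀ c k, pres c k → k < 30
  fin : ∀ c, ∀ A ∈ F c, A ⊆ range 30
  lam : ∀ c, ∀ A ∈ F c, ∀ B ∈ F c, A ⊆ B ∨ B ⊆ A ∨ Disjoint A B
  supp : ∀ k, k < 20 → pres 0 k ∨ pres 1 k
  com : ∀ D, 20 ≤ D → D < 30 → (pres 0 (kp D) ∧ pres 1 (km D)) ∨ (pres 1 (kp D) ∧ pres 0 (km D)) →
    pres 0 D ∧ pres 1 D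
  ineq : ∀ x y, Adm pres F x y → val (x 0) (y 0) + val (x 1) (y 1) ≤ 2 * Λ

/-- the mask of `A ∩ S` (`A` is contained in `{0, ..., 31}`) -/
def msk (A : Finset ℕ) (S : ℕ) : ℕ := Nat.ofBits (fun i : Fin 32 => decide ((i : ℕ) ∈ A) && S.testBit i)

/-- `w` is a trivial cut of `S` or in the list `C`, up to complement -/
def Cut (S : ℕ) (C : List ℕ) (w : ℕ) : Prop := triv w (w ^^^ S) = true ∨ w ∈ C ∨ w ^^^ S ∈ C

/-- the cuts of the family `F` induce on `S` only trivial cuts and cuts of `C` -/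
def Compat (F : Set (Finset ℕ)) (S : ℕ) (C : List ℕ) : Prop := ∀ A ∈ F, Cut S C (msk A S)

/-- A situation: inserted leaves `S`, further present leaves `p`, cuts `C`. -/
structure Cfg where
  S0 : ℕ
  S1 : ℕ
  p0 : ℕ
  p1 : ℕ
  C0 : List ℕ
  C1 : List ℕ

/-- the world `w` is in the situation `g` -/
structure Holds {Λ : ℝ} (w : World Λ) (g : Cfg) : Prop where
  c0 : Compat (w.F 0) g.S0 g.C0
  c1 : Compat (w.F 1) g.S1 g.C1
  s0 : ∀ k, g.S0.testBit k = true → w.pres 0 k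
  s1 : ∀ k, g.S1.testBit k = true → w.pres 1 k
  q0 : ∀ k, g.p0.testBit k = true → w.pres 0 k
  q1 : ∀ k, g.p1.testBit k = true → w.pres 1 k

/-- in the situation `g` the bound `T / (2 √R)` holds -/
def Good (R T : ℝ) (g : Cfg) : Prop := ∀ (Λ : ℝ) (w : World Λ), Holds w g → T ≤ 2 * √R * Λ

/-- the situation of the packed entry `E` -/
def cfgE (E : ℕ) : Cfg where
  S0 := fld E 5
  S1 := fld E 6
  p0 := fld E 7
  p1 := fld E 8
  C0 := lst E (fld E 9) 11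
  C1 := lst E (fld E 10) (11 + fld E 9)

/-- A linear programming certificate (real form, scaled by `N √R`). -/
def LpR (R N T : ℝ) (g : Cfg) : Prop :=
  ∃ x y : Fin 2 → ℕ → ℝ,
    (∀ k, ¬ (k < 30 ∧ g.S0.testBit k = true) → x 0 k = 0 ∧ y 0 k = 0) ∧
    (∀ k, ¬ (k < 30 ∧ g.S1.testBit k = true) → x 1 k = 0 ∧ y 1 k = 0) ∧
    (∀ c k, x c k * dY k = y c k * dX k) ∧
    (∀ c k, k < 20 → 0 ≤ gx (cor k) * x c k ∧ 0 ≤ gy (cor k) * y c k) ∧
    (∀ k, 20 ≤ k → x 0 k + x 1 k = 0 ∧ y 0 k + y 1 k = 0) ∧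
    (∀ c, ∑ k ∈ range 30, x c k = 0 ∧ ∑ k ∈ range 30, y c k = 0) ∧
    (∀ c k, x c k ^ 2 + y c k ^ 2 ≤ R * N ^ 2) ∧
    (∀ w ∈ g.C0, (∑ k ∈ range 30 with w.testBit k = true, x 0 k) ^ 2 +
      (∑ k ∈ range 30 with w.testBit k = true, y 0 k) ^ 2 ≤ R * N ^ 2) ∧
    (∀ w ∈ g.C1, (∑ k ∈ range 30 with w.testBit k = true, x 1 k) ^ 2 +
      (∑ k ∈ range 30 with w.testBit k = true, y 1 k) ^ 2 ≤ R * N ^ 2) ∧
    T * N ≤ val (x 0) (y 0) + val (x 1) (y 1)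

/-- `V` is the packed sum of `n` vectors, with the sum `(a + b √3, c + d √3)`. -/
def Pk (V n : ℕ) (a b c d : ℤ) : Prop :=
  ∃ x0 x1 y0 y1 : ℕ, V = x0 + x1 * 2 ^ 64 + y0 * 2 ^ 128 + y1 * 2 ^ 192 + n * 2 ^ 256 ∧
    x0 ≤ n * 2 ^ 37 ∧ x1 ≤ n * 2 ^ 37 ∧ y0 ≤ n * 2 ^ 37 ∧ y1 ≤ n * 2 ^ 37 ∧
    (x0 : ℤ) = a + 10737418240 * n ∧ (x1 : ℤ) = b + 10737418240 * n ∧
    (y0 : ℤ) = c + 10737418240 * n ∧ (y1 : ℤ) = d + 10737418240 * n

/-- `L` is the list of the packed vectors `(a j + b j √3, c j + d j √3)` of the leaves `j` of `S`. -/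
structure Vecs (S : ℕ) (L : List (ℕ × ℕ)) (a b c d : ℕ → ℤ) : Prop where
  nodup : (L.map Prod.fst).Nodup
  keys : ∀ j, (∃ V, (j, V) ∈ L) ↔ j < 30 ∧ S.testBit j = true
  pk : ∀ p ∈ L, Pk p.2 1 (a p.1) (b p.1) (c p.1) (d p.1)
  out : ∀ j, ¬ (j < 30 ∧ S.testBit j = true) → a j = 0 ∧ b j = 0 ∧ c j = 0 ∧ d j = 0

/-- laminar families -/
def Lam {ι : Type} (F : Set (Finset ι)) : Prop := ∀ A ∈ F, ∀ B ∈ F, A ⊆ B ∨ B ⊆ A ∨ Disjoint A B

end

end H58T
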