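import Mathlib

namespace H58T

/-- Lists which grow from `j0` along the relation `r` (newest element first). -/
inductive Gr (r : ℕ → ℕ → Prop) (j0 : ℕ) : List ℕ → Prop
  | base : Gr r j0 [j0]
  | step (l : List ℕ) (i j : ℕ) : Gr r j0 l → i ∈ l → j ∉ l → r i j → Gr r j0 (j :: l)

theorem Gr.nodup {r : ℕ → ℕ → Prop} {j0 : ℕ} {l : List ℕ} (h : Gr r j0 l) : l.Nodup := by
  induction h with
  | base => simp
  | step l i j _ _ hj _ ih => exact List.nodup_cons.mpr ⟨hj, ih⟩

theorem Gr.mono {r r' : ℕ → ℕ → Prop} {j0 : ℕ} {l : List ℕ} (h : Gr r j0 l) (hr : ∀ i j, r i j → r' i j) :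
    Gr r' j0 l := by
  induction h with
  | base => exact Gr.base
  | step l i j _ hi hj hij ih => exact Gr.step l i j ih hi hj (hr i j hij)

theorem Gr.mem {r : ℕ → ℕ → Prop} {j0 : ℕ} {l : List ℕ} (h : Gr r j0 l) : j0 ∈ l := by
  induction h with
  | base => simp
  | step l i j _ _ _ _ ih => exact List.mem_cons_of_mem _ ih

end H58T
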