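import Pool.Agent.Lib.H58Q.A0
import Pool.Agent.Lib.H58T.Defs

open scoped ENNReal

namespace H58T

open Finset H58Q

/-- **G1A (M).** Abel summation without integrals.
PROOF. Induction on `n = #{k ∈ K | s < t k}`, for all `s`. If the set is empty the sum is `0 ≤ c - s`. Otherwise let `m` be the minimum of `t` over it (`Finset.exists_min_image`), `s < m ≤ c`. The set `{k ∈ K | s < t k}` is `{k ∈ K | s' < t k}` with... use directly: for `k` in the set
`t k - s = (m - s) + (t k - m)`, so the sum is `(m - s) • ∑_{s < t k} W k + ∑_{s < t k} (t k - m) • W k`; in the second sum the terms with `t k = m` vanish and the rest is the sum over `{k ∈ K | m < t k}`, which has fewer elements. Norm: `(m - s) * 1 + (c - m)` (hypothesis at `u = s`; induction at `m`, the hypotheses for `u ≥ m ≥ s`). -/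
theorem abel {ι : Type} [DecidableEq ι] {E : Type} [NormedAddCommGroup E] [NormedSpace ℝ E] (K : Finset ι)
    (t : ι → ℝ) (W : ι → E) (c s : ℝ) (hs : s ≤ c) (ht : ∀ k ∈ K, t k ≤ c)
    (h : ∀ u, s ≤ u → ‖∑ k ∈ K with u < t k, W k‖ ≤ 1) :
    ‖∑ k ∈ K with s < t k, (t k - s) • W k‖ ≤ c - s := by
  have key : ∀ n : ℕ, ∀ s : ℝ, s ≤ c →
      (∀ u, s ≤ u → ‖∑ k ∈ K with u < t k, W k‖ ≤ 1) →
      (K.filter (fun k => s < t k)).card = n →
      ‖∑ k ∈ K with s < t k, (t k - s) • W k‖ ≤ c - s := by
    intro n
    induction n using Nat.strong_induction_on with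
    | _ n ih =>
      intro s hs h hn
      rcases (K.filter (fun k => s < t k)).eq_empty_or_nonempty with he | hne
      · rw [he, Finset.sum_empty, norm_zero]
        linarith
      · obtain ⟨k0, hk0, hmin⟩ := Finset.exists_min_image _ t hne
        rw [Finset.mem_filter] at hk0
        have hm : s < t k0 := hk0.2
        have hmc : t k0 ≤ c := ht k0 hk0.1
        have hsub : K.filter (fun k => t k0 < t k) ⊆ K.filter (fun k => s < t k) := by
          intro k hk
          rw [Finset.mem_filter] at *
          exact ⟨hk.1, hm.trans hk.2⟩
        have hlt : (K.filter (fun k => t k0 < t k)).card < n := by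
          rw [← hn]
          apply Finset.card_lt_card
          refine ⟨hsub, fun hh => ?_⟩
          have h3 := hh (Finset.mem_filter.2 hk0)
          rw [Finset.mem_filter] at h3
          exact lt_irrefl _ h3.2
        have e1 : ∑ k ∈ K with s < t k, (t k - s) • W k =
            (t k0 - s) • (∑ k ∈ K with s < t k, W k) +
              ∑ k ∈ K with t k0 < t k, (t k - t k0) • W k := by
          have e2 : ∑ k ∈ K with t k0 < t k, (t k - t k0) • W k =
              ∑ k ∈ K with s < t k, (t k - t k0) • W k := by
            apply Finset.sum_subset hsub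
            intro k hk hk'
            have h1 := hmin k hk
            have h2 : ¬ t k0 < t k := fun h =>
              hk' (Finset.mem_filter.2 ⟨(Finset.mem_filter.1 hk).1, h⟩)
            have h3 : t k = t k0 := le_antisymm (not_lt.1 h2) h1
            rw [h3, sub_self, zero_smul]
          rw [e2, Finset.smul_sum, ← Finset.sum_add_distrib]
          apply Finset.sum_congr rfl
          intro k _
          rw [← add_smul]
          congr 1
          ring
        have h4 := ih _ hlt (t k0) hmc (fun u hu => h u (hm.le.trans hu)) rfl
        have h5 := h s le_rfl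
        rw [e1]
        refine (norm_add_le _ _).trans ?_
        rw [norm_smul, Real.norm_of_nonneg (by linarith)]
        have h6 : (t k0 - s) * ‖∑ k ∈ K with s < t k, W k‖ ≤ (t k0 - s) * 1 :=
          mul_le_mul_of_nonneg_left h5 (by linarith)
        linarith
  exact key _ s hs h rfl

end H58T
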