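import Pool.Agent.Lib.H58T.G1

open scoped ENNReal

namespace H58T

open Finset H58Q

/-- the family of the local inequality -/
def g1b_F {ι : Type} [DecidableEq ι] (K : Finset ι) (t : ι → ℝ) (s : ℝ) : Set (Finset ι) :=
  {A | (∃ u, s ≤ u ∧ A = K.filter (fun k => u < t k)) ∨ (∃ u, u < s ∧ A = K.filter (fun k => t k ≤ u))}

theorem g1b_lam {ι : Type} [DecidableEq ι] (K : Finset ι) (t : ι → ℝ) (s : ℝ) : Lam (g1b_F K t s) := by
  rintro A (⟨u, hu, rfl⟩ | ⟨u, hu, rfl⟩) B (⟨v, hv, rfl⟩ | ⟨v, hv, rfl⟩)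
  · rcases le_total u v with h | h
    · right; left
      intro k hk
      rw [mem_filter] at hk ⊢
      exact ⟨hk.1, lt_of_le_of_lt h hk.2⟩
    · left
      intro k hk
      rw [mem_filter] at hk ⊢
      exact ⟨hk.1, lt_of_le_of_lt h hk.2⟩
  · right; right
    rw [Finset.disjoint_left]
    intro k hk hk'
    rw [mem_filter] at hk hk'
    linarith [hk.2, hk'.2]
  · right; right
    rw [Finset.disjoint_left]
    intro k hk hk'
    rw [mem_filter] at hk hk'
    linarith [hk.2, hk'.2]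
  · rcases le_total u v with h | h
    · left
      intro k hk
      rw [mem_filter] at hk ⊢
      exact ⟨hk.1, hk.2.trans h⟩
    · right; left
      intro k hk
      rw [mem_filter] at hk ⊢
      exact ⟨hk.1, hk.2.trans h⟩

theorem g1b_norm {ι : Type} [DecidableEq ι] (K : Finset ι) (t : ι → ℝ) (s : ℝ) (hs : |s| ≤ 1 / 2)
    (ht : ∀ k ∈ K, |t k| ≤ 1 / 2) (W : ι → E2) (hF : ∀ A ∈ g1b_F K t s, ‖∑ k ∈ A, W k‖ ≤ 1) :
    ‖∑ k ∈ K, (t k - s) • W k‖ ≤ 1 := by
  obtain ⟨hs1, hs2⟩ := abs_le.mp hs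
  have h1 : ‖∑ k ∈ K with s < t k, (t k - s) • W k‖ ≤ 1 / 2 - s :=
    abel K t W (1 / 2) s hs2 (fun k hk => (abs_le.mp (ht k hk)).2)
      (fun u hu => hF _ (Or.inl ⟨u, hu, rfl⟩))
  have h2 : ‖∑ k ∈ K with -s < -t k, (-t k - -s) • W k‖ ≤ 1 / 2 - -s := by
    refine abel K (fun k => -t k) W (1 / 2) (-s) (by linarith)
      (fun k hk => by linarith [(abs_le.mp (ht k hk)).1]) (fun u hu => ?_)
    by_cases hne : (K.filter (fun k => u < -t k)).Nonempty
    · obtain ⟨m, hm, hmax⟩ := Finset.exists_max_image _ t hne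
      rw [mem_filter] at hm
      apply hF
      refine Or.inr ⟨t m, by linarith [hm.2], ?_⟩
      ext k
      simp only [mem_filter]
      constructor
      · rintro ⟨hk, hk'⟩
        exact ⟨hk, hmax k (mem_filter.mpr ⟨hk, hk'⟩)⟩
      · rintro ⟨hk, hk'⟩
        exact ⟨hk, by linarith [hm.2]⟩
    · rw [Finset.not_nonempty_iff_eq_empty] at hne
      rw [hne]
      simp
  have h3 : ∑ k ∈ K, (t k - s) • W k =
      ∑ k ∈ K with s < t k, (t k - s) • W k - ∑ k ∈ K with -s < -t k, (-t k - -s) • W k := by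
    rw [← Finset.sum_filter_add_sum_filter_not K (fun k => s < t k), sub_eq_add_neg, ← Finset.sum_neg_distrib]
    congr 1
    have : K.filter (fun k => -s < -t k) ⊆ K.filter (fun k => ¬ s < t k) := by
      intro k hk
      rw [mem_filter] at hk ⊢
      exact ⟨hk.1, by linarith [hk.2]⟩
    rw [← Finset.sum_subset this]
    · refine Finset.sum_congr rfl fun k _ => ?_
      rw [← neg_smul]
      congr 1
      ring
    · intro k hk hk'
      rw [mem_filter] at hk hk'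
      have h1 : t k ≤ s := not_lt.mp hk.2
      have h2 : ¬ (-s < -t k) := fun h => hk' ⟨hk.1, h⟩
      have : t k = s := by linarith [not_lt.mp h2]
      rw [this, sub_self, zero_smul]
  rw [h3]
  calc _ ≤ _ := norm_sub_le _ _
    _ ≤ (1 / 2 - s) + (1 / 2 - -s) := add_le_add h1 h2
    _ = 1 := by ring

/-- **G1B (M).** The local inequality of a tube.
PROOF. Choose for each point `z` of the tube a parameter: `τ : E2 → ℝ` with `|τ z| ≤ 1/2` and `‖z - (b + τ z • V)‖ < ρ` for `z ∈ Tube b V ρ` (`Classical.choose`, or `choose` with `by_cases`); `t k = τ (q k)`, `s = τ p`. Family: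
`F = {A | (∃ u, s ≤ u ∧ A = K.filter (u < t ·)) ∨ (∃ u, u < s ∧ A = K.filter (t · ≤ u))}`. Laminar: two sets of the first kind are nested, two of the second kind too, one of each kind are disjoint (`t k ≤ u < s ≤ u' < t k` is impossible). Equal points have equal parameters. Inequality: `q k - p = (t k - s) • V + (e k - e)`, `‖e k‖, ‖e‖ < ρ`, so
`∑ ⟨W k, q k - p⟩ = ⟨∑ (t k - s) • W k, V⟩ + ∑ ⟨W k, e k - e⟩ ≤ ‖∑ (t k - s) • W k‖ ‖V‖ + #K * 2 ρ` (`real_inner_le_norm`, `‖W k‖ ≤ 1`). The sum splits into `s < t k`, `t k = s` (zero), `t k < s`: norms `≤ 1/2 - s` by `abel` with `c = 1/2`, and `≤ s + 1/2` by `abel` with `- t`, `- s`, `c = 1/2`: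
the sets `{k | u < - t k}`, `u ≥ - s`, are `{k | t k < - u}`; they are of the form `{k | t k ≤ u'}` with `u' < s` (take `u'` = the largest `t k < - u`; if there is none the set is empty and the sum is `0`). Total norm `≤ 1`. -/
theorem local_ineq {ι : Type} [DecidableEq ι] (K : Finset ι) (b V : E2) (ρ : ℝ) (q : ι → E2) (p : E2)
    (hq : ∀ k ∈ K, q k ∈ Tube b V ρ) (hp : p ∈ Tube b V ρ) :
    ∃ F : Set (Finset ι), Lam F ∧ (∀ A ∈ F, A ⊆ K) ∧
      (∀ A ∈ F, ∀ k ∈ K, ∀ l ∈ K, q k = q l → (k ∈ A ↔ l ∈ A)) ∧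
      ∀ W : ι → E2, (∀ k ∈ K, ‖W k‖ ≤ 1) → (∀ A ∈ F, ‖∑ k ∈ A, W k‖ ≤ 1) →
        ∑ k ∈ K, inner ℝ (W k) (q k - p) ≤ ‖V‖ + 2 * (K.card : ℝ) * ρ := by
  have hτ : ∀ z : E2, ∃ t : ℝ, z ∈ Tube b V ρ → |t| ≤ 1 / 2 ∧ ‖z - (b + t • V)‖ < ρ := by
    intro z
    by_cases hz : z ∈ Tube b V ρ
    · obtain ⟨t, ht⟩ := hz
      exact ⟨t, fun _ => ht⟩
    · exact ⟨0, fun h => absurd h hz⟩
  choose τ hτ using hτ
  refine ⟨g1b_F K (fun k => τ (q k)) (τ p), g1b_lam _ _ _, ?_, ?_, ?_⟩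
  · rintro A (⟨u, _, rfl⟩ | ⟨u, _, rfl⟩)
    · exact filter_subset _ _
    · exact filter_subset _ _
  · rintro A (⟨u, _, rfl⟩ | ⟨u, _, rfl⟩) k hk l hl hkl
    · simp only [mem_filter, hkl, hk, hl]
    · simp only [mem_filter, hkl, hk, hl]
  · intro W hW hF
    have hn := g1b_norm K (fun k => τ (q k)) (τ p) (hτ p hp).1 (fun k hk => (hτ _ (hq k hk)).1) W hF
    have hdec : ∀ k ∈ K, inner ℝ (W k) (q k - p) =
        inner ℝ ((τ (q k) - τ p) • W k) V +
          inner ℝ (W k) ((q k - (b + τ (q k) • V)) - (p - (b + τ p • V))) := by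
      intro k _
      have : q k - p = (τ (q k) - τ p) • V + ((q k - (b + τ (q k) • V)) - (p - (b + τ p • V))) := by
        rw [sub_smul]; abel
      conv_lhs => rw [this]
      rw [inner_add_right, real_inner_smul_left, real_inner_smul_right]
    rw [Finset.sum_congr rfl hdec, Finset.sum_add_distrib, ← sum_inner]
    have h1 : inner ℝ (∑ k ∈ K, (τ (q k) - τ p) • W k) V ≤ ‖V‖ := by
      calc _ ≤ ‖∑ k ∈ K, (τ (q k) - τ p) • W k‖ * ‖V‖ := real_inner_le_norm _ _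
        _ ≤ 1 * ‖V‖ := mul_le_mul_of_nonneg_right hn (norm_nonneg _)
        _ = ‖V‖ := one_mul _
    have h2 : ∑ k ∈ K, inner ℝ (W k) ((q k - (b + τ (q k) • V)) - (p - (b + τ p • V))) ≤
        ∑ _k ∈ K, 2 * ρ := by
      refine Finset.sum_le_sum fun k hk => ?_
      calc _ ≤ ‖W k‖ * ‖(q k - (b + τ (q k) • V)) - (p - (b + τ p • V))‖ := real_inner_le_norm _ _
        _ ≤ 1 * ‖(q k - (b + τ (q k) • V)) - (p - (b + τ p • V))‖ :=
            mul_le_mul_of_nonneg_right (hW k hk) (norm_nonneg _)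
        _ = ‖(q k - (b + τ (q k) • V)) - (p - (b + τ p • V))‖ := one_mul _
        _ ≤ ‖q k - (b + τ (q k) • V)‖ + ‖p - (b + τ p • V)‖ := norm_sub_le _ _
        _ ≤ 2 * ρ := by linarith [(hτ _ (hq k hk)).2, (hτ p hp).2]
    rw [Finset.sum_const, nsmul_eq_mul] at h2
    linarith
end H58T
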