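import Pool.Agent.Lib.H58T.G0
import Pool.Agent.Lib.H58T.G1B

open scoped ENNReal

namespace H58T

open Finset H58Q

/-- **G2 (M).** The inequality of a tree of tubes.
PROOF. Induction on `Gr`, for all `f`, `q`. `base`: all terminals are in the tube `j0`; `local_ineq` with `K = univ`, `p = b j0` (in the tube: parameter `0`, `ρ > 0`), and `∑ ⟨W k, q k⟩ = ∑ ⟨W k, q k - p⟩` because `∑ W k = 0` (`inner_sub_right`, `sum_inner`). The family
respects equal terminals.
`step l i j`: let `p` be a point of both tubes, `K = {k | f k = j}`. New terminals: `f' k = i`, `q' k = p` for `k ∈ K`, `f' k = f k`, `q' k = q k` otherwise (`f k ∈ l` then, because `f k ∈ j :: l` and `f k ≠ j`). The induction hypothesis gives `F'`, `local_ineq K (b j) (V j) (ρ j) q p` gives `F₀`; `F = F' ∪ F₀`.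
Laminar: within `F'`, `F₀` clear; `A ∈ F'`, `A₀ ∈ F₀`, `A₀ ⊆ K`: the members of `K` have equal `(f', q')`, so `K ⊆ A` or `K` is disjoint from `A`. Equal terminals `f k = f l`, `q k = q l`: if `f k = j` both are in `K`: for `A ∈ F'` they have equal `(f', q')`, for `A ∈ F₀` use the property of `local_ineq`; if `f k ≠ j` both are
outside `K` and `A ∩ ... `: for `A ∈ F'` the pairs are unchanged, for `A ∈ F₀` both are not in `A`. Inequality: `∑ ⟨W k, q k⟩ = ∑ ⟨W k, q' k⟩ + ∑_{k ∈ K} ⟨W k, q k - p⟩`, the first sum is at most the list sum over `l`, the second at most `‖V j‖ + 2 #K ρ j ≤ ‖V j‖ + 2 (card ι) ρ j`. -/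
theorem tree_ineq {ι : Type} [Fintype ι] [DecidableEq ι] (b V : ℕ → E2) (ρ : ℕ → ℝ) (hρ : ∀ j, 0 < ρ j)
    (j0 : ℕ) (l : List ℕ)
    (hl : Gr (fun i j => (Tube (b i) (V i) (ρ i) ∩ Tube (b j) (V j) (ρ j)).Nonempty) j0 l)
    (f : ι → ℕ) (q : ι → E2) (hf : ∀ k, f k ∈ l) (hq : ∀ k, q k ∈ Tube (b (f k)) (V (f k)) (ρ (f k))) :
    ∃ F : Set (Finset ι), Lam F ∧ (∀ A ∈ F, ∀ k l, f k = f l → q k = q l → (k ∈ A ↔ l ∈ A)) ∧
      ∀ W : ι → E2, ∑ k, W k = 0 → (∀ k, ‖W k‖ ≤ 1) → (∀ A ∈ F, ‖∑ k ∈ A, W k‖ ≤ 1) →
        ∑ k, inner ℝ (W k) (q k) ≤ (l.map (fun j => ‖V j‖ + 2 * (Fintype.card ι : ℝ) * ρ j)).sum := by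
  induction hl generalizing f q with
  | base =>
    have hf' : ∀ k, f k = j0 := by
      intro k
      simpa using hf k
    obtain ⟨F, h1, h2, h3, h4⟩ := local_ineq Finset.univ (b j0) (V j0) (ρ j0) q (b j0)
      (fun k _ => by
        have := hq k
        rwa [hf' k] at this)
      (by
        refine ⟨0, by norm_num, ?_⟩
        simp [hρ j0])
    refine ⟨F, h1, fun A hA k l _ hkl => h3 A hA k (Finset.mem_univ _) l (Finset.mem_univ _) hkl,
      fun W hW0 hW1 hWF => ?_⟩
    have h5 := h4 W (fun k _ => hW1 k) hWF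
    have e : ∑ k, inner ℝ (W k) (q k - b j0) = ∑ k, inner ℝ (W k) (q k) := by
      simp_rw [inner_sub_right]
      rw [Finset.sum_sub_distrib, ← sum_inner, hW0, inner_zero_left, sub_zero]
    rw [e, Finset.card_univ] at h5
    simpa using h5
  | step l i j hgr hi hj hij ih =>
    obtain ⟨p, hpi, hpj⟩ := hij
    set f' : ι → ℕ := fun k => if f k = j then i else f k with hf'
    set q' : ι → E2 := fun k => if f k = j then p else q k with hq'
    obtain ⟨F', g1, g2, g3⟩ := ih f' q'
      (by
        intro k
        simp only [hf']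
        by_cases hk : f k = j
        · rw [if_pos hk]; exact hi
        · rw [if_neg hk]
          rcases List.mem_cons.mp (hf k) with h | h
          · exact absurd h hk
          · exact h)
      (by
        intro k
        simp only [hf', hq']
        by_cases hk : f k = j
        · rw [if_pos hk, if_pos hk]; exact hpi
        · rw [if_neg hk, if_neg hk]; exact hq k)
    set K : Finset ι := Finset.univ.filter (fun k => f k = j) with hK
    have memK : ∀ k, k ∈ K ↔ f k = j := by
      intro k; simp [hK]
    obtain ⟨F₀, h1, h2, h3, h4⟩ := local_ineq K (b j) (V j) (ρ j) q p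
      (fun k hk => by
        have := hq k
        rwa [(memK k).mp hk] at this) hpj
    have hsep : ∀ A ∈ F', K ⊆ A ∨ Disjoint K A := by
      intro A hA
      by_cases hne : ∃ k, k ∈ K ∧ k ∈ A
      · left
        obtain ⟨k, hk, hkA⟩ := hne
        intro l hl
        refine (g2 A hA k l ?_ ?_).mp hkA
        · simp only [hf', if_pos ((memK k).mp hk), if_pos ((memK l).mp hl)]
        · simp only [hq', if_pos ((memK k).mp hk), if_pos ((memK l).mp hl)]
      · right
        rw [Finset.disjoint_left]
        intro k hk hkA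
        exact hne ⟨k, hk, hkA⟩
    have hmix : ∀ A ∈ F', ∀ A₀ ∈ F₀, A₀ ⊆ A ∨ Disjoint A₀ A := by
      intro A hA A₀ hA₀
      rcases hsep A hA with h | h
      · exact Or.inl ((h2 A₀ hA₀).trans h)
      · exact Or.inr (Finset.disjoint_of_subset_left (h2 A₀ hA₀) h)
    refine ⟨F' ∪ F₀, ?_, ?_, ?_⟩
    · intro A hA B hB
      rcases hA with hA | hA <;> rcases hB with hB | hB
      · exact g1 A hA B hB
      · rcases hmix A hA B hB with h | h
        · exact Or.inr (Or.inl h)
        · exact Or.inr (Or.inr h.symm)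
      · rcases hmix B hB A hA with h | h
        · exact Or.inl h
        · exact Or.inr (Or.inr h)
      · exact h1 A hA B hB
    · intro A hA k m hkm hqkm
      by_cases hk : f k = j
      · have hm : f m = j := by rw [← hkm]; exact hk
        rcases hA with hA | hA
        · refine g2 A hA k m ?_ ?_
          · simp only [hf', if_pos hk, if_pos hm]
          · simp only [hq', if_pos hk, if_pos hm]
        · exact h3 A hA k ((memK k).mpr hk) m ((memK m).mpr hm) hqkm
      · have hm : ¬ f m = j := by rw [← hkm]; exact hk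
        rcases hA with hA | hA
        · refine g2 A hA k m ?_ ?_
          · simp only [hf', if_neg hk, if_neg hm]; exact hkm
          · simp only [hq', if_neg hk, if_neg hm]; exact hqkm
        · constructor
          · intro h
            exact absurd ((memK k).mp (h2 A hA h)) hk
          · intro h
            exact absurd ((memK m).mp (h2 A hA h)) hm
    · intro W hW0 hW1 hWF
      have a1 := g3 W hW0 hW1 (fun A hA => hWF A (Or.inl hA))
      have a2 := h4 W (fun k _ => hW1 k) (fun A hA => hWF A (Or.inr hA))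
      have e : ∑ k, inner ℝ (W k) (q k) = ∑ k, inner ℝ (W k) (q' k) +
          ∑ k ∈ K, inner ℝ (W k) (q k - p) := by
        rw [hK, Finset.sum_filter, ← Finset.sum_add_distrib]
        refine Finset.sum_congr rfl fun k _ => ?_
        simp only [hq']
        by_cases hk : f k = j
        · rw [if_pos hk, if_pos hk, inner_sub_right]; ring
        · rw [if_neg hk, if_neg hk]; ring
      have hcard : (K.card : ℝ) ≤ (Fintype.card ι : ℝ) := by
        exact_mod_cast Finset.card_le_univ K
      have hr : 2 * (K.card : ℝ) * ρ j ≤ 2 * (Fintype.card ι : ℝ) * ρ j := by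
        have := (hρ j).le
        nlinarith
      rw [e, List.map_cons, List.sum_cons]
      linarith

end H58T
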