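import Mathlib

namespace H58T

/-- **G3A (S/M).** Reachability.
PROOF. Let `U` be the union of the `T k` with `ReflTransGen r i k`, `U'` the union of the other `T k`. Both are open, `B ⊆ U ∪ U'`, `B ∩ U` is nonempty. If `j` is not reachable, `B ∩ U'` is nonempty, so by `hB` there is `x ∈ B ∩ (U ∩ U')`: `x ∈ T k`, `k` reachable, `x ∈ T l`, `l` not reachable, but `r k l`: contradiction. -/
theorem reach {X : Type*} [TopologicalSpace X] {B : Set X} (hB : IsPreconnected B) (T : ℕ → Set X)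
    (hT : ∀ j, IsOpen (T j)) (hc : B ⊆ ⋃ j, T j) {i j : ℕ} (hi : (B ∩ T i).Nonempty)
    (hj : (B ∩ T j).Nonempty) :
    Relation.ReflTransGen (fun i j => (B ∩ (T i ∩ T j)).Nonempty) i j := by
  by_contra hn
  set r : ℕ → ℕ → Prop := fun i j => (B ∩ (T i ∩ T j)).Nonempty with hr
  let U : Set X := ⋃ k ∈ {k | Relation.ReflTransGen r i k}, T k
  let U' : Set X := ⋃ k ∈ {k | ¬ Relation.ReflTransGen r i k}, T k
  have hU : IsOpen U := isOpen_biUnion fun k _ => hT k
  have hU' : IsOpen U' := isOpen_biUnion fun k _ => hT k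
  have hsub : B ⊆ U ∪ U' := by
    intro x hx
    obtain ⟨k, hk⟩ := Set.mem_iUnion.1 (hc hx)
    by_cases h : Relation.ReflTransGen r i k
    · exact Or.inl (Set.mem_biUnion (show k ∈ {k | Relation.ReflTransGen r i k} from h) hk)
    · exact Or.inr (Set.mem_biUnion (show k ∈ {k | ¬ Relation.ReflTransGen r i k} from h) hk)
  have h1 : (B ∩ U).Nonempty := by
    obtain ⟨x, hx, hxi⟩ := hi
    exact ⟨x, hx, Set.mem_biUnion
      (show i ∈ {k | Relation.ReflTransGen r i k} from Relation.ReflTransGen.refl) hxi⟩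
  have h2 : (B ∩ U').Nonempty := by
    obtain ⟨x, hx, hxj⟩ := hj
    exact ⟨x, hx, Set.mem_biUnion (show j ∈ {k | ¬ Relation.ReflTransGen r i k} from hn) hxj⟩
  obtain ⟨x, hxB, hxU, hxU'⟩ := hB U U' hU hU' hsub h1 h2
  obtain ⟨k, hk, hxk⟩ := Set.mem_iUnion₂.1 hxU
  obtain ⟨l, hl, hxl⟩ := Set.mem_iUnion₂.1 hxU'
  exact hl (Relation.ReflTransGen.tail hk ⟨x, hxB, hxk, hxl⟩)

end H58T
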