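import Pool.Agent.Lib.H58T.G0

namespace H58T

theorem g3b_one {r : ℕ → ℕ → Prop} (j0 j : ℕ) (l : List ℕ) (hl : Gr r j0 l)
    (h : Relation.ReflTransGen r j0 j) : ∃ l', Gr r j0 l' ∧ (∀ i ∈ l, i ∈ l') ∧ j ∈ l' := by
  induction h with
  | refl => exact ⟨l, hl, fun i hi => hi, hl.mem⟩
  | @tail b c _ hbc ih =>
    obtain ⟨l', hl', hs, hb⟩ := ih
    by_cases hc : c ∈ l'
    · exact ⟨l', hl', hs, hc⟩
    · exact ⟨c :: l', Gr.step l' b c hl' hb hc hbc, fun i hi => List.mem_cons_of_mem _ (hs i hi),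
        List.mem_cons_self⟩

/-- **G3B (S/M).** Growth.
PROOF. (i) For one target: if `Gr r j0 l` and `ReflTransGen r j0 j` there is `l'` with `Gr r j0 l'`, `l ⊆ l'` (as sets) and `j ∈ l'`: induction on `ReflTransGen` (`j = j0`: `l' = l`, `Gr.mem`; step `j' → j`: take `l'` for `j'`; if `j ∈ l'` done, otherwise `j :: l'` by `Gr.step`). (ii) Induction over the finset `J`, from `[j0]`. -/
theorem growth {r : ℕ → ℕ → Prop} (j0 : ℕ) (J : Finset ℕ) (h : ∀ j ∈ J, Relation.ReflTransGen r j0 j) :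
    ∃ l, Gr r j0 l ∧ ∀ j ∈ J, j ∈ l := by
  induction J using Finset.induction_on with
  | empty => exact ⟨[j0], Gr.base, by simp⟩
  | insert a s _ ih =>
    obtain ⟨l, hl, hs⟩ := ih (fun j hj => h j (Finset.mem_insert_of_mem hj))
    obtain ⟨l', hl', hsub, ha⟩ := g3b_one j0 a l hl (h a (Finset.mem_insert_self _ _))
    refine ⟨l', hl', fun j hj => ?_⟩
    rcases Finset.mem_insert.mp hj with rfl | hj
    · exact ha
    · exact hsub j (hs j hj)

end H58T
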