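import Pool.Agent.Lib.H58T.G2
import Pool.Agent.Lib.H58T.G3A
import Pool.Agent.Lib.H58T.G3B
import Pool.Agent.Lib.H58Q.A10

open MeasureTheory Set
open scoped ENNReal

namespace H58T

open H58Q

theorem g4_open (b V : E2) (ρ : ℝ) : IsOpen (Tube b V ρ) := by
  have h : Tube b V ρ = ⋃ t : ℝ, ⋃ _ : |t| ≤ 1 / 2, Metric.ball (b + t • V) ρ := by
    ext x
    simp only [Tube, mem_setOf_eq, mem_iUnion, Metric.mem_ball, dist_eq_norm, exists_prop]
  rw [h]
  exact isOpen_iUnion fun t => isOpen_iUnion fun _ => Metric.isOpen_ball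

theorem g4_sum {f : ℕ → ℝ} (hf : ∀ n, 0 ≤ f n) (s : Finset ℕ) {M : ℝ} (hM : 0 ≤ M)
    (h : ∑' n, ENNReal.ofReal (f n) ≤ ENNReal.ofReal M) : ∑ j ∈ s, f j ≤ M := by
  have h1 : ∑ j ∈ s, ENNReal.ofReal (f j) ≤ ENNReal.ofReal M :=
    (ENNReal.sum_le_tsum _).trans h
  rwa [← ENNReal.ofReal_sum_of_nonneg (fun i _ => hf i), ENNReal.ofReal_le_ofReal_iff hM] at h1

/-- **G4 (M).** The flow lemma from a cover.
PROOF. If `ι` is empty: `F = ∅`, the sum is `0 ≤ M + 0`. Otherwise choose `f k` with `q k ∈ Tube (b (f k)) (V (f k)) (ρ (f k))` (cover), `k0 : ι`, `j0 = f k0`. Tubes are open (`Tube b V ρ` is the union over `|t| ≤ 1/2` of balls: `isOpen_biUnion`, `Metric.isOpen_ball`; there may be a lemma in `H58Q`). `reach` for `T j = Tube ...`,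
`growth j0 (Finset.univ.image f)` give `l`, `Gr.mono`, `tree_ineq`. The list sum is `∑ j ∈ l.toFinset, (‖V j‖ + 2 (card ι) ρ j)` (`List.sum_toFinset`, `Gr.nodup`), `≤ M + 2 (card ι) R` because finite sums are bounded by the `tsum` (`ENNReal.sum_le_tsum`, `ENNReal.ofReal_sum_of_nonneg`, as in `H58Q.A10b`). -/
theorem cover_ineq {ι : Type} [Fintype ι] [DecidableEq ι] (B : Set E2) (hB : IsPreconnected B) {δ M R : ℝ}
    (hM : 0 ≤ M) (hR : 0 ≤ R) (h : HasCover B δ (ENNReal.ofReal M) (ENNReal.ofReal R))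
    (q : ι → E2) (hq : ∀ k, q k ∈ B) :
    ∃ F : Set (Finset ι), Lam F ∧
      ∀ W : ι → E2, ∑ k, W k = 0 → (∀ k, ‖W k‖ ≤ 1) → (∀ A ∈ F, ‖∑ k ∈ A, W k‖ ≤ 1) →
        ∑ k, inner ℝ (W k) (q k) ≤ M + 2 * (Fintype.card ι : ℝ) * R := by
  rcases isEmpty_or_nonempty ι with hι | ⟨⟨k0⟩⟩
  · refine ⟨∅, fun A hA => absurd hA (by simp), fun W _ _ _ => ?_⟩
    rw [Finset.univ_eq_empty, Finset.sum_empty]
    positivity
  · obtain ⟨b, V, ρ, h1, h2, h3, h4⟩ := h
    have hf : ∀ k, ∃ j, q k ∈ Tube (b j) (V j) (ρ j) := fun k => mem_iUnion.mp (h4 (hq k))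
    choose f hfq using hf
    have hr : ∀ j ∈ Finset.univ.image f, Relation.ReflTransGen
        (fun i j => (B ∩ (Tube (b i) (V i) (ρ i) ∩ Tube (b j) (V j) (ρ j))).Nonempty) (f k0) j := by
      intro j hj
      obtain ⟨k, _, rfl⟩ := Finset.mem_image.mp hj
      exact reach hB (fun j => Tube (b j) (V j) (ρ j)) (fun j => g4_open _ _ _) h4
        ⟨q k0, hq k0, hfq k0⟩ ⟨q k, hq k, hfq k⟩
    obtain ⟨l, hl, hl2⟩ := growth (f k0) (Finset.univ.image f) hr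
    obtain ⟨F, hF, -, hF2⟩ := tree_ineq b V ρ (fun j => (h1 j).1) (f k0) l
      (hl.mono fun i j hij => hij.mono inter_subset_right) f q
      (fun k => hl2 _ (Finset.mem_image_of_mem f (Finset.mem_univ k))) hfq
    refine ⟨F, hF, fun W a1 a2 a3 => (hF2 W a1 a2 a3).trans ?_⟩
    rw [← List.sum_toFinset _ hl.nodup, Finset.sum_add_distrib, ← Finset.mul_sum]
    have e1 := g4_sum (fun n => norm_nonneg (V n)) l.toFinset hM h2
    have e2 := g4_sum (fun n => (h1 n).1.le) l.toFinset hR h3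
    have e3 : 2 * (Fintype.card ι : ℝ) * ∑ j ∈ l.toFinset, ρ j ≤ 2 * (Fintype.card ι : ℝ) * R :=
      mul_le_mul_of_nonneg_left e2 (by positivity)
    linarith

end H58T
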