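import Pool.Agent.Lib.H58T.G4

open MeasureTheory Set
open scoped ENNReal

namespace H58T

open H58Q

/-- **G5 (S).** The flow lemma.
PROOF. `H58Q.A10a` with `ε = η / (1 + 2 card ι)`, `δ = 1`, `cover_ineq` with `M = L + ε`, `R = ε` (`ENNReal.ofReal_add`): `L + ε + 2 (card ι) ε = L + η`. -/
theorem flow_ineq {ι : Type} [Fintype ι] [DecidableEq ι] (B : Set E2) (hB : IsPreconnected B)
    (γ : ℕ → ℝ → E2) (hγ : ∀ n, eVariationOn (γ n) (Icc 0 1) ≠ ∞)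
    (hBγ : μH[1] (B \ ⋃ n, γ n '' Icc 0 1) = 0) {L : ℝ} (hL : 0 ≤ L) (hBL : μH[1] B = ENNReal.ofReal L)
    (q : ι → E2) (hq : ∀ k, q k ∈ B) {η : ℝ} (hη : 0 < η) :
    ∃ F : Set (Finset ι), Lam F ∧
      ∀ W : ι → E2, ∑ k, W k = 0 → (∀ k, ‖W k‖ ≤ 1) → (∀ A ∈ F, ‖∑ k ∈ A, W k‖ ≤ 1) →
        ∑ k, inner ℝ (W k) (q k) ≤ L + η := by
  have hc : (0 : ℝ) < 1 + 2 * (Fintype.card ι : ℝ) := by positivity
  have hε : 0 < η / (1 + 2 * (Fintype.card ι : ℝ)) := div_pos hη hc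
  have h1 := A10a γ hγ B hBγ (by rw [hBL]; exact ENNReal.ofReal_ne_top) hε one_pos
  rw [hBL, ← ENNReal.ofReal_add hL hε.le] at h1
  obtain ⟨F, hF, hF2⟩ := cover_ineq B hB (by positivity) hε.le h1 q hq
  refine ⟨F, hF, fun W a1 a2 a3 => (hF2 W a1 a2 a3).trans (le_of_eq ?_)⟩
  field_simp
  ring

end H58T
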