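import Mathlib

open MeasureTheory Set

namespace H58T

/-- **G6 (S/M).** Two sets which cover an interval come close to each other.
PROOF. Let `u = sSup {s ∈ Icc (-S) S | p1 s}` (contains `-S`, bounded by `S`). There is `s1` in the set with `s1 > u - ε / 2` (`exists_lt_of_lt_csSup`). If `u > S - ε / 2`, take `s0 = S`: `|S - s1| ≤ ε`. Otherwise `s0 = u + ε / 2 ≤ S` is larger than `u`, so not in the set, hence `p0 s0`; `|s0 - s1| ≤ ε`. -/
theorem close_points {S : ℝ} (hS : 0 ≤ S) (p0 p1 : ℝ → Prop) (h : ∀ s, |s| ≤ S → p0 s ∨ p1 s) (h0 : p0 S)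
    (h1 : p1 (-S)) {ε : ℝ} (hε : 0 < ε) : ∃ s0 s1, p0 s0 ∧ p1 s1 ∧ |s0 - s1| ≤ ε := by
  have hmem : -S ∈ {s | s ∈ Icc (-S) S ∧ p1 s} := ⟨⟨le_rfl, by linarith⟩, h1⟩
  have hbdd : BddAbove {s | s ∈ Icc (-S) S ∧ p1 s} := ⟨S, fun s hs => hs.1.2⟩
  obtain ⟨s1, hs1, hs1'⟩ := exists_lt_of_lt_csSup (s := {s | s ∈ Icc (-S) S ∧ p1 s}) ⟨_, hmem⟩
    (b := sSup {s | s ∈ Icc (-S) S ∧ p1 s} - ε / 2) (by linarith)
  have hu1 : s1 ≤ sSup {s | s ∈ Icc (-S) S ∧ p1 s} := le_csSup hbdd hs1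
  have hu2 : -S ≤ sSup {s | s ∈ Icc (-S) S ∧ p1 s} := le_csSup hbdd hmem
  have hu3 : sSup {s | s ∈ Icc (-S) S ∧ p1 s} ≤ S := csSup_le ⟨_, hmem⟩ fun s hs => hs.1.2
  generalize hu : sSup {s | s ∈ Icc (-S) S ∧ p1 s} = u at *
  by_cases hc : u > S - ε / 2
  · refine ⟨S, s1, h0, hs1.2, ?_⟩
    rw [abs_le]
    constructor <;> linarith
  · refine ⟨u + ε / 2, s1, ?_, hs1.2, ?_⟩
    · have hn : ¬ p1 (u + ε / 2) := by
        intro hp
        have h3 : u + ε / 2 ∈ {s | s ∈ Icc (-S) S ∧ p1 s} := ⟨⟨by linarith, by linarith⟩, hp⟩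
        have h4 := le_csSup hbdd h3
        rw [hu] at h4
        linarith
      rcases h (u + ε / 2) (by rw [abs_le]; constructor <;> linarith) with h5 | h5
      · exact h5
      · exact absurd h5 hn
    · rw [abs_le]
      constructor <;> linarith

end H58T
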