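import Mathlib

open MeasureTheory Set

namespace H58T

/-- Auxiliary: the separated case. -/
theorem g7_aux {X : Type*} [TopologicalSpace X] [MeasurableSpace X] [BorelSpace X] (μ : Measure X)
    {A C U V : Set X} (hU : IsOpen U) (hA : A ⊆ U) (hC : C ⊆ V)
    (hUV : (A ∪ C) ∩ (U ∩ V) = ∅) :
    μ (A ∪ C) = μ A + μ C := by
  have h1 : (A ∪ C) ∩ U = A := by
    ext x
    constructor
    · rintro ⟨hx | hx, hxU⟩
      · exact hx
      · exact absurd (show x ∈ (A ∪ C) ∩ (U ∩ V) from ⟨Or.inr hx, hxU, hC hx⟩) (by simp [hUV])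
    · intro hx
      exact ⟨Or.inl hx, hA hx⟩
  have h2 : (A ∪ C) \ U = C := by
    ext x
    constructor
    · rintro ⟨hx | hx, hxU⟩
      · exact absurd (hA hx) hxU
      · exact hx
    · intro hx
      refine ⟨Or.inr hx, fun hxU => ?_⟩
      exact absurd (show x ∈ (A ∪ C) ∩ (U ∩ V) from ⟨Or.inr hx, hxU, hC hx⟩) (by simp [hUV])
  have h3 := measure_inter_add_sdiff (μ := μ) (A ∪ C) hU.measurableSet
  rw [h1, h2] at h3
  exact h3.symm

/-- **G7 (S/M).** The measures of the two components add up.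
PROOF. Unfold `IsPreconnected` in `h` (push_neg): open `U, V` with `B₀ ∪ B₁ ⊆ U ∪ V`, points of the union in `U` and in `V`, no point of the union in `U ∩ V`. Each `B_c` is contained in `U` or in `V` (otherwise both `B_c ∩ U`, `B_c ∩ V` are nonempty, and `h0`, resp. `h1`, gives a point in `U ∩ V`). Not both in `U`
(a point in `V` of the union is then in `U ∩ V`), not both in `V`. So e.g. `B₀ ⊆ U`, `B₁ ⊆ V`: `measure_inter_add_diff (B₀ ∪ B₁) hU.measurableSet` with `(B₀ ∪ B₁) ∩ U = B₀`, `(B₀ ∪ B₁) \ U = B₁`. The other case is the same with `add_comm`. -/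
theorem measure_two {X : Type*} [TopologicalSpace X] [MeasurableSpace X] [BorelSpace X] (μ : Measure X)
    {B₀ B₁ : Set X} (h0 : IsPreconnected B₀) (h1 : IsPreconnected B₁) (h : ¬ IsPreconnected (B₀ ∪ B₁)) :
    μ (B₀ ∪ B₁) = μ B₀ + μ B₁ := by
  unfold IsPreconnected at h
  push Not at h
  obtain ⟨U, V, hU, hV, hsub, hnU, hnV, hemp⟩ := h
  have key : ∀ A : Set X, A ⊆ B₀ ∪ B₁ → IsPreconnected A → A ⊆ U ∨ A ⊆ V := by
    intro A hA hAp
    by_cases hAU : (A ∩ U).Nonempty
    · by_cases hAV : (A ∩ V).Nonempty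
      · obtain ⟨x, hx, hxU, hxV⟩ := hAp U V hU hV (hA.trans hsub) hAU hAV
        exact absurd (show x ∈ (B₀ ∪ B₁) ∩ (U ∩ V) from ⟨hA hx, hxU, hxV⟩) (by simp [hemp])
      · left
        intro x hx
        rcases hsub (hA hx) with h | h
        · exact h
        · exact absurd ⟨x, hx, h⟩ hAV
    · right
      intro x hx
      rcases hsub (hA hx) with h | h
      · exact absurd ⟨x, hx, h⟩ hAU
      · exact h
  rcases key B₀ subset_union_left h0 with hB0 | hB0
  · rcases key B₁ subset_union_right h1 with hB1 | hB1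
    · exfalso
      obtain ⟨x, hx, hxV⟩ := hnV
      have hxU : x ∈ U := by
        rcases hx with hx | hx
        · exact hB0 hx
        · exact hB1 hx
      exact absurd (show x ∈ (B₀ ∪ B₁) ∩ (U ∩ V) from ⟨hx, hxU, hxV⟩) (by simp [hemp])
    · exact g7_aux μ hU hB0 hB1 hemp
  · rcases key B₁ subset_union_right h1 with hB1 | hB1
    · refine g7_aux μ hV hB0 hB1 ?_
      rw [inter_comm V U]
      exact hemp
    · exfalso
      obtain ⟨x, hx, hxU⟩ := hnU
      have hxV : x ∈ V := by
        rcases hx with hx | hx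
        · exact hB0 hx
        · exact hB1 hx
      exact absurd (show x ∈ (B₀ ∪ B₁) ∩ (U ∩ V) from ⟨hx, hxU, hxV⟩) (by simp [hemp])

end H58T
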