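import Pool.Agent.Lib.H58T.G5

open MeasureTheory Set
open scoped ENNReal

namespace H58T

open H58Q

/-- The flow inequality for terminals which are indexed by `0, ..., 29` (centred coordinates). -/
def Flow (B : Set E2) (L : ℝ) : Prop :=
  ∀ (pres : ℕ → Prop) (q : ℕ → E2), (∀ k < 30, pres k → q k ∈ B) → ∀ η : ℝ, 0 < η →
    ∃ F : Set (Finset ℕ), (∀ A ∈ F, A ⊆ Finset.range 30) ∧
      (∀ A ∈ F, ∀ A' ∈ F, A ⊆ A' ∨ A' ⊆ A ∨ Disjoint A A') ∧
      ∀ x y : ℕ → ℝ, (∀ k, (x k ≠ 0 ∨ y k ≠ 0) → k < 30 ∧ pres k) → ∑ k ∈ Finset.range 30, x k = 0 →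
        ∑ k ∈ Finset.range 30, y k = 0 → (∀ k, x k ^ 2 + y k ^ 2 ≤ 1) →
        (∀ A ∈ F, (∑ k ∈ A, x k) ^ 2 + (∑ k ∈ A, y k) ^ 2 ≤ 1) →
        ∑ k ∈ Finset.range 30, (x k * (q k 0 - 1 / 2) + y k * (q k 1 - 1 / 2)) ≤ L + η

theorem g8a_inner (w p : E2) : inner ℝ w p = w 0 * p 0 + w 1 * p 1 := by
  rw [PiLp.inner_apply, Fin.sum_univ_two]
  simp [mul_comm]

theorem g8a_norm (w : E2) (h : w 0 ^ 2 + w 1 ^ 2 ≤ 1) : ‖w‖ ≤ 1 := by
  rw [EuclideanSpace.norm_eq, Fin.sum_univ_two, Real.norm_eq_abs, Real.norm_eq_abs, sq_abs, sq_abs]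
  rw [Real.sqrt_le_left (by norm_num)]
  simpa using h

theorem g8a_norm' (w : E2) (h : ‖w‖ ≤ 1) : w 0 ^ 2 + w 1 ^ 2 ≤ 1 := by
  rw [EuclideanSpace.norm_eq, Fin.sum_univ_two, Real.norm_eq_abs, Real.norm_eq_abs, sq_abs, sq_abs,
    Real.sqrt_le_left (by norm_num)] at h
  simpa using h

theorem g8a_sum {ι : Type} (A : Finset ι) (W : ι → E2) (j : Fin 2) : (∑ i ∈ A, W i) j = ∑ i ∈ A, W i j := by
  simp

/-- **G8A (M).** The flow lemma in this form.
PROOF. If `B` is empty, `pres k` is false for `k < 30`, so `x = y = 0`; `F = ∅`, the sum is `0`. Otherwise `z ∈ B`; apply `flow_ineq` with `ι = Fin 30`, terminals `if pres i then q i else z`. `F` = image of the family under `A ↦ A.map Fin.valEmbedding` (`Finset.map_subset_map`, `Finset.disjoint_map`).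
`W i = !₂[x i, y i]` (`EuclideanSpace`; norm: `EuclideanSpace.norm_eq`, `Fin.sum_univ_two`; coordinates of a finite sum: `PiLp` / `EuclideanSpace` `sum_apply`), `inner ℝ (W i) (q i) = x i * q i 0 + y i * q i 1` (`EuclideanSpace.inner_eq_star_dotProduct`, `PiLp.inner_apply`, `Fin.sum_univ_two`; mind the order of the factors).
`∑ i : Fin 30, g i = ∑ k ∈ range 30, g k` (`Finset.sum_range`), `∑ k ∈ A.map valEmbedding, x k = ∑ i ∈ A, x i` (`Finset.sum_map`). The centre `1/2` drops out because the sums of `x`, `y` vanish; where `pres i` is false, `x i = y i = 0`. -/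
theorem flow_of_rect (B : Set E2) (hB : IsPreconnected B)
    (γ : ℕ → ℝ → E2) (hγ : ∀ n, eVariationOn (γ n) (Icc 0 1) ≠ ∞)
    (hBγ : μH[1] (B \ ⋃ n, γ n '' Icc 0 1) = 0) {L : ℝ} (hL : 0 ≤ L) (hBL : μH[1] B = ENNReal.ofReal L) :
    Flow B L := by
  by_cases hBe : B.Nonempty
  swap
  · rw [Set.not_nonempty_iff_eq_empty] at hBe
    intro pres q hq η hη
    refine ⟨∅, by simp, by simp, ?_⟩
    intro x y hp _ _ _ _
    have hz : ∀ k, x k = 0 ∧ y k = 0 := by
      intro k
      by_contra hc
      have hc' : x k ≠ 0 ∨ y k ≠ 0 := by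
        by_contra h2
        push_neg at h2
        exact hc h2
      obtain ⟨h1, h2⟩ := hp k hc'
      have := hq k h1 h2
      rw [hBe] at this
      exact this
    have : ∑ k ∈ Finset.range 30, (x k * (q k 0 - 1 / 2) + y k * (q k 1 - 1 / 2)) = 0 := by
      apply Finset.sum_eq_zero
      intro k _
      rw [(hz k).1, (hz k).2]; ring
    rw [this]; linarith
  · obtain ⟨z, hz⟩ := hBe
    intro pres q hq η hη
    classical
    obtain ⟨F, hF1, hF2⟩ := flow_ineq (ι := Fin 30) B hB γ hγ hBγ hL hBL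
      (fun i => if pres i then q i else z) (by
        intro i
        by_cases h : pres i
        · simp only [h, if_true]; exact hq i i.2 h
        · simp only [h, if_false]; exact hz) hη
    refine ⟨{A | ∃ A' ∈ F, A = A'.map Fin.valEmbedding}, ?_, ?_, ?_⟩
    · rintro A ⟨A', _, rfl⟩ k hk
      rw [Finset.mem_map] at hk
      obtain ⟨i, _, rfl⟩ := hk
      exact Finset.mem_range.mpr i.2
    · rintro A ⟨A', hA', rfl⟩ C ⟨C', hC', rfl⟩
      rcases hF1 A' hA' C' hC' with h | h | h
      · left; exact Finset.map_subset_map.mpr h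
      · right; left; exact Finset.map_subset_map.mpr h
      · right; right; exact (Finset.disjoint_map _).mpr h
    · intro x y hp hx0 hy0 hone hcut
      have hsum : ∀ g : ℕ → ℝ, ∑ k ∈ Finset.range 30, g k = ∑ i : Fin 30, g i := fun g =>
        Finset.sum_range g
      have key := hF2 (fun i => (!₂[x i, y i] : E2)) (by
        ext j
        rw [g8a_sum]
        fin_cases j
        · simpa [hsum] using hx0
        · simpa [hsum] using hy0) (by
        intro k
        apply g8a_norm
        simpa using hone k) (by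
        intro A hA
        apply g8a_norm
        rw [g8a_sum, g8a_sum]
        have := hcut (A.map Fin.valEmbedding) ⟨A, hA, rfl⟩
        rw [Finset.sum_map, Finset.sum_map] at this
        simpa using this)
      have e : ∑ k ∈ Finset.range 30, (x k * (q k 0 - 1 / 2) + y k * (q k 1 - 1 / 2)) =
          ∑ i : Fin 30, inner ℝ (!₂[x i, y i] : E2) (if pres i then q i else z) := by
        have e1 : ∑ k ∈ Finset.range 30, (x k * (q k 0 - 1 / 2) + y k * (q k 1 - 1 / 2)) =
            ∑ k ∈ Finset.range 30, (x k * q k 0 + y k * q k 1) := by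
          have : ∀ k, x k * (q k 0 - 1 / 2) + y k * (q k 1 - 1 / 2) =
              (x k * q k 0 + y k * q k 1) + (x k * (-1 / 2) + y k * (-1 / 2)) := fun k => by ring
          simp_rw [this]
          rw [Finset.sum_add_distrib, Finset.sum_add_distrib (f := fun k => x k * (-1 / 2)),
            ← Finset.sum_mul, ← Finset.sum_mul, hx0, hy0]
          ring
        rw [e1, hsum]
        apply Finset.sum_congr rfl
        intro i _
        rw [g8a_inner]
        by_cases h : pres i
        · simp [h]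
        · have h0 : x i = 0 ∧ y i = 0 := by
            by_contra hc
            have hc' : x i ≠ 0 ∨ y i ≠ 0 := by
              by_contra h2
              push_neg at h2
              exact hc h2
            exact h (hp i hc').2
          simp [h, h0.1, h0.2]
      rw [e]
      exact key

end H58T
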