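import Pool.Agent.Lib.H58T.G8B0

namespace H58T

open H58Q

theorem g8b_dx (k : ℕ) : dX k ≠ 0 := by
  obtain ⟨hp, hq, h1, hgx, hgy⟩ := signs k
  unfold dX
  apply mul_ne_zero
  · intro h0
    rw [h0] at hgx
    norm_num at hgx
  · exact hp.ne'

theorem g8b_dy (k : ℕ) : dY k ≠ 0 := by
  obtain ⟨hp, hq, h1, hgx, hgy⟩ := signs k
  unfold dY
  apply mul_ne_zero
  · intro h0
    rw [h0] at hgy
    norm_num at hgy
  · exact hq.ne'

/-- **G8B (S).** The value of a terminal on a support line.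
PROOF. Let `u = x / dX k` (`dX k ≠ 0` by `signs`); `x = u dX k`, and `x dY k = y dX k` gives `y = u dY k`. So the left side is `u offs k`, and the right side is `u (gx² pr + gy² qr) / 2 = u offs k`. -/
theorem supp_val (k : ℕ) (x y : ℝ) (p : E2) (h : x * dY k = y * dX k)
    (hp : dX k * (p 0 - 1 / 2) + dY k * (p 1 - 1 / 2) = offs k) :
    x * (p 0 - 1 / 2) + y * (p 1 - 1 / 2) = (gx (cor k) * x + gy (cor k) * y) / 2 := by
  obtain ⟨hpr, hqr, h1, hgx, hgy⟩ := signs k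
  have hd := g8b_dx k
  obtain ⟨u, hu⟩ : ∃ u, x = u * dX k := ⟨x / dX k, by field_simp⟩
  have hy : y = u * dY k := by
    apply mul_right_cancel₀ hd
    rw [← h, hu]; ring
  have e1 : gx (cor k) * dX k = pr (kd k) := by
    unfold dX; rw [← mul_assoc, ← sq, hgx, one_mul]
  have e2 : gy (cor k) * dY k = qr (kd k) := by
    unfold dY; rw [← mul_assoc, ← sq, hgy, one_mul]
  calc x * (p 0 - 1 / 2) + y * (p 1 - 1 / 2)
      = u * (dX k * (p 0 - 1 / 2) + dY k * (p 1 - 1 / 2)) := by rw [hu, hy]; ring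
    _ = u * offs k := by rw [hp]
    _ = (u * (gx (cor k) * dX k) + u * (gy (cor k) * dY k)) / 2 := by
        rw [e1, e2, offs]; ring
    _ = (gx (cor k) * x + gy (cor k) * y) / 2 := by rw [hu, hy]; ring

/-- **G8C (S).** The contribution of a common line.
PROOF. `u = x / dX k`: `x = u dX k`, `y = u dY k`, `x' = - x`, `y' = - y`, so the sum is `u (s - s')`, and `u² ≤ u² (dX k ^ 2 + dY k ^ 2) = x² + y² ≤ 1` (`signs`), `|u| ≤ 1`. -/
theorem com_val (k : ℕ) (x y x' y' s s' ε : ℝ) (p p' : E2) (h : x * dY k = y * dX k) (hx : x + x' = 0)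
    (hy : y + y' = 0) (h1 : x ^ 2 + y ^ 2 ≤ 1)
    (hp : dX k * (p 0 - 1 / 2) + dY k * (p 1 - 1 / 2) = s)
    (hp' : dX k * (p' 0 - 1 / 2) + dY k * (p' 1 - 1 / 2) = s') (hs : |s - s'| ≤ ε) :
    |x * (p 0 - 1 / 2) + y * (p 1 - 1 / 2) + (x' * (p' 0 - 1 / 2) + y' * (p' 1 - 1 / 2))| ≤ ε := by
  obtain ⟨hpr, hqr, hsq, hgx, hgy⟩ := signs k
  have hd := g8b_dx k
  obtain ⟨u, hu⟩ : ∃ u, x = u * dX k := ⟨x / dX k, by field_simp⟩
  have hy2 : y = u * dY k := by
    apply mul_right_cancel₀ hd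
    rw [← h, hu]; ring
  have hx' : x' = - (u * dX k) := by linarith
  have hy' : y' = - (u * dY k) := by linarith
  have e : x * (p 0 - 1 / 2) + y * (p 1 - 1 / 2) + (x' * (p' 0 - 1 / 2) + y' * (p' 1 - 1 / 2)) =
      u * (s - s') := by
    rw [hx', hy', hu, hy2, ← hp, ← hp']; ring
  have hu1 : |u| ≤ 1 := by
    rw [abs_le_one_iff_mul_self_le_one]
    have : u ^ 2 * 1 ≤ u ^ 2 * (dX k ^ 2 + dY k ^ 2) := mul_le_mul_of_nonneg_left hsq (sq_nonneg u)
    have h2 : u ^ 2 * (dX k ^ 2 + dY k ^ 2) = x ^ 2 + y ^ 2 := by rw [hu, hy2]; ring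
    nlinarith
  rw [e, abs_mul]
  calc |u| * |s - s'| ≤ 1 * |s - s'| := mul_le_mul_of_nonneg_right hu1 (abs_nonneg _)
    _ ≤ ε := by rw [one_mul]; exact hs

/-- **G8D (S).** Every line of the strip meets the square, so the opaque set.
PROOF. `hop (dX k) (dY k) (s + (dX k + dY k) / 2)`: `dX k ≠ 0` (`signs`). The point `X = 1/2 + gx s / (pr + qr)`, `Y = 1/2 + gy s / (pr + qr)` is in the square (`|s| / (pr + qr) ≤ 1/2`) and on the line: `gx² = gy² = 1`. -/
theorem line_hit (B : Set E2) (hop : OpaqueSq B) (k : ℕ) (s : ℝ) (hs : |s| ≤ offs k) : Hit B k s := by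
  obtain ⟨hpr, hqr, hsq, hgx, hgy⟩ := signs k
  have hd := g8b_dx k
  have e1 : gx (cor k) * dX k = pr (kd k) := by
    unfold dX; rw [← mul_assoc, ← sq, hgx, one_mul]
  have e2 : gy (cor k) * dY k = qr (kd k) := by
    unfold dY; rw [← mul_assoc, ← sq, hgy, one_mul]
  have hT : 0 < pr (kd k) + qr (kd k) := by linarith
  set T := pr (kd k) + qr (kd k) with hTdef
  have hr : |s / T| ≤ 1 / 2 := by
    rw [abs_div, abs_of_pos hT, div_le_iff₀ hT]
    have : offs k = T / 2 := rfl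
    linarith
  obtain ⟨hr1, hr2⟩ := abs_le.mp hr
  have key : ∀ g : ℝ, g ^ 2 = 1 → 1 / 2 + g * (s / T) ∈ Set.Icc (0 : ℝ) 1 := by
    intro g hg
    have : g = 1 ∨ g = -1 := by
      have h0 : (g - 1) * (g + 1) = 0 := by nlinarith
      rcases mul_eq_zero.mp h0 with h1 | h1
      · left; linarith
      · right; linarith
    rcases this with rfl | rfl <;> constructor <;> linarith
  obtain ⟨p, hpB, hp⟩ := hop (dX k) (dY k) (s + (dX k + dY k) / 2) (Or.inl hd)
    ⟨1 / 2 + gx (cor k) * (s / T), key _ hgx, 1 / 2 + gy (cor k) * (s / T), key _ hgy, by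
      have : dX k * (1 / 2 + gx (cor k) * (s / T)) + dY k * (1 / 2 + gy (cor k) * (s / T)) =
          (gx (cor k) * dX k + gy (cor k) * dY k) * (s / T) + (dX k + dY k) / 2 := by ring
      rw [this, e1, e2, ← hTdef, mul_div_cancel₀ _ hT.ne']⟩
  exact ⟨p, hpB, by linarith⟩

end H58T
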