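import Pool.Agent.Lib.H58T.G6
import Pool.Agent.Lib.H58T.G8A
import Pool.Agent.Lib.H58T.G8B

open MeasureTheory Set
open scoped ENNReal

namespace H58T

open H58Q

/-- the linear form of the leaf `k` -/
noncomputable def g8l (k : ℕ) (p : E2) : ℝ := dX k * (p 0 - 1 / 2) + dY k * (p 1 - 1 / 2)

/-- the support lines of the common line `k` are met by different components -/
def g8c (B : Fin 2 → Set E2) (k : ℕ) : Prop :=
  (Hit (B 0) (kp k) (offs k) ∧ Hit (B 1) (km k) (offs k)) ∨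
    (Hit (B 1) (kp k) (offs k) ∧ Hit (B 0) (km k) (offs k))

/-- the present leaves -/
def g8p (B : Fin 2 → Set E2) (c : Fin 2) (k : ℕ) : Prop :=
  (k < 20 ∧ Hit (B c) k (offs k)) ∨ (20 ≤ k ∧ k < 30 ∧ g8c B k)

theorem g8_offs (k : ℕ) : 0 ≤ offs k := by
  have := signs k
  unfold offs
  linarith [this.1, this.2.1]

theorem g8_kp {B : Set E2} {k : ℕ} (h : 20 ≤ k) (h' : k < 30) (hh : Hit B (kp k) (offs k)) :
    Hit B k (offs k) := by
  obtain ⟨p, hp, hl⟩ := hh
  have hk := kpm k h h'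
  rw [hk.2.2.1, hk.2.2.2.1] at hl
  exact ⟨p, hp, hl⟩

theorem g8_km {B : Set E2} {k : ℕ} (h : 20 ≤ k) (h' : k < 30) (hh : Hit B (km k) (offs k)) :
    Hit B k (- offs k) := by
  obtain ⟨p, hp, hl⟩ := hh
  have hk := kpm k h h'
  rw [hk.2.2.2.2.1, hk.2.2.2.2.2.1] at hl
  exact ⟨p, hp, by linarith⟩

theorem g8_cover (B : Fin 2 → Set E2) (hop : OpaqueSq (B 0 ∪ B 1)) (k : ℕ) (s : ℝ)
    (hs : |s| ≤ offs k) : Hit (B 0) k s ∨ Hit (B 1) k s := by
  obtain ⟨p, hp, hl⟩ := line_hit (B 0 ∪ B 1) hop k s hs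
  rcases hp with hp | hp
  · exact Or.inl ⟨p, hp, hl⟩
  · exact Or.inr ⟨p, hp, hl⟩

theorem g8_pts (B : Fin 2 → Set E2) (hop : OpaqueSq (B 0 ∪ B 1)) {ε : ℝ} (hε : 0 < ε) (k : ℕ) :
    ∃ z : E2 × E2, (k < 20 → (Hit (B 0) k (offs k) → z.1 ∈ B 0 ∧ g8l k z.1 = offs k) ∧
      (Hit (B 1) k (offs k) → z.2 ∈ B 1 ∧ g8l k z.2 = offs k)) ∧
      (20 ≤ k → k < 30 → g8c B k → z.1 ∈ B 0 ∧ z.2 ∈ B 1 ∧ |g8l k z.1 - g8l k z.2| ≤ ε) := by
  by_cases h20 : k < 20
  · have e0 : ∃ z : E2, Hit (B 0) k (offs k) → z ∈ B 0 ∧ g8l k z = offs k := by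
      by_cases h : Hit (B 0) k (offs k)
      · obtain ⟨p, hp, hl⟩ := h
        exact ⟨p, fun _ => ⟨hp, hl⟩⟩
      · exact ⟨0, fun h' => absurd h' h⟩
    have e1 : ∃ z : E2, Hit (B 1) k (offs k) → z ∈ B 1 ∧ g8l k z = offs k := by
      by_cases h : Hit (B 1) k (offs k)
      · obtain ⟨p, hp, hl⟩ := h
        exact ⟨p, fun _ => ⟨hp, hl⟩⟩
      · exact ⟨0, fun h' => absurd h' h⟩
    obtain ⟨z0, h0⟩ := e0
    obtain ⟨z1, h1⟩ := e1
    exact ⟨(z0, z1), fun _ => ⟨h0, h1⟩, fun h => by omega⟩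
  · by_cases hc : k < 30 ∧ g8c B k
    · obtain ⟨h30, hc⟩ := hc
      have h20' : 20 ≤ k := by omega
      rcases hc with ⟨ha, hb⟩ | ⟨ha, hb⟩
      · obtain ⟨s0, s1, ⟨z0, hz0, hl0⟩, ⟨z1, hz1, hl1⟩, hs⟩ := close_points (g8_offs k)
          (fun s => Hit (B 0) k s) (fun s => Hit (B 1) k s) (fun s hs => g8_cover B hop k s hs)
          (g8_kp h20' h30 ha) (g8_km h20' h30 hb) hε
        refine ⟨(z0, z1), fun h => by omega, fun _ _ _ => ⟨hz0, hz1, ?_⟩⟩
        have a0 : g8l k z0 = s0 := hl0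
        have a1 : g8l k z1 = s1 := hl1
        rw [a0, a1]; exact hs
      · obtain ⟨s0, s1, ⟨z0, hz0, hl0⟩, ⟨z1, hz1, hl1⟩, hs⟩ := close_points (g8_offs k)
          (fun s => Hit (B 1) k s) (fun s => Hit (B 0) k s) (fun s hs => (g8_cover B hop k s hs).symm)
          (g8_kp h20' h30 ha) (g8_km h20' h30 hb) hε
        refine ⟨(z1, z0), fun h => by omega, fun _ _ _ => ⟨hz1, hz0, ?_⟩⟩
        have a0 : g8l k z0 = s0 := hl0
        have a1 : g8l k z1 = s1 := hl1
        rw [a0, a1, abs_sub_comm]; exact hs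
    · refine ⟨0, fun h => absurd h h20, fun _ h h' => absurd ⟨h, h'⟩ hc⟩

/-- **G8 (M/L).** The world of an opaque set.
PROOF. `pres c k`: for `k < 20`: `Hit (B c) k (offs k)`; for `20 ≤ k < 30`: `(Hit (B 0) (kp k) (offs k) ∧ Hit (B 1) (km k) (offs k)) ∨ (Hit (B 1) (kp k) (offs k) ∧ Hit (B 0) (km k) (offs k))` (for both `c`); false for `k ≥ 30`.
*Points.* Let `ε = η / 40`. For `k < 20` with `pres c k` choose `q c k ∈ B c` on the support line. For `20 ≤ D < 30` with `pres c D`: by `kpm` the line `km D` with offset `offs` is the line with the normal of `D` and offset `- offs D` (multiply by `-1`). `close_points` with `S = offs D ≥ 0`, `p0 s = Hit (B 0) D s`, `p1 s = Hit (B 1) D s`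
in the first case (cover: `line_hit` for `B 0 ∪ B 1`), exchanged in the second case, gives `s0, s1` with `|s0 - s1| ≤ ε` and points `q 0 D ∈ B 0`, `q 1 D ∈ B 1` on these lines. (Choice: state for each `k < 30` the existence of `(z0, z1) : E2 × E2` with: if `pres c k` then `zc ∈ B c`, if `k < 20` on the support line, if `20 ≤ k` the offsets of `z0, z1` differ by at most `ε`.)
*Families.* `Flow (B c)` with `pres c`, `q c`, `η / 4` gives `F c`. *World.* `supp`: `line_hit` with `s = offs k` for the union. `com`: definition of `pres` (`kp D, km D < 20`, `offs (kp D) = offs D`). `ineq`: let `Adm x y`. The two flow inequalities (`sup`, `sum`, `one`, `cut` of `Adm`) add up to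
`∑_c ∑_{k < 30} (x c k (q c k 0 - 1/2) + y c k (q c k 1 - 1/2)) ≤ L₀ + L₁ + η / 2`. The terms `k < 20` are `(gx x + gy y) / 2` (`supp_val`; if not present both sides are `0`), the ten terms `20 ≤ k < 30` (both components together) are at least `- ε` (`com_val` with `opp`; if not present: `0`), in total at least `- η / 4`.
So `val + val ≤ 2 (L₀ + L₁ + η)`. -/
theorem mk_world (B : Fin 2 → Set E2) (hop : OpaqueSq (B 0 ∪ B 1)) {L₀ L₁ : ℝ} (h0 : Flow (B 0) L₀)
    (h1 : Flow (B 1) L₁) {η : ℝ} (hη : 0 < η) :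
    ∃ w : World (L₀ + L₁ + η), ∀ c k, k < 20 → (w.pres c k ↔ Hit (B c) k (offs k)) := by
  have hε : 0 < η / 40 := by positivity
  choose z hz using fun k => g8_pts B hop hε k
  obtain ⟨F0, f1, f2, f3⟩ := h0 (g8p B 0) (fun k => (z k).1) (by
    intro k _ hp
    rcases hp with ⟨h, h'⟩ | ⟨h, h', h''⟩
    · exact (((hz k).1 h).1 h').1
    · exact ((hz k).2 h h' h'').1) (η / 4) (by positivity)
  obtain ⟨F1, g1, g2, g3⟩ := h1 (g8p B 1) (fun k => (z k).2) (by
    intro k _ hp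
    rcases hp with ⟨h, h'⟩ | ⟨h, h', h''⟩
    · exact (((hz k).1 h).2 h').1
    · exact ((hz k).2 h h' h'').2.1) (η / 4) (by positivity)
  refine ⟨{ pres := g8p B, F := ![F0, F1], lt := ?_, fin := ?_, lam := ?_, supp := ?_, com := ?_,
            ineq := ?_ }, ?_⟩
  · intro c k h
    rcases h with ⟨h, _⟩ | ⟨_, h, _⟩
    · omega
    · exact h
  · rw [Fin.forall_fin_two]
    exact ⟨f1, g1⟩
  · rw [Fin.forall_fin_two]
    exact ⟨f2, g2⟩
  · intro k hk
    rcases g8_cover B hop k (offs k) (le_of_eq (abs_of_nonneg (g8_offs k))) with h | h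
    · exact Or.inl (Or.inl ⟨hk, h⟩)
    · exact Or.inr (Or.inl ⟨hk, h⟩)
  · intro D hD hD' h
    have hk := kpm D hD hD'
    have hun : ∀ (c : Fin 2) (j : ℕ), j < 20 → g8p B c j → Hit (B c) j (offs j) := by
      intro c j hj hp
      rcases hp with ⟨_, h⟩ | ⟨h, _⟩
      · exact h
      · omega
    have hc : g8c B D := by
      rcases h with ⟨ha, hb⟩ | ⟨ha, hb⟩
      · left
        have a := hun 0 _ hk.1 ha
        have b := hun 1 _ hk.2.1 hb
        rw [hk.2.2.2.2.2.2.1] at a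
        rw [hk.2.2.2.2.2.2.2] at b
        exact ⟨a, b⟩
      · right
        have a := hun 1 _ hk.1 ha
        have b := hun 0 _ hk.2.1 hb
        rw [hk.2.2.2.2.2.2.1] at a
        rw [hk.2.2.2.2.2.2.2] at b
        exact ⟨a, b⟩
    exact ⟨Or.inr ⟨hD, hD', hc⟩, Or.inr ⟨hD, hD', hc⟩⟩
  · intro x y ha
    have a0 := f3 (x 0) (y 0) (ha.sup 0) (ha.sum 0).1 (ha.sum 0).2 (ha.one 0) (ha.cut 0)
    have a1 := g3 (x 1) (y 1) (ha.sup 1) (ha.sum 1).1 (ha.sum 1).2 (ha.one 1) (ha.cut 1)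
    -- the support lines
    have hzero : ∀ (c : Fin 2) (k : ℕ), ¬ g8p B c k → x c k = 0 ∧ y c k = 0 := by
      intro c k hn
      constructor
      · by_contra h
        exact hn (ha.sup c k (Or.inl h)).2
      · by_contra h
        exact hn (ha.sup c k (Or.inr h)).2
    have s0 : ∀ k ∈ Finset.range 20, x 0 k * ((z k).1 0 - 1 / 2) + y 0 k * ((z k).1 1 - 1 / 2) =
        (gx (cor k) * x 0 k + gy (cor k) * y 0 k) / 2 := by
      intro k hk
      have hk' := Finset.mem_range.mp hk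
      by_cases hp : g8p B 0 k
      · have hh : Hit (B 0) k (offs k) := by
          rcases hp with ⟨_, h⟩ | ⟨h, _⟩
          · exact h
          · omega
        exact supp_val k _ _ _ (ha.par 0 k) (((hz k).1 hk').1 hh).2
      · obtain ⟨e1, e2⟩ := hzero 0 k hp
        rw [e1, e2]; ring
    have s1 : ∀ k ∈ Finset.range 20, x 1 k * ((z k).2 0 - 1 / 2) + y 1 k * ((z k).2 1 - 1 / 2) =
        (gx (cor k) * x 1 k + gy (cor k) * y 1 k) / 2 := by
      intro k hk
      have hk' := Finset.mem_range.mp hk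
      by_cases hp : g8p B 1 k
      · have hh : Hit (B 1) k (offs k) := by
          rcases hp with ⟨_, h⟩ | ⟨h, _⟩
          · exact h
          · omega
        exact supp_val k _ _ _ (ha.par 1 k) (((hz k).1 hk').2 hh).2
      · obtain ⟨e1, e2⟩ := hzero 1 k hp
        rw [e1, e2]; ring
    -- the common lines
    have sc : ∀ k ∈ Finset.Ico 20 30, - (η / 40) ≤
        (x 0 k * ((z k).1 0 - 1 / 2) + y 0 k * ((z k).1 1 - 1 / 2)) +
        (x 1 k * ((z k).2 0 - 1 / 2) + y 1 k * ((z k).2 1 - 1 / 2)) := by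
      intro k hk
      obtain ⟨hk1, hk2⟩ := Finset.mem_Ico.mp hk
      by_cases hc : g8c B k
      · obtain ⟨_, _, hs⟩ := (hz k).2 hk1 hk2 hc
        have := com_val k (x 0 k) (y 0 k) (x 1 k) (y 1 k) (g8l k (z k).1) (g8l k (z k).2) (η / 40)
          (z k).1 (z k).2 (ha.par 0 k) (ha.opp k hk1).1 (ha.opp k hk1).2 (ha.one 0 k) rfl rfl hs
        exact (abs_le.mp this).1
      · have hn : ∀ c, ¬ g8p B c k := by
          intro c hp
          rcases hp with ⟨h, _⟩ | ⟨_, _, h⟩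
          · omega
          · exact hc h
        obtain ⟨e1, e2⟩ := hzero 0 k (hn 0)
        obtain ⟨e3, e4⟩ := hzero 1 k (hn 1)
        rw [e1, e2, e3, e4]
        have : 0 < η / 40 := hε
        linarith
    have split : ∀ g : ℕ → ℝ, ∑ k ∈ Finset.range 30, g k =
        ∑ k ∈ Finset.range 20, g k + ∑ k ∈ Finset.Ico 20 30, g k := by
      intro g
      rw [Finset.range_eq_Ico, Finset.range_eq_Ico,
        Finset.sum_Ico_consecutive g (by norm_num) (by norm_num)]
    have v0 : ∑ k ∈ Finset.range 20, (x 0 k * ((z k).1 0 - 1 / 2) + y 0 k * ((z k).1 1 - 1 / 2)) =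
        val (x 0) (y 0) / 2 := by
      rw [Finset.sum_congr rfl s0, ← Finset.sum_div]; rfl
    have v1 : ∑ k ∈ Finset.range 20, (x 1 k * ((z k).2 0 - 1 / 2) + y 1 k * ((z k).2 1 - 1 / 2)) =
        val (x 1) (y 1) / 2 := by
      rw [Finset.sum_congr rfl s1, ← Finset.sum_div]; rfl
    have hsum : ∑ k ∈ Finset.Ico 20 30, (- (η / 40)) ≤
        ∑ k ∈ Finset.Ico 20 30, ((x 0 k * ((z k).1 0 - 1 / 2) + y 0 k * ((z k).1 1 - 1 / 2)) +
        (x 1 k * ((z k).2 0 - 1 / 2) + y 1 k * ((z k).2 1 - 1 / 2))) :=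
      Finset.sum_le_sum sc
    rw [Finset.sum_add_distrib] at hsum
    have hcst : ∑ k ∈ Finset.Ico 20 30, (- (η / 40)) = - (η / 4) := by
      rw [Finset.sum_const, Nat.card_Ico]
      simp only [nsmul_eq_mul]
      norm_num
      ring
    rw [hcst] at hsum
    rw [split, v0] at a0
    rw [split, v1] at a1
    linarith
  · intro c k hk
    constructor
    · intro hp
      rcases hp with ⟨_, h⟩ | ⟨h, _⟩
      · exact h
      · omega
    · intro h
      exact Or.inl ⟨hk, h⟩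

end H58T
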