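import Pool.Agent.Lib.H58Q.A0
import Pool.Agent.Lib.H58T.Defs

namespace H58T

open H58Q

/-- the offset of the support line `k` (centred coordinates) -/
noncomputable def offs (k : ℕ) : ℝ := (pr (kd k) + qr (kd k)) / 2

/-- `B` meets the line with the normal of the leaf `k` and the offset `s` -/
def Hit (B : Set E2) (k : ℕ) (s : ℝ) : Prop := ∃ p ∈ B, dX k * (p 0 - 1 / 2) + dY k * (p 1 - 1 / 2) = s

theorem g8b0_aux (D : ℕ) (h : 20 ≤ D) (h' : D < 30) : kp D < 20 ∧ km D < 20 ∧ kd (kp D) = kd D ∧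
    kd (km D) = kd D ∧ cor (kp D) = cor D ∧ cor (km D) = cor D + 2 ∧ cor D < 2 := by
  interval_cases D <;> decide

theorem g8b0_gx (c : ℕ) (h : c < 2) : gx (c + 2) = - gx c := by
  interval_cases c <;> norm_num [gx]

theorem g8b0_gy (c : ℕ) (h : c < 2) : gy (c + 2) = - gy c := by
  interval_cases c <;> norm_num [gy]

/-- **G8E (S).** The two support lines of a common line. PROOF. `interval_cases D`; `kp`, `km`, `kd`, `cor` by `rfl` / `decide` (e.g. `show` or `simp [dX, dY, kd, cor, cnd, kp, km, gx, gy]`); corners `c` and `c + 2` have opposite signs. -/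
theorem kpm (D : ℕ) (h : 20 ≤ D) (h' : D < 30) : kp D < 20 ∧ km D < 20 ∧ dX (kp D) = dX D ∧ dY (kp D) = dY D ∧
    dX (km D) = - dX D ∧ dY (km D) = - dY D ∧ offs (kp D) = offs D ∧ offs (km D) = offs D := by
  obtain ⟨a, b, c, d, e, f, g⟩ := g8b0_aux D h h'
  refine ⟨a, b, ?_, ?_, ?_, ?_, ?_, ?_⟩
  · rw [dX, dX, c, e]
  · rw [dY, dY, c, e]
  · rw [dX, dX, d, f, g8b0_gx _ g]; ring
  · rw [dY, dY, d, f, g8b0_gy _ g]; ring
  · rw [offs, offs, c]
  · rw [offs, offs, d]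

/-- **G8B0 (S).** PROOF. `pr`, `qr` are `1`, `√3 - 1`, `√3 + 1`, `√3`; `1 < √3`. `gx`, `gy` are `1` or `-1`. For (3): `pr ^ 2 + qr ^ 2` is `2`, `8`, `8`, `4`, `4`. -/
theorem signs (k : ℕ) : 0 < pr (kd k) ∧ 0 < qr (kd k) ∧ 1 ≤ dX k ^ 2 + dY k ^ 2 ∧ gx (cor k) ^ 2 = 1 ∧
    gy (cor k) ^ 2 = 1 := by
  have h3 : (1 : ℝ) < √3 := by
    rw [Real.lt_sqrt (by norm_num)]; norm_num
  have h33 : √3 ^ 2 = (3 : ℝ) := Real.sq_sqrt (by norm_num)
  have hgx : gx (cor k) ^ 2 = 1 := by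
    unfold gx; split_ifs <;> norm_num
  have hgy : gy (cor k) ^ 2 = 1 := by
    unfold gy; split_ifs <;> norm_num
  have hp : 0 < pr (kd k) := by
    unfold pr; split_ifs <;> linarith
  have hq : 0 < qr (kd k) := by
    unfold qr; split_ifs <;> linarith
  refine ⟨hp, hq, ?_, hgx, hgy⟩
  have e : dX k ^ 2 + dY k ^ 2 = pr (kd k) ^ 2 + qr (kd k) ^ 2 := by
    unfold dX dY
    rw [mul_pow, mul_pow, hgx, hgy]; ring
  rw [e]
  unfold pr qr
  split_ifs <;> nlinarith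

end H58T
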