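import Pool.Agent.Lib.H58T.G7
import Pool.Agent.Lib.H58T.G8

open MeasureTheory Set
open scoped ENNReal

namespace H58T

open H58Q

/-- Auxiliary: from two flows to the bound. -/
theorem g9a_real (hG : ∀ (Λ : ℝ) (_ : World Λ), 4 + 2 * √3 ≤ 2 * √2 * Λ)
    (B : Fin 2 → Set E2) (hop : OpaqueSq (B 0 ∪ B 1)) {L₀ L₁ : ℝ} (h0 : Flow (B 0) L₀)
    (h1 : Flow (B 1) L₁) : (2 + √3) / √2 ≤ L₀ + L₁ := by
  have h2 : (0 : ℝ) < √2 := Real.sqrt_pos.2 (by norm_num)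
  have hs : √2 * √2 = (2 : ℝ) := Real.mul_self_sqrt (by norm_num)
  refine le_of_forall_pos_le_add fun η hη => ?_
  obtain ⟨w, -⟩ := mk_world B hop h0 h1 hη
  have h := hG _ w
  rw [div_le_iff₀ h2]
  nlinarith [h, h2]

/-- **G9A (M).** Two components.
PROOF. If `μH[1] (B₀ ∪ B₁) = ∞` done. Otherwise the measures of `B₀`, `B₁` are finite. CASE 1: `B₀ ∪ B₁` is preconnected: `B = ![B₀ ∪ B₁, ∅]`; `μH[1] (B₀ ∪ B₁) = ofReal L`, `flow_of_rect` for it, and for `∅` with `L = 0` (`isPreconnected_empty`, `measure_empty`). CASE 2: not preconnected: `measure_two`; `B = ![B₀, B₁]`, `μH[1] B_c = ofReal L_c`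
(`ENNReal.ofReal_toReal`), `flow_of_rect` (the null set condition is inherited: `measure_mono_null`, `diff_subset_diff_left`). In both cases `μH[1] (B₀ ∪ B₁) = ofReal (L₀ + L₁)`, and for every `η > 0` `mk_world` gives a world, so `hG` gives `4 + 2 √3 ≤ 2 √2 (L₀ + L₁ + η)`. Hence `4 + 2 √3 ≤ 2 √2 (L₀ + L₁)`
(`le_of_forall_pos_le_add`), i.e. `(2 + √3) / √2 ≤ L₀ + L₁` (`√2 * √2 = 2`). -/
theorem main2_of (hG : ∀ (Λ : ℝ) (_ : World Λ), 4 + 2 * √3 ≤ 2 * √2 * Λ) (B₀ B₁ : Set E2)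
    (hB₀ : IsPreconnected B₀) (hB₁ : IsPreconnected B₁)
    (γ : ℕ → ℝ → E2) (hγ : ∀ n, eVariationOn (γ n) (Icc 0 1) ≠ ∞)
    (hB : μH[1] ((B₀ ∪ B₁) \ ⋃ n, γ n '' Icc 0 1) = 0) (hop : OpaqueSq (B₀ ∪ B₁)) :
    ENNReal.ofReal ((2 + √3) / √2) ≤ μH[1] (B₀ ∪ B₁) := by
  by_cases htop : μH[1] (B₀ ∪ B₁) = ∞
  · rw [htop]; exact le_top
  have ht0 : μH[1] B₀ ≠ ∞ := ne_top_of_le_ne_top htop (measure_mono subset_union_left)
  have ht1 : μH[1] B₁ ≠ ∞ := ne_top_of_le_ne_top htop (measure_mono subset_union_right)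
  by_cases hp : IsPreconnected (B₀ ∪ B₁)
  · have hf : Flow (B₀ ∪ B₁) (μH[1] (B₀ ∪ B₁)).toReal :=
      flow_of_rect _ hp γ hγ hB ENNReal.toReal_nonneg (ENNReal.ofReal_toReal htop).symm
    have hf0 : Flow (∅ : Set E2) 0 :=
      flow_of_rect _ isPreconnected_empty γ hγ (by simp) le_rfl (by simp)
    have h := g9a_real hG ![B₀ ∪ B₁, ∅] (by simpa using hop) (L₀ := (μH[1] (B₀ ∪ B₁)).toReal)
      (L₁ := 0) (by simpa using hf) (by simpa using hf0)
    rw [add_zero] at h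
    rw [← ENNReal.ofReal_toReal htop]
    exact ENNReal.ofReal_le_ofReal h
  · have hm := measure_two (μH[1] : Measure E2) hB₀ hB₁ hp
    have hf0 : Flow B₀ (μH[1] B₀).toReal :=
      flow_of_rect _ hB₀ γ hγ (measure_mono_null (sdiff_subset_sdiff_left subset_union_left) hB)
        ENNReal.toReal_nonneg (ENNReal.ofReal_toReal ht0).symm
    have hf1 : Flow B₁ (μH[1] B₁).toReal :=
      flow_of_rect _ hB₁ γ hγ (measure_mono_null (sdiff_subset_sdiff_left subset_union_right) hB)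
        ENNReal.toReal_nonneg (ENNReal.ofReal_toReal ht1).symm
    have h := g9a_real hG ![B₀, B₁] (by simpa using hop) (L₀ := (μH[1] B₀).toReal)
      (L₁ := (μH[1] B₁).toReal) (by simpa using hf0) (by simpa using hf1)
    rw [hm]
    calc ENNReal.ofReal ((2 + √3) / √2)
        ≤ ENNReal.ofReal ((μH[1] B₀).toReal + (μH[1] B₁).toReal) := ENNReal.ofReal_le_ofReal h
      _ = μH[1] B₀ + μH[1] B₁ := by
          rw [ENNReal.ofReal_add ENNReal.toReal_nonneg ENNReal.toReal_nonneg,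
            ENNReal.ofReal_toReal ht0, ENNReal.ofReal_toReal ht1]

end H58T
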