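import Pool.Agent.Lib.H58T.G8

open MeasureTheory Set
open scoped ENNReal

namespace H58T

open H58Q

/-- **G9B (S/M).** One component.
PROOF. As the first case of `G9A` with `B = ![B, ∅]`: all support lines are met by `B` (`line_hit` for `B ∪ ∅`), so `w.pres 0 k` for `k < 20`, and `hG` gives `2 + 2 √3 ≤ 2 (L + η)` for every `η > 0`. -/
theorem main1_of (hG : ∀ (Λ : ℝ) (w : World Λ), (∀ k < 20, w.pres 0 k) → 2 + 2 * √3 ≤ 2 * √1 * Λ)
    (B : Set E2) (hBc : IsPreconnected B)
    (γ : ℕ → ℝ → E2) (hγ : ∀ n, eVariationOn (γ n) (Icc 0 1) ≠ ∞)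
    (hB : μH[1] (B \ ⋃ n, γ n '' Icc 0 1) = 0) (hop : OpaqueSq B) :
    ENNReal.ofReal (1 + √3) ≤ μH[1] B := by
  by_cases htop : μH[1] B = ∞
  · rw [htop]; exact le_top
  have hBL : μH[1] B = ENNReal.ofReal (μH[1] B).toReal := (ENNReal.ofReal_toReal htop).symm
  have hF0 : Flow B (μH[1] B).toReal := flow_of_rect B hBc γ hγ hB ENNReal.toReal_nonneg hBL
  have hF1 : Flow (∅ : Set E2) 0 := flow_of_rect ∅ isPreconnected_empty γ hγ (by simp) le_rfl (by simp)
  rw [hBL]
  apply ENNReal.ofReal_le_ofReal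
  have key : ∀ η : ℝ, 0 < η → 1 + √3 ≤ (μH[1] B).toReal + η := by
    intro η hη
    obtain ⟨w, hw⟩ := mk_world ![B, ∅] (by simpa using hop) (L₀ := (μH[1] B).toReal) (L₁ := 0)
      (by simpa using hF0) (by simpa using hF1) hη
    have h20 : ∀ k < 20, w.pres 0 k := by
      intro k hk
      rw [hw 0 k hk]
      have hs := signs k
      have := line_hit B hop k (offs k) (by
        rw [abs_of_nonneg]
        unfold offs
        linarith [hs.1, hs.2.1])
      simpa using this
    have := hG _ w h20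
    rw [Real.sqrt_one] at this
    linarith
  exact le_of_forall_pos_le_add key

end H58T
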