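import Pool.Agent.Lib.H58T.C1
import Pool.Agent.Lib.H58T.C3

namespace H58T

open Finset

theorem k10_or {a b k : ℕ} (h : (Nat.lor a b).testBit k = true) :
    a.testBit k = true ∨ b.testBit k = true := by
  have h1 : (a ||| b).testBit k = true := h
  rw [Nat.testBit_or, Bool.or_eq_true] at h1
  exact h1

theorem k10_pow {x k : ℕ} (h : (2 ^ x).testBit k = true) : k = x := by
  rw [Nat.testBit_two_pow, decide_eq_true_eq] at h
  exact h.symm

/-- **K10 (M).** Insertion of a leaf in component `0`.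
PROOF. Unfold `chk10`, remove `frc`, `unl` (`frc_eq`, `unl_eq`), split (`band_iff`). Let `x = fld E 1`, `s = fld E 3`, `g = cfgE E`, `b = 2 ^ x`. Let `w` be a world with `Holds w g`. We know: `g.p0.testBit x`
(`tb_eq`), so `w.pres 0 x`; `g.S0.testBit x = false` (`bnot_iff`); `rootok g.S0 s g.C0`; all bits of `g.S0` and `x` are below `30` (`w.lt`). `insert_sound (w.F 0) (w.fin 0) (w.lam 0)` gives `m ∈ posl C0 S0 s` with `Compat (w.F 0) (S0 ||| b) (insL m b C0)`. `lp_spec` gives an index `i` with, for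
`j = fld E i`: `j < n` (`ble_iff`) and (`bget_eq`) `mt (S0 ||| b) S1 (p0 ||| (S0 ||| b)) (p1 ||| S1) (insL m b C0) C1 (bgv T j) = true`. `mt_sound` gives `Holds w (cfgE (bgv T j))` (the bits of `S0 ||| b` are present:
`Nat.testBit_or`, `Nat.testBit_two_pow`), and `ih j` the bound. -/
theorem chk10_sound {T : BT} {n E : ℕ} {R t : ℝ} (h : chk10 T n E = true)
    (ih : ∀ j < n, Good R t (cfgE (bgv T j))) : Good R t (cfgE E) := by
  unfold chk10 at h
  simp only [frc_eq, unl_eq, band_iff, p2_eq] at h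
  obtain ⟨hp, hx, hr, hl⟩ := h
  intro Λ w hw
  have hb0 : ∀ k, (fld E 5).testBit k = true → k < 30 := fun k hk => w.lt 0 k (hw.s0 k hk)
  have hpx : w.pres 0 (fld E 1) := hw.q0 _ (by rw [← tb_eq]; exact hp)
  have hx30 : fld E 1 < 30 := w.lt 0 _ hpx
  rw [bnot_iff, tb_eq] at hx
  obtain ⟨m, hm, hc⟩ := insert_sound (w.F 0) (w.fin 0) (w.lam 0) hb0 hx30 hx hr hw.c0
  obtain ⟨i, hi⟩ := lp_spec hl m hm
  simp only [band_iff, ble_iff, bget_eq] at hi
  have hS0 : ∀ k, (Nat.lor (fld E 5) (2 ^ fld E 1)).testBit k = true → w.pres 0 k := by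
    intro k hk
    rcases k10_or hk with h1 | h1
    · exact hw.s0 k h1
    · rw [k10_pow h1]
      exact hpx
  have hP0 : ∀ k, (Nat.lor (fld E 7) (Nat.lor (fld E 5) (2 ^ fld E 1))).testBit k = true →
      w.pres 0 k := by
    intro k hk
    rcases k10_or hk with h1 | h1
    · exact hw.q0 k h1
    · exact hS0 k h1
  have hP1 : ∀ k, (Nat.lor (fld E 8) (fld E 6)).testBit k = true → w.pres 1 k := by
    intro k hk
    rcases k10_or hk with h1 | h1
    · exact hw.q1 k h1
    · exact hw.s1 k h1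
  exact ih _ hi.1 Λ w (mt_sound hi.2 w hc hw.c1 hS0 hw.s1 hP0 hP1)

end H58T
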