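import Pool.Agent.Lib.H58T.C1
import Pool.Agent.Lib.H58T.C3

namespace H58T

open Finset

theorem k11_or {a b k : ℕ} (h : (Nat.lor a b).testBit k = true) :
    a.testBit k = true ∨ b.testBit k = true := by
  have h1 : (a ||| b).testBit k = true := h
  rw [Nat.testBit_or, Bool.or_eq_true] at h1
  exact h1

theorem k11_pow {x k : ℕ} (h : (2 ^ x).testBit k = true) : k = x := by
  rw [Nat.testBit_two_pow, decide_eq_true_eq] at h
  exact h.symm

/-- **K11 (M).** Insertion of a leaf in component `1`.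
PROOF. As `K10` with the components exchanged: `x = fld E 1`, `s = fld E 4`, `insert_sound (w.F 1)`, `lp_spec`, `mt_sound`. -/
theorem chk11_sound {T : BT} {n E : ℕ} {R t : ℝ} (h : chk11 T n E = true)
    (ih : ∀ j < n, Good R t (cfgE (bgv T j))) : Good R t (cfgE E) := by
  unfold chk11 at h
  simp only [frc_eq, unl_eq, band_iff, p2_eq] at h
  obtain ⟨hp, hx, hr, hl⟩ := h
  intro Λ w hw
  have hb1 : ∀ k, (fld E 6).testBit k = true → k < 30 := fun k hk => w.lt 1 k (hw.s1 k hk)
  have hpx : w.pres 1 (fld E 1) := hw.q1 _ (by rw [← tb_eq]; exact hp)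
  have hx30 : fld E 1 < 30 := w.lt 1 _ hpx
  rw [bnot_iff, tb_eq] at hx
  obtain ⟨m, hm, hc⟩ := insert_sound (w.F 1) (w.fin 1) (w.lam 1) hb1 hx30 hx hr hw.c1
  obtain ⟨i, hi⟩ := lp_spec hl m hm
  simp only [band_iff, ble_iff, bget_eq] at hi
  have hS1 : ∀ k, (Nat.lor (fld E 6) (2 ^ fld E 1)).testBit k = true → w.pres 1 k := by
    intro k hk
    rcases k11_or hk with h1 | h1
    · exact hw.s1 k h1
    · rw [k11_pow h1]
      exact hpx
  have hP1 : ∀ k, (Nat.lor (fld E 8) (Nat.lor (fld E 6) (2 ^ fld E 1))).testBit k = true →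
      w.pres 1 k := by
    intro k hk
    rcases k11_or hk with h1 | h1
    · exact hw.q1 k h1
    · exact hS1 k h1
  have hP0 : ∀ k, (Nat.lor (fld E 7) (fld E 5)).testBit k = true → w.pres 0 k := by
    intro k hk
    rcases k11_or hk with h1 | h1
    · exact hw.q0 k h1
    · exact hw.s0 k h1
  exact ih _ hi.1 Λ w (mt_sound hi.2 w hw.c0 hc hw.s0 hS1 hP0 hP1)

end H58T
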