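import Pool.Agent.Lib.H58T.C3

namespace H58T

open Finset

/-- **K2 (S/M).** Case distinction: which component meets the support line `x`.
PROOF. Unfold `chk2`, remove `frc`, `unl` (`frc_eq`, `unl_eq`, `bget_eq`), split (`band_iff`, `ble_iff`): `x = fld E 1 < 20`, `j0, j1 < n`. Let `Holds w g`, `g = cfgE E`. By `w.supp x`: `w.pres 0 x` or `w.pres 1 x`. In the first case `mt_sound` with `P0 = (p0 ||| S0) ||| 2 ^ x`, `P1 = p1 ||| S1`
(bits by `Nat.testBit_or`, `Nat.testBit_two_pow`) gives `Holds w (cfgE (bgv T j0))`, and `ih j0`; second case with `j1`. -/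
theorem chk2_sound {T : BT} {n E : ℕ} {R t : ℝ} (h : chk2 T n E = true)
    (ih : ∀ j < n, Good R t (cfgE (bgv T j))) : Good R t (cfgE E) := by
  unfold chk2 at h
  simp only [frc_eq, unl_eq, bget_eq, band_iff, ble_iff] at h
  obtain ⟨hx, ⟨hj0, hm0⟩, hj1, hm1⟩ := h
  intro Λ w hw
  have hP : ∀ (c : Fin 2) (p S k : ℕ), (∀ j, p.testBit j = true → w.pres c j) →
      (∀ j, S.testBit j = true → w.pres c j) → (Nat.lor p S).testBit k = true → w.pres c k := by
    intro c p S k hp hS hk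
    have h1 : (p ||| S).testBit k = true := hk
    rw [Nat.testBit_or, Bool.or_eq_true] at h1
    rcases h1 with h1 | h1
    · exact hp k h1
    · exact hS k h1
  have hb : ∀ (c : Fin 2), w.pres c (fld E 1) → ∀ j, (p2 (fld E 1)).testBit j = true → w.pres c j := by
    intro c hc j hj
    rw [p2_eq, Nat.testBit_two_pow] at hj
    have h1 : fld E 1 = j := by simpa using hj
    rw [← h1]
    exact hc
  have hA : ∀ k, (Nat.lor (fld E 7) (fld E 5)).testBit k = true → w.pres 0 k := fun k hk =>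
    hP 0 _ _ k hw.q0 hw.s0 hk
  have hB : ∀ k, (Nat.lor (fld E 8) (fld E 6)).testBit k = true → w.pres 1 k := fun k hk =>
    hP 1 _ _ k hw.q1 hw.s1 hk
  rcases w.supp (fld E 1) hx with hp | hp
  · exact ih _ hj0 Λ w (mt_sound hm0 w hw.c0 hw.c1 hw.s0 hw.s1
      (fun k hk => hP 0 _ _ k hA (hb 0 hp) hk) hB)
  · exact ih _ hj1 Λ w (mt_sound hm1 w hw.c0 hw.c1 hw.s0 hw.s1 hA
      (fun k hk => hP 1 _ _ k hB (hb 1 hp) hk))

end H58T
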