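import Pool.Agent.Lib.H58T.C1
import Pool.Agent.Lib.H58T.C3

namespace H58T

open Finset

/-- **K3 (M).** Insertion of a common line in both components.
PROOF. Unfold `chk3`, remove `frc`, `unl`, `bget` (`frc_eq`, `unl_eq`, `bget_eq`), split (`band_iff`, `bor_iff`, `bnot_iff`, `tb_eq`, `ble_iff`). Let `x = fld E 1`, `20 ≤ x < 30`, `Holds w g`, `g = cfgE E`. All bits of `P0 = p0 ||| S0` are present in component `0` and all bits of `P1 = p1 ||| S1` in component `1`, so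
`w.com x` gives `w.pres 0 x` and `w.pres 1 x`. `insert_sound (w.F 0)` and `insert_sound (w.F 1)` (with `rootok`; bits below `30` by `w.lt`) give positions `m0`, `m1`; `lp2_spec` gives `j < n` with
`mt (S0 ||| b) (S1 ||| b) P0 P1 (insL m0 b C0) (insL m1 b C1) (bgv T j) = true`, `mt_sound` and `ih j` finish. -/
theorem chk3_sound {T : BT} {n E : ℕ} {R t : ℝ} (h : chk3 T n E = true)
    (ih : ∀ j < n, Good R t (cfgE (bgv T j))) : Good R t (cfgE E) := by
  unfold chk3 at h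
  simp only [frc_eq, unl_eq, band_iff, bor_iff, bnot_iff, tb_eq, ble_iff] at h
  obtain ⟨⟨hx20, hx30⟩, hkp, ⟨hb0, hb1⟩, ⟨hr0, hr1⟩, hlp⟩ := h
  intro Λ w hw
  have hx30' : fld E 1 < 30 := hx30
  have hP0 : ∀ k, (Nat.lor (fld E 7) (fld E 5)).testBit k = true → w.pres 0 k := by
    intro k hk
    have hk' : (fld E 7 ||| fld E 5).testBit k = true := hk
    rw [Nat.testBit_or, Bool.or_eq_true] at hk'
    rcases hk' with h1 | h1
    · exact hw.q0 k h1
    · exact hw.s0 k h1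
  have hP1 : ∀ k, (Nat.lor (fld E 8) (fld E 6)).testBit k = true → w.pres 1 k := by
    intro k hk
    have hk' : (fld E 8 ||| fld E 6).testBit k = true := hk
    rw [Nat.testBit_or, Bool.or_eq_true] at hk'
    rcases hk' with h1 | h1
    · exact hw.q1 k h1
    · exact hw.s1 k h1
  have hcom := w.com (fld E 1) hx20 hx30' (by
    rcases hkp with ⟨h1, h2⟩ | ⟨h1, h2⟩
    · exact Or.inl ⟨hP0 _ h1, hP1 _ h2⟩
    · exact Or.inr ⟨hP1 _ h1, hP0 _ h2⟩)
  obtain ⟨m0, hm0, hC0⟩ := insert_sound (w.F 0) (w.fin 0) (w.lam 0) (S := fld E 5) (x := fld E 1)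
    (s := fld E 3) (C := lst E (fld E 9) 11) (fun k hk => w.lt 0 k (hw.s0 k hk)) hx30' hb0 hr0 hw.c0
  obtain ⟨m1, hm1, hC1⟩ := insert_sound (w.F 1) (w.fin 1) (w.lam 1) (S := fld E 6) (x := fld E 1)
    (s := fld E 4) (C := lst E (fld E 10) (11 + fld E 9)) (fun k hk => w.lt 1 k (hw.s1 k hk)) hx30'
    hb1 hr1 hw.c1
  obtain ⟨i, hi⟩ := lp2_spec hlp m0 hm0 m1 hm1
  simp only [band_iff, ble_iff, bget_eq] at hi
  obtain ⟨hj, hmt⟩ := hi
  have hS0 : ∀ k, (fld E 5 ||| 2 ^ fld E 1).testBit k = true → w.pres 0 k := by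
    intro k hk
    rw [Nat.testBit_or, Bool.or_eq_true, Nat.testBit_two_pow, decide_eq_true_eq] at hk
    rcases hk with h1 | h1
    · exact hw.s0 k h1
    · rw [← h1]
      exact hcom.1
  have hS1 : ∀ k, (fld E 6 ||| 2 ^ fld E 1).testBit k = true → w.pres 1 k := by
    intro k hk
    rw [Nat.testBit_or, Bool.or_eq_true, Nat.testBit_two_pow, decide_eq_true_eq] at hk
    rcases hk with h1 | h1
    · exact hw.s1 k h1
    · rw [← h1]
      exact hcom.2
  exact ih _ hj Λ w (mt_sound hmt w hC0 hC1 hS0 hS1 hP0 hP1)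

end H58T
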