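import Pool.Agent.Lib.H58T.L2

namespace H58T

/-- **L4 (S/M).** The zero test.
PROOF. Obtain the fields of `Pk`, unfold `zer`, remove `frc`, `beq_iff`, `pk_flds` for `V >>> 256 = n` (`Nat.shiftLeft_eq`). With `O = 10737418240 n`: `V = O + (O 2^64 + (O 2^128 + (O 2^192 + n 2^256)))`, and all
fields are below `2^64`, so `x0 = O`, `x1 = O`, `y0 = O`, `y1 = O` (`omega`, with the powers as numerals), i.e. `a = b = c = d = 0`. -/
theorem zer_spec {V n : ℕ} {a b c d : ℤ} (h : zer V = true) (hV : Pk V n a b c d) (hn : n ≤ 1000) :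
    a = 0 ∧ b = 0 ∧ c = 0 ∧ d = 0 := by
  obtain ⟨x0, x1, y0, y1, h1, h2, h3, h4, h5, h6, h7, h8, h9⟩ := hV
  obtain ⟨g1, -, -, -, -⟩ := pk_flds h1 h2 h3 h4 h5 hn
  unfold zer at h
  rw [frc_eq, beq_iff, g1] at h
  have hsl : ∀ a k : ℕ, Nat.shiftLeft a k = a * 2 ^ k := fun a k => Nat.shiftLeft_eq a k
  rw [hsl, hsl, hsl, hsl] at h
  have h' : V = 10737418240 * n + (10737418240 * n * 2 ^ 64 + (10737418240 * n * 2 ^ 128 +
    (10737418240 * n * 2 ^ 192 + n * 2 ^ 256))) := h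
  rw [h1] at h'
  omega

end H58T
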