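import Pool.Agent.Lib.H58T.L2

namespace H58T

open Finset

theorem l7_aux (w : ℕ) (a b c d : ℕ → ℤ) : ∀ L : List (ℕ × ℕ), (L.map Prod.fst).Nodup →
    (∀ p ∈ L, Pk p.2 1 (a p.1) (b p.1) (c p.1) (d p.1)) →
    ∃ n ≤ L.length, Pk (csum w L) n
      (∑ j ∈ (L.map Prod.fst).toFinset with w.testBit j = true, a j)
      (∑ j ∈ (L.map Prod.fst).toFinset with w.testBit j = true, b j)
      (∑ j ∈ (L.map Prod.fst).toFinset with w.testBit j = true, c j)
      (∑ j ∈ (L.map Prod.fst).toFinset with w.testBit j = true, d j) := by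
  intro L
  induction L with
  | nil =>
    intro _ _
    have h0 : csum w [] = 0 := rfl
    rw [h0]
    exact ⟨0, le_rfl, by simpa using pk_zero⟩
  | cons p L ih =>
    intro hnd hpk
    rw [List.map_cons, List.nodup_cons] at hnd
    obtain ⟨n, hn, hP⟩ := ih hnd.2 (fun q hq => hpk q (List.mem_cons_of_mem _ hq))
    have hc : csum w (p :: L) = cnd (tb w p.1) (Nat.add p.2 (csum w L)) (csum w L) := rfl
    have hnot : p.1 ∉ (L.map Prod.fst).toFinset := by
      rw [List.mem_toFinset]
      exact hnd.1
    rw [hc, cnd_eq, tb_eq, List.map_cons, List.toFinset_cons, Finset.filter_insert]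
    by_cases hb : w.testBit p.1 = true
    · rw [if_pos hb, if_pos hb]
      have hnot' : p.1 ∉ (L.map Prod.fst).toFinset.filter (fun j => w.testBit j = true) :=
        fun h => hnot (Finset.mem_filter.1 h).1
      rw [Finset.sum_insert hnot', Finset.sum_insert hnot', Finset.sum_insert hnot',
        Finset.sum_insert hnot']
      refine ⟨1 + n, ?_, pk_add (hpk p List.mem_cons_self) hP⟩
      rw [List.length_cons]
      omega
    · rw [if_neg hb, if_neg hb]
      refine ⟨n, ?_, hP⟩
      rw [List.length_cons]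
      omega

/-- **L7 (M).** The sum of the vectors of a cut.
PROOF. By induction on the list `L` for a statement without reference to `S`: if the first components of `L` are distinct and `< 30` and `Pk p.2 1 (a p.1) ...` for `p ∈ L`, then `∃ n ≤ L.length, Pk (csum w L) n (∑ j ∈ (keys of L) with w.testBit j, a j) ...`
(`csum w (p :: L) = cnd (tb w p.1) (Nat.add p.2 (csum w L)) (csum w L)` is `rfl`; `cnd_eq`, `tb_eq`, `pk_add`, `pk_zero`). `L.length ≤ 30` because the keys are distinct and `< 30` (`List.Nodup`, `List.toFinset_card_of_nodup`, `card_le_card` into `range 30`).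
The sum over the keys is the sum over `j ∈ range 30` with `w.testBit j`, because `a j = b j = c j = d j = 0` for the other `j` (`Vecs.out`, `Vecs.keys`; `Finset.sum_subset`). -/
theorem csum_spec {S : ℕ} {L : List (ℕ × ℕ)} {a b c d : ℕ → ℤ} (h : Vecs S L a b c d) (w : ℕ) :
    ∃ n ≤ 30, Pk (csum w L) n (∑ j ∈ range 30 with w.testBit j = true, a j)
      (∑ j ∈ range 30 with w.testBit j = true, b j) (∑ j ∈ range 30 with w.testBit j = true, c j)
      (∑ j ∈ range 30 with w.testBit j = true, d j) := by
  obtain ⟨n, hn, hP⟩ := l7_aux w a b c d L h.nodup h.pk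
  have hK : (L.map Prod.fst).toFinset ⊆ range 30 := by
    intro j hj
    rw [List.mem_toFinset, List.mem_map] at hj
    obtain ⟨p, hp, rfl⟩ := hj
    exact Finset.mem_range.2 ((h.keys p.1).1 ⟨p.2, hp⟩).1
  have hlen : L.length ≤ 30 := by
    have h1 : L.length = (L.map Prod.fst).toFinset.card := by
      rw [List.toFinset_card_of_nodup h.nodup, List.length_map]
    rw [h1, ← Finset.card_range 30]
    exact Finset.card_le_card hK
  have hz : ∀ j, j ∈ (range 30).filter (fun j => w.testBit j = true) →
      j ∉ ((L.map Prod.fst).toFinset).filter (fun j => w.testBit j = true) →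
      a j = 0 ∧ b j = 0 ∧ c j = 0 ∧ d j = 0 := by
    intro j hj hj'
    apply h.out
    intro hh
    obtain ⟨V, hV⟩ := (h.keys j).2 hh
    apply hj'
    rw [Finset.mem_filter] at hj ⊢
    refine ⟨?_, hj.2⟩
    rw [List.mem_toFinset, List.mem_map]
    exact ⟨_, hV, rfl⟩
  have hsub : ((L.map Prod.fst).toFinset).filter (fun j => w.testBit j = true) ⊆
      (range 30).filter (fun j => w.testBit j = true) := Finset.filter_subset_filter _ hK
  rw [Finset.sum_subset hsub (fun j h1 h2 => (hz j h1 h2).1),
    Finset.sum_subset hsub (fun j h1 h2 => (hz j h1 h2).2.1),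
    Finset.sum_subset hsub (fun j h1 h2 => (hz j h1 h2).2.2.1),
    Finset.sum_subset hsub (fun j h1 h2 => (hz j h1 h2).2.2.2)] at hP
  exact ⟨n, hn.trans hlen, hP⟩

end H58T
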