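import Pool.Agent.Lib.H58T.L3
import Pool.Agent.Lib.H58T.L4
import Pool.Agent.Lib.H58T.L7

namespace H58T

open Finset

theorem l8a_sum (f : ℕ → ℤ) {k : ℕ} (hk : k < 30) :
    ∑ j ∈ range 30 with (2 ^ k).testBit j = true, f j = f k := by
  have h : (range 30).filter (fun j => (2 ^ k).testBit j = true) = {k} := by
    ext j
    rw [Finset.mem_filter, Finset.mem_range, Finset.mem_singleton, Nat.testBit_two_pow]
    simp only [decide_eq_true_eq]
    constructor
    · rintro ⟨_, h2⟩
      exact h2.symm
    · rintro rfl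
      exact ⟨hk, rfl⟩
  rw [h, Finset.sum_singleton]

/-- **L8A (S/M).** The opposite vectors of the common lines.
PROOF. `opp` is `Nat.rec` on `10`: by induction on `m ≤ 10` (unfold one step, `brec_eq`, `frc_eq`, `band_iff`, `tb_eq`): for every `j < 10` with `S.testBit (20 + j) = true`: `zer (csum (2 ^ (20 + j)) L0 + csum (2 ^ (20 + j)) L1) = true`.
`csum_spec` for both lists with `w = 2 ^ k`, `k = 20 + j`: the sums over `range 30` with `(2 ^ k).testBit i` are `a k`, ... (`Nat.testBit_two_pow`); `pk_add`, `zer_spec`. -/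
theorem opp_spec {S S0 S1 : ℕ} {L0 L1 : List (ℕ × ℕ)} {a b c d a' b' c' d' : ℕ → ℤ} (h : opp S L0 L1 = true)
    (h0 : Vecs S0 L0 a b c d) (h1 : Vecs S1 L1 a' b' c' d') {k : ℕ} (hk : 20 ≤ k) (hk' : k < 30)
    (hS : S.testBit k = true) : a k + a' k = 0 ∧ b k + b' k = 0 ∧ c k + c' k = 0 ∧ d k + d' k = 0 := by
  have key : ∀ m : ℕ, (Nat.rec true (fun j r => Bool.rec r
      (frc (p2 (Nat.add 20 j)) fun b => band (frc (Nat.add (csum b L0) (csum b L1)) zer) r)
      (tb S (Nat.add 20 j))) m : Bool) = true →
      ∀ j, j < m → S.testBit (20 + j) = true →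
        zer (csum (2 ^ (20 + j)) L0 + csum (2 ^ (20 + j)) L1) = true := by
    intro m
    induction m with
    | zero => intro _ j hj; omega
    | succ m ih =>
      intro hm j hj hSj
      simp only at hm
      rw [brec_eq] at hm
      by_cases ht : tb S (Nat.add 20 m) = true
      · rw [if_pos ht, frc_eq, band_iff, frc_eq] at hm
        by_cases hjm : j = m
        · subst hjm
          exact hm.1
        · exact ih hm.2 j (by omega) hSj
      · rw [if_neg ht] at hm
        by_cases hjm : j = m
        · subst hjm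
          rw [tb_eq] at ht
          exact absurd hSj ht
        · exact ih hm j (by omega) hSj
  have hz := key 10 h (k - 20) (by omega) (by rw [Nat.add_sub_cancel' hk]; exact hS)
  rw [Nat.add_sub_cancel' hk] at hz
  obtain ⟨n, hn, hp⟩ := csum_spec h0 (2 ^ k)
  obtain ⟨n', hn', hp'⟩ := csum_spec h1 (2 ^ k)
  simp only [l8a_sum _ hk'] at hp hp'
  exact zer_spec hz (pk_add hp hp') (by omega)

end H58T
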