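import Pool.Agent.Lib.H58T.L6
import Pool.Agent.Lib.H58T.L8A

namespace H58T

open Finset

theorem l8_cast (s : Finset ℕ) (a b : ℕ → ℤ) : ∑ k ∈ s, ((a k : ℝ) + b k * √3) =
    ((∑ k ∈ s, a k : ℤ) : ℝ) + ((∑ k ∈ s, b k : ℤ) : ℝ) * √3 := by
  rw [Finset.sum_add_distrib, ← Finset.sum_mul]
  push_cast
  rfl

theorem l8_zero {S : ℕ} {L : List (ℕ × ℕ)} {a b c d : ℕ → ℤ} (hV : Vecs S L a b c d)
    (hz : zer (csum S L) = true) : ∑ k ∈ range 30, ((a k : ℝ) + b k * √3) = 0 ∧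
      ∑ k ∈ range 30, ((c k : ℝ) + d k * √3) = 0 := by
  obtain ⟨n, hn, hP⟩ := csum_spec hV S
  obtain ⟨e1, e2, e3, e4⟩ := zer_spec hz hP (by omega)
  have hsub : (range 30).filter (fun j => S.testBit j = true) ⊆ range 30 := Finset.filter_subset _ _
  have hz : ∀ j ∈ range 30, j ∉ (range 30).filter (fun j => S.testBit j = true) →
      a j = 0 ∧ b j = 0 ∧ c j = 0 ∧ d j = 0 := by
    intro j hj hj'
    apply hV.out
    intro hh
    exact hj' (Finset.mem_filter.2 ⟨hj, hh.2⟩)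
  rw [Finset.sum_subset hsub fun j h1 h2 => (hz j h1 h2).1] at e1
  rw [Finset.sum_subset hsub fun j h1 h2 => (hz j h1 h2).2.1] at e2
  rw [Finset.sum_subset hsub fun j h1 h2 => (hz j h1 h2).2.2.1] at e3
  rw [Finset.sum_subset hsub fun j h1 h2 => (hz j h1 h2).2.2.2] at e4
  rw [l8_cast, l8_cast, e1, e2, e3, e4]
  simp

theorem l8_nrm {S M : ℕ} {L : List (ℕ × ℕ)} {a b c d : ℕ → ℤ} (hV : Vecs S L a b c d)
    (hP : ∀ p ∈ L, nrm M p.2 = true) (k : ℕ) :
    ((a k : ℝ) + b k * √3) ^ 2 + ((c k : ℝ) + d k * √3) ^ 2 ≤ M := by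
  by_cases hk : k < 30 ∧ S.testBit k = true
  · obtain ⟨V, hV'⟩ := (hV.keys k).2 hk
    exact nrm_spec (hP _ hV') (hV.pk _ hV') (by norm_num)
  · obtain ⟨e1, e2, e3, e4⟩ := hV.out k hk
    rw [e1, e2, e3, e4]
    simp

theorem l8_cut {S M : ℕ} {L : List (ℕ × ℕ)} {a b c d : ℕ → ℤ} (hV : Vecs S L a b c d) (w : ℕ)
    (h : nrm M (csum w L) = true) :
    (∑ k ∈ range 30 with w.testBit k = true, ((a k : ℝ) + b k * √3)) ^ 2 +
      (∑ k ∈ range 30 with w.testBit k = true, ((c k : ℝ) + d k * √3)) ^ 2 ≤ M := by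
  obtain ⟨n, hn, hP⟩ := csum_spec hV w
  have h1 := nrm_spec h hP (by omega)
  rw [l8_cast, l8_cast]
  exact h1

/-- **L8 (M).** The linear programming certificate.
PROOF. Unfold `chk0`, remove `frc`, `unl` (`frc_eq`, `unl_eq`), split (`band_iff`). `N = fld E 1 ≥ 1` (`ble_iff`). `lvs_spec` for the outer `lvs` gives `L0`, `a b c d`, ... and the inner `lvs` true; `lvs_spec` again gives `L1`, `a' b' c' d'`. Put
`x 0 k = a k + b k √3`, `y 0 k = c k + d k √3`, `x 1 k = a' k + b' k √3`, `y 1 k = c' k + d' k √3` (`![fun k => .., fun k => ..]`, `Fin.forall_fin_two`).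
Zero outside: `Vecs.out`. Parallel, sign: `lvs_spec`. Opposite (`20 ≤ k`): for `k ≥ 30` both vanish; for `k < 30`: `Nat.shiftRight S0 20 = Nat.shiftRight S1 20` (`beq_iff`), so `S0.testBit k = S1.testBit k` (`Nat.testBit_shiftRight`); if the bit is set: `opp_spec`,
if not: both vanish. Sums zero: `csum_spec` with `w = S0`, `zer_spec` (`30 ≤ 1000`), and the sum over `range 30` is the sum over the bits of `S0` (the rest vanishes). Norms: for `k < 30` with bit in `S0`: `Vecs.keys` gives `(k, V) ∈ L0`, `allP_iff`, `nrm_spec` with `Vecs.pk`; otherwise `0`.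
Cuts: `allL_iff`, `frc_eq`, `csum_spec`, `nrm_spec`; `M = R N²`; the real sum is the cast of the integer sums (`Finset.sum_add_distrib`, `Finset.sum_mul`, `Int.cast_sum`). Value: add the two value identities of `lvs_spec` (started at `0, 0, 0`) and use `nneg_spec`. -/
theorem chk0_sound {R T0 T1 E : ℕ} (h : chk0 R T0 T1 E = true) :
    ∃ N : ℝ, 0 < N ∧ LpR (R : ℝ) N ((T0 : ℝ) + T1 * √3) (cfgE E) := by
  unfold chk0 at h
  simp only [frc_eq, unl_eq, band_iff, ble_iff, beq_iff] at h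
  obtain ⟨⟨hN, hSS⟩, hl⟩ := h
  obtain ⟨L0, i1, v0, v1, n1, a, b, c, d, hl, hV, hpar, hsgn, hval⟩ := lvs_spec hl
  obtain ⟨L1, i2, v0', v1', n2, a', b', c', d', hl, hV', hpar', hsgn', hval'⟩ := lvs_spec hl
  simp only [band_iff, allP_iff, allL_iff] at hl
  obtain ⟨hnn, ⟨hz0, hz1⟩, hopp, ⟨hP0, hP1⟩, hC0, hC1⟩ := hl
  have hN' : (1 : ℝ) ≤ (fld E 1 : ℝ) := by exact_mod_cast hN
  have hM : ((Nat.mul R (Nat.mul (fld E 1) (fld E 1)) : ℕ) : ℝ) = (R : ℝ) * (fld E 1 : ℝ) ^ 2 := by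
    change ((R * (fld E 1 * fld E 1) : ℕ) : ℝ) = _
    push_cast
    ring
  refine ⟨(fld E 1 : ℝ), by linarith, ![fun k => (a k : ℝ) + b k * √3, fun k => (a' k : ℝ) + b' k * √3],
    ![fun k => (c k : ℝ) + d k * √3, fun k => (c' k : ℝ) + d' k * √3], ?_, ?_, ?_, ?_, ?_, ?_, ?_, ?_, ?_, ?_⟩
  · intro k hk
    obtain ⟨e1, e2, e3, e4⟩ := hV.out k hk
    change (a k : ℝ) + b k * √3 = 0 ∧ (c k : ℝ) + d k * √3 = 0
    rw [e1, e2, e3, e4]
    simp
  · intro k hk
    obtain ⟨e1, e2, e3, e4⟩ := hV'.out k hk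
    change (a' k : ℝ) + b' k * √3 = 0 ∧ (c' k : ℝ) + d' k * √3 = 0
    rw [e1, e2, e3, e4]
    simp
  · rw [Fin.forall_fin_two]
    exact ⟨hpar, hpar'⟩
  · rw [Fin.forall_fin_two]
    exact ⟨hsgn, hsgn'⟩
  · intro k hk
    change (a k : ℝ) + b k * √3 + ((a' k : ℝ) + b' k * √3) = 0 ∧
      (c k : ℝ) + d k * √3 + ((c' k : ℝ) + d' k * √3) = 0
    have hbit : (fld E 5).testBit k = (fld E 6).testBit k := by
      have h1 : (fld E 5 >>> 20).testBit (k - 20) = (fld E 6 >>> 20).testBit (k - 20) := by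
        change (Nat.shiftRight (fld E 5) 20).testBit (k - 20) = _
        rw [hSS]
        rfl
      rw [Nat.testBit_shiftRight, Nat.testBit_shiftRight] at h1
      have e : 20 + (k - 20) = k := by omega
      rwa [e] at h1
    have key : a k + a' k = 0 ∧ b k + b' k = 0 ∧ c k + c' k = 0 ∧ d k + d' k = 0 := by
      by_cases hk' : k < 30 ∧ (fld E 5).testBit k = true
      · exact opp_spec hopp hV hV' hk hk'.1 hk'.2
      · obtain ⟨e1, e2, e3, e4⟩ := hV.out k hk'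
        rw [hbit] at hk'
        obtain ⟨f1, f2, f3, f4⟩ := hV'.out k hk'
        rw [e1, e2, e3, e4, f1, f2, f3, f4]
        simp
    obtain ⟨e1, e2, e3, e4⟩ := key
    have e1' : (a k : ℝ) + a' k = 0 := by exact_mod_cast e1
    have e2' : (b k : ℝ) + b' k = 0 := by exact_mod_cast e2
    have e3' : (c k : ℝ) + c' k = 0 := by exact_mod_cast e3
    have e4' : (d k : ℝ) + d' k = 0 := by exact_mod_cast e4
    constructor
    · linear_combination e1' + √3 * e2'
    · linear_combination e3' + √3 * e4'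
  · rw [Fin.forall_fin_two]
    exact ⟨l8_zero hV hz0, l8_zero hV' hz1⟩
  · rw [Fin.forall_fin_two, ← hM]
    exact ⟨l8_nrm hV hP0, l8_nrm hV' hP1⟩
  · intro w hw
    rw [← hM]
    exact l8_cut hV w (hC0 w hw)
  · intro w hw
    rw [← hM]
    exact l8_cut hV' w (hC1 w hw)
  · have h1 := nneg_spec hnn
    have h2 : val (fun k => (a k : ℝ) + b k * √3) (fun k => (c k : ℝ) + d k * √3) +
        val (fun k => (a' k : ℝ) + b' k * √3) (fun k => (c' k : ℝ) + d' k * √3) =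
        ((v0' : ℝ) - 21474836480 * n2) + ((v1' : ℝ) - 21474836480 * n2) * √3 := by
      unfold val
      rw [hval, hval']
      push_cast
      ring
    change ((T0 : ℝ) + T1 * √3) * (fld E 1 : ℝ) ≤
      val (fun k => (a k : ℝ) + b k * √3) (fun k => (c k : ℝ) + d k * √3) +
        val (fun k => (a' k : ℝ) + b' k * √3) (fun k => (c' k : ℝ) + d' k * √3)
    rw [h2]
    have h3 : ((Nat.add (Nat.mul 21474836480 n2) (Nat.mul T0 (fld E 1)) : ℕ) : ℝ) =
        21474836480 * n2 + T0 * (fld E 1 : ℝ) := by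
      change ((21474836480 * n2 + T0 * fld E 1 : ℕ) : ℝ) = _
      push_cast
      ring
    have h4 : ((Nat.add (Nat.mul 21474836480 n2) (Nat.mul T1 (fld E 1)) : ℕ) : ℝ) =
        21474836480 * n2 + T1 * (fld E 1 : ℝ) := by
      change ((21474836480 * n2 + T1 * fld E 1 : ℕ) : ℝ) = _
      push_cast
      ring
    rw [h3, h4] at h1
    linarith

end H58T
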