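import Pool.Agent.Lib.H58T.L9A

namespace H58T

open Finset

/-- **L9 (M).** A linear programming certificate proves the bound.
PROOF. Let `w` be a world with `Holds w g`, `x, y` the vectors of the certificate, `u = 1 / (N √R)`, `X c k = u x c k`, `Y c k = u y c k`. `Adm w.pres w.F X Y`: `sup`: `x 0 k ≠ 0` gives `k < 30`, `g.S0.testBit k` (contraposition of the first condition), present by `Holds.s0`; the same for `1`
(`Fin.forall_fin_two`). `par`, `pos`, `opp`, `sum`: multiply by `u ≥ 0`. `one`: `u² R N² = 1`. `cut`: `cut_bound` with `M = R N²`, `w.fin`, `Holds.c0`, `Holds.c1`; the sum of `X` is `u` times the sum of `x` (`Finset.mul_sum`).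
`w.ineq` gives `u (val (x 0) (y 0) + val (x 1) (y 1)) ≤ 2 Λ`, so `T N u ≤ 2 Λ`, `T ≤ 2 √R Λ`. -/
theorem lpr_good {R N T : ℝ} (hR : 0 < R) (hN : 0 < N) {g : Cfg} (h : LpR R N T g) : Good R T g := by
  obtain ⟨x, y, ho0, ho1, hpar, hpos, hopp, hsum, hone, hC0, hC1, hT⟩ := h
  intro Λ w hw
  have hsR : 0 < √R := Real.sqrt_pos.mpr hR
  have hsq : √R ^ 2 = R := Real.sq_sqrt hR.le
  obtain ⟨u, hu⟩ : ∃ u : ℝ, u = 1 / (N * √R) := ⟨_, rfl⟩
  have hu0 : 0 < u := by
    rw [hu]
    positivity
  have hu1 : u * (N * √R) = 1 := by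
    rw [hu]
    field_simp
  have hu2 : u ^ 2 * (R * N ^ 2) = 1 := by
    have e : u ^ 2 * (R * N ^ 2) = (u * (N * √R)) ^ 2 := by
      linear_combination (-(u ^ 2 * N ^ 2)) * hsq
    rw [e, hu1]
    norm_num
  have hsc : ∀ a b : ℝ, a ^ 2 + b ^ 2 ≤ R * N ^ 2 → (u * a) ^ 2 + (u * b) ^ 2 ≤ 1 := by
    intro a b hab
    have e : (u * a) ^ 2 + (u * b) ^ 2 = u ^ 2 * (a ^ 2 + b ^ 2) := by ring
    rw [e, ← hu2]
    exact mul_le_mul_of_nonneg_left hab (by positivity)
  have hadm : Adm w.pres w.F (fun c k => u * x c k) (fun c k => u * y c k) := by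
    refine ⟨?_, ?_, ?_, ?_, ?_, ?_, ?_⟩
    · rw [Fin.forall_fin_two]
      constructor
      · intro k hk
        by_contra hcon
        have h1 : ¬ (k < 30 ∧ g.S0.testBit k = true) := fun h => hcon ⟨h.1, hw.s0 k h.2⟩
        obtain ⟨e1, e2⟩ := ho0 k h1
        rcases hk with hk | hk
        · exact hk (by rw [e1, mul_zero])
        · exact hk (by rw [e2, mul_zero])
      · intro k hk
        by_contra hcon
        have h1 : ¬ (k < 30 ∧ g.S1.testBit k = true) := fun h => hcon ⟨h.1, hw.s1 k h.2⟩
        obtain ⟨e1, e2⟩ := ho1 k h1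
        rcases hk with hk | hk
        · exact hk (by rw [e1, mul_zero])
        · exact hk (by rw [e2, mul_zero])
    · intro c k
      have := hpar c k
      show u * x c k * dY k = u * y c k * dX k
      rw [mul_assoc, this, mul_assoc]
    · intro c k hk
      obtain ⟨h1, h2⟩ := hpos c k hk
      constructor
      · show 0 ≤ gx (cor k) * (u * x c k)
        have := mul_nonneg hu0.le h1
        linarith
      · show 0 ≤ gy (cor k) * (u * y c k)
        have := mul_nonneg hu0.le h2
        linarith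
    · intro k hk
      obtain ⟨h1, h2⟩ := hopp k hk
      constructor
      · show u * x 0 k + u * x 1 k = 0
        rw [← mul_add, h1, mul_zero]
      · show u * y 0 k + u * y 1 k = 0
        rw [← mul_add, h2, mul_zero]
    · intro c
      obtain ⟨h1, h2⟩ := hsum c
      constructor
      · rw [← Finset.mul_sum, h1, mul_zero]
      · rw [← Finset.mul_sum, h2, mul_zero]
    · intro c k
      exact hsc _ _ (hone c k)
    · rw [Fin.forall_fin_two]
      constructor
      · intro A hA
        rw [← Finset.mul_sum, ← Finset.mul_sum]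
        apply hsc
        exact cut_bound (w.fin 0 A hA) (hw.c0 A hA) ho0 (hsum 0).1 (hsum 0).2 (hone 0) hC0
      · intro A hA
        rw [← Finset.mul_sum, ← Finset.mul_sum]
        apply hsc
        exact cut_bound (w.fin 1 A hA) (hw.c1 A hA) ho1 (hsum 1).1 (hsum 1).2 (hone 1) hC1
  have hineq := w.ineq _ _ hadm
  have hval : ∀ c : Fin 2, val (fun k => u * x c k) (fun k => u * y c k) = u * val (x c) (y c) := by
    intro c
    unfold val
    rw [Finset.mul_sum]
    refine Finset.sum_congr rfl (fun k _ => ?_)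
    ring
  have h1 : val (fun k => u * x 0 k) (fun k => u * y 0 k) + val (fun k => u * x 1 k) (fun k => u * y 1 k) ≤ 2 * Λ :=
    hineq
  rw [hval 0, hval 1] at h1
  have h2 : u * (T * N) ≤ 2 * Λ := by
    have := mul_le_mul_of_nonneg_left hT hu0.le
    linarith
  have h3 := mul_le_mul_of_nonneg_left h2 hsR.le
  have h4 : √R * (u * (T * N)) = T := by
    have e : √R * (u * (T * N)) = T * (u * (N * √R)) := by ring
    rw [e, hu1, mul_one]
  linarith

end H58T
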