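import Pool.Agent.Lib.H58T.K10
import Pool.Agent.Lib.H58T.K11
import Pool.Agent.Lib.H58T.K2
import Pool.Agent.Lib.H58T.K3
import Pool.Agent.Lib.H58T.L8
import Pool.Agent.Lib.H58T.L9

namespace H58T

open Finset

/-- **KA1 (S/M).** One entry of the table.
PROOF. Unfold `chkE`, remove `frc` (`frc_eq`); the nested `Bool.rec` are if-then-else (`brec_eq`, or `cases` on the Booleans `Nat.beq (fld E 0) 0`, `Nat.beq (fld E 0) 1`,
`Nat.beq (fld E 0) 2`, `Nat.beq (fld E 2) 0`): one of `chk0`, `chk10`, `chk11`, `chk2`, `chk3` is true. Use `chk0_sound` and `lpr_good` (with `R > 0`), resp. `chk10_sound`, `chk11_sound`, `chk2_sound`, `chk3_sound`. -/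
theorem chkE_sound {R T0 T1 : ℕ} (hR : 0 < R) {T : BT} {n E : ℕ} (h : chkE R T0 T1 T n E = true)
    (ih : ∀ j < n, Good (R : ℝ) ((T0 : ℝ) + T1 * √3) (cfgE (bgv T j))) :
    Good (R : ℝ) ((T0 : ℝ) + T1 * √3) (cfgE E) := by
  unfold chkE at h
  rw [frc_eq] at h
  have hR' : (0 : ℝ) < (R : ℝ) := by exact_mod_cast hR
  cases h0 : Nat.beq (fld E 0) 0 with
  | true =>
    rw [h0] at h
    obtain ⟨N, hN, hL⟩ := chk0_sound h
    exact lpr_good hR' hN hL
  | false =>
    rw [h0] at h
    cases h1 : Nat.beq (fld E 0) 1 with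
    | true =>
      rw [h1] at h
      cases h2 : Nat.beq (fld E 2) 0 with
      | true =>
        rw [h2] at h
        exact chk10_sound h ih
      | false =>
        rw [h2] at h
        exact chk11_sound h ih
    | false =>
      rw [h1] at h
      cases h2 : Nat.beq (fld E 0) 2 with
      | true =>
        rw [h2] at h
        exact chk2_sound h ih
      | false =>
        rw [h2] at h
        exact chk3_sound h ih

/-- **KA2 (S).** A range of entries.
PROOF. By induction on `n` (unfold `chkR` one step: `chkR R T0 T1 T a (n + 1) = band (frc (Nat.add a n) fun j => bget T j (chkE R T0 T1 T j)) (chkR R T0 T1 T a n)` is `rfl`): `frc_eq`, `bget_eq`, `band_iff`; for `j < a + n` the induction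
hypothesis, for `j = a + n` use `chkE_sound` with `n := a + n`, `E = bgv T (a + n)`. -/
theorem chkR_sound {R T0 T1 : ℕ} (hR : 0 < R) {T : BT} {a n : ℕ} (h : chkR R T0 T1 T a n = true)
    (h0 : ∀ j < a, Good (R : ℝ) ((T0 : ℝ) + T1 * √3) (cfgE (bgv T j))) :
    ∀ j < a + n, Good (R : ℝ) ((T0 : ℝ) + T1 * √3) (cfgE (bgv T j)) := by
  induction n with
  | zero =>
    intro j hj
    exact h0 j (by omega)
  | succ n ih =>
    have e : chkR R T0 T1 T a (n + 1) =
        band (frc (Nat.add a n) fun j => bget T j (chkE R T0 T1 T j)) (chkR R T0 T1 T a n) := rfl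
    rw [e, band_iff, frc_eq, bget_eq] at h
    have ih' := ih h.2
    intro j hj
    by_cases hj2 : j < a + n
    · exact ih' j hj2
    · have hj3 : j = a + n := by omega
      rw [hj3]
      exact chkE_sound hR h.1 ih'

end H58T
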