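import Pool.Agent.Lib.H58T.Defs

namespace H58T

theorem l1_sqrt : (√3 : ℝ) ^ 2 = 3 := Real.sq_sqrt (by norm_num)

theorem l1_le {x y : ℝ} (h : x ^ 2 ≤ y ^ 2) (hy : 0 ≤ y) : x ≤ y := (abs_le_of_sq_le_sq' h hy).2

/-- **L1 (S/M).** The sign test in `ℤ[√3]`.
PROOF. Unfold `nneg`; `cases` on `Nat.ble na pa` (or `brec_eq`), remove `frc` (`frc_eq`), `bor_iff`, `band_iff`, `ble_iff`; `Nat.sub`, `Nat.mul` are `-`, `*`.
If `na ≤ pa` and `nb ≤ pb`: both terms are nonnegative. If `na ≤ pa`, `pb < nb`: `3 (nb - pb) ^ 2 ≤ (pa - na) ^ 2` (cast the truncated differences: `Nat.cast_sub`), so `(nb - pb) √3 ≤ pa - na` (`abs_le_of_sq_le_sq'` or `Real.sqrt` facts,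
`√3 ^ 2 = 3`). If `pa < na`: `nb ≤ pb` and `(na - pa) ^ 2 ≤ 3 (pb - nb) ^ 2`, so `na - pa ≤ (pb - nb) √3`. -/
theorem nneg_spec {pa na pb nb : ℕ} (h : nneg pa na pb nb = true) :
    (0 : ℝ) ≤ ((pa : ℝ) - na) + ((pb : ℝ) - nb) * √3 := by
  unfold nneg at h
  rw [brec_eq] at h
  have h3 := l1_sqrt
  have hs : (0 : ℝ) ≤ √3 := Real.sqrt_nonneg 3
  by_cases hab : Nat.ble na pa = true
  · rw [if_pos hab, bor_iff, frc_eq, frc_eq, ble_iff, ble_iff] at h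
    have hab' : na ≤ pa := ble_iff.1 hab
    have e1 : (0 : ℝ) ≤ (pa : ℝ) - na := by
      have : (na : ℝ) ≤ pa := by exact_mod_cast hab'
      linarith
    by_cases hb : nb ≤ pb
    · have e2 : (0 : ℝ) ≤ (pb : ℝ) - nb := by
        have : (nb : ℝ) ≤ pb := by exact_mod_cast hb
        linarith
      have := mul_nonneg e2 hs
      linarith
    · have h2 := h.resolve_left hb
      have h2' : 3 * ((nb - pb) * (nb - pb)) ≤ (pa - na) * (pa - na) := h2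
      have c1 : ((nb - pb : ℕ) : ℝ) = (nb : ℝ) - pb := Nat.cast_sub (by omega)
      have c2 : ((pa - na : ℕ) : ℝ) = (pa : ℝ) - na := Nat.cast_sub hab'
      have h4 : (3 : ℝ) * (((nb : ℝ) - pb) * ((nb : ℝ) - pb)) ≤ ((pa : ℝ) - na) * ((pa : ℝ) - na) := by
        rw [← c1, ← c2]; exact_mod_cast h2'
      have h5 : ((nb : ℝ) - pb) * √3 ≤ (pa : ℝ) - na := by
        refine l1_le ?_ e1
        nlinarith
      linarith
  · rw [if_neg hab, band_iff, frc_eq, frc_eq, ble_iff, ble_iff] at h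
    have hab' : ¬ na ≤ pa := fun h' => hab (ble_iff.2 h')
    obtain ⟨hb, h2⟩ := h
    have h2' : (na - pa) * (na - pa) ≤ 3 * ((pb - nb) * (pb - nb)) := h2
    have c1 : ((pb - nb : ℕ) : ℝ) = (pb : ℝ) - nb := Nat.cast_sub hb
    have c2 : ((na - pa : ℕ) : ℝ) = (na : ℝ) - pa := Nat.cast_sub (by omega)
    have h4 : ((na : ℝ) - pa) * ((na : ℝ) - pa) ≤ 3 * (((pb : ℝ) - nb) * ((pb : ℝ) - nb)) := by
      rw [← c1, ← c2]; exact_mod_cast h2'
    have e2 : (0 : ℝ) ≤ (pb : ℝ) - nb := by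
      have : (nb : ℝ) ≤ pb := by exact_mod_cast hb
      linarith
    have h5 : (na : ℝ) - pa ≤ ((pb : ℝ) - nb) * √3 := by
      refine l1_le ?_ (mul_nonneg e2 hs)
      nlinarith
    linarith

end H58T
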