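import Pool.Agent.Lib.H58T.Defs

namespace H58T

/-- **L2 (S).** Packed vectors add up. PROOF. Add the fields (`omega` or `ring` after `obtain`). -/
theorem pk_add {V V' n n' : ℕ} {a b c d a' b' c' d' : ℤ} (h : Pk V n a b c d)
    (h' : Pk V' n' a' b' c' d') : Pk (V + V') (n + n') (a + a') (b + b') (c + c') (d + d') := by
  obtain ⟨x0, x1, y0, y1, h1, h2, h3, h4, h5, h6, h7, h8, h9⟩ := h
  obtain ⟨x0', x1', y0', y1', h1', h2', h3', h4', h5', h6', h7', h8', h9'⟩ := h'
  refine ⟨x0 + x0', x1 + x1', y0 + y0', y1 + y1', by rw [h1, h1']; ring, ?_, ?_, ?_, ?_, ?_, ?_, ?_, ?_⟩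
  · linarith
  · linarith
  · linarith
  · linarith
  · push_cast; rw [h6, h6']; ring
  · push_cast; rw [h7, h7']; ring
  · push_cast; rw [h8, h8']; ring
  · push_cast; rw [h9, h9']; ring

theorem pk_zero : Pk 0 0 0 0 0 0 :=
  ⟨0, 0, 0, 0, by norm_num, by norm_num, by norm_num, by norm_num, by norm_num, by norm_num,
    by norm_num, by norm_num, by norm_num⟩

/-- **L2 (S/M).** The fields of a packed vector.
PROOF. With `V = x0 + x1 2^64 + y0 2^128 + y1 2^192 + n 2^256` and `x0, x1, y0, y1 < 2^64` (from `n ≤ 1000`: `1000 * 2^37 < 2^64`): `Nat.shiftRight_eq_div_pow`, `Nat.and_two_pow_sub_one_eq_mod`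
(`18446744073709551615 = 2^64 - 1`), then `omega` (the powers as numerals) or `Nat.add_mul_div_right`, `Nat.add_mul_mod_self_right`. -/
theorem pk_flds {V n x0 x1 y0 y1 : ℕ} (hV : V = x0 + x1 * 2 ^ 64 + y0 * 2 ^ 128 + y1 * 2 ^ 192 + n * 2 ^ 256)
    (h0 : x0 ≤ n * 2 ^ 37) (h1 : x1 ≤ n * 2 ^ 37) (h2 : y0 ≤ n * 2 ^ 37) (h3 : y1 ≤ n * 2 ^ 37)
    (hn : n ≤ 1000) : Nat.shiftRight V 256 = n ∧ Nat.land V 18446744073709551615 = x0 ∧
      Nat.land (Nat.shiftRight V 64) 18446744073709551615 = x1 ∧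
      Nat.land (Nat.shiftRight V 128) 18446744073709551615 = y0 ∧
      Nat.land (Nat.shiftRight V 192) 18446744073709551615 = y1 := by
  have b0 : x0 < 18446744073709551616 := by omega
  have b1 : x1 < 18446744073709551616 := by omega
  have b2 : y0 < 18446744073709551616 := by omega
  have b3 : y1 < 18446744073709551616 := by omega
  have hl : ∀ a : ℕ, Nat.land a 18446744073709551615 = a % 2 ^ 64 := fun a =>
    Nat.and_two_pow_sub_one_eq_mod a 64
  have hs : ∀ a k : ℕ, Nat.shiftRight a k = a / 2 ^ k := fun a k => Nat.shiftRight_eq_div_pow a k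
  rw [hl, hl, hl, hl, hs, hs, hs, hs]
  refine ⟨?_, ?_, ?_, ?_, ?_⟩
  · omega
  · omega
  · omega
  · omega
  · omega

end H58T
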