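import Pool.Agent.Lib.H58T.L1
import Pool.Agent.Lib.H58T.L2

namespace H58T

theorem l3_sqrt : (√3 : ℝ) ^ 2 = 3 := Real.sq_sqrt (by norm_num)

theorem l3_abs (x O : ℕ) : (((x - O + (O - x) : ℕ) : ℝ)) ^ 2 = ((x : ℝ) - O) ^ 2 := by
  rcases le_total x O with h | h
  · have h1 : x - O + (O - x) = O - x := by omega
    rw [h1, Nat.cast_sub h]; ring
  · have h1 : x - O + (O - x) = x - O := by omega
    rw [h1, Nat.cast_sub h]

/-- **L3 (M).** The norm test.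
PROOF. Obtain the fields of `Pk`, unfold `nrm`, remove `frc` (`frc_eq`), rewrite the fields with `pk_flds` (`Nat.mul`, `Nat.add`, `Nat.sub` are `*`, `+`, `-`). Let `O = 10737418240 n`. Then
`a0 = (x0 - O) + (O - x0)` (truncated) is `|a|` as an integer, so `a0 ^ 2 = a ^ 2`; in the same way `a1 ^ 2 = b ^ 2`, `b0 ^ 2 = c ^ 2`, `b1 ^ 2 = d ^ 2`. With `U = a0² + b0² + 3 (a1² + b1²)`, `P = x0 x1 + y0 y1 + 2 O²`,
`Q = O (x0 + x1 + y0 + y1)` we have `P - Q = a b + c d`. `nneg_spec` gives `0 ≤ (M - U) + (2 Q - 2 P) √3`, and `(a + b √3)² + (c + d √3)² = U + 2 (a b + c d) √3` (`√3² = 3`). -/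
theorem nrm_spec {M V n : ℕ} {a b c d : ℤ} (h : nrm M V = true) (hV : Pk V n a b c d) (hn : n ≤ 1000) :
    ((a : ℝ) + b * √3) ^ 2 + ((c : ℝ) + d * √3) ^ 2 ≤ M := by
  obtain ⟨x0, x1, y0, y1, h1, h2, h3, h4, h5, h6, h7, h8, h9⟩ := hV
  obtain ⟨g0, g1, g2, g3, g4⟩ := pk_flds h1 h2 h3 h4 h5 hn
  unfold nrm at h
  simp only [frc_eq] at h
  rw [g0, g1, g2, g3, g4] at h
  have hO : ∃ O : ℕ, O = 10737418240 * n := ⟨_, rfl⟩
  obtain ⟨O, hO⟩ := hO
  have hO' : Nat.mul 10737418240 n = O := hO.symm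
  rw [hO'] at h
  have h' := nneg_spec h
  have e0 : (a : ℝ) = x0 - O := by
    have : (x0 : ℤ) = a + O := by rw [h6, hO]; push_cast; ring
    have : (x0 : ℝ) = a + O := by exact_mod_cast this
    linarith
  have e1 : (b : ℝ) = x1 - O := by
    have : (x1 : ℤ) = b + O := by rw [h7, hO]; push_cast; ring
    have : (x1 : ℝ) = b + O := by exact_mod_cast this
    linarith
  have e2 : (c : ℝ) = y0 - O := by
    have : (y0 : ℤ) = c + O := by rw [h8, hO]; push_cast; ring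
    have : (y0 : ℝ) = c + O := by exact_mod_cast this
    linarith
  have e3 : (d : ℝ) = y1 - O := by
    have : (y1 : ℤ) = d + O := by rw [h9, hO]; push_cast; ring
    have : (y1 : ℝ) = d + O := by exact_mod_cast this
    linarith
  have a0 := l3_abs x0 O
  have a1 := l3_abs x1 O
  have a2 := l3_abs y0 O
  have a3 := l3_abs y1 O
  have h3' := l3_sqrt
  change (0 : ℝ) ≤ ((M : ℝ) - ((((x0 - O + (O - x0)) * (x0 - O + (O - x0)) + (y0 - O + (O - y0)) * (y0 - O + (O - y0)) +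
    3 * ((x1 - O + (O - x1)) * (x1 - O + (O - x1)) + (y1 - O + (O - y1)) * (y1 - O + (O - y1))) : ℕ)) : ℝ)) +
    (((2 * (O * (x0 + x1 + (y0 + y1))) : ℕ) : ℝ) - ((2 * (x0 * x1 + y0 * y1 + 2 * (O * O)) : ℕ) : ℝ)) * √3 at h'
  generalize x0 - O + (O - x0) = p0 at *
  generalize x1 - O + (O - x1) = p1 at *
  generalize y0 - O + (O - y0) = p2 at *
  generalize y1 - O + (O - y1) = p3 at *
  push_cast at h'
  have key : ((a : ℝ) + b * √3) ^ 2 + ((c : ℝ) + d * √3) ^ 2 =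
      ((p0 : ℝ) * p0 + p2 * p2 + 3 * (p1 * p1 + p3 * p3)) - (2 * (O * (x0 + x1 + (y0 + y1))) -
        2 * (x0 * x1 + y0 * y1 + 2 * (O * O))) * √3 := by
    have q0 : (p0 : ℝ) * p0 = ((x0 : ℝ) - O) ^ 2 := by rw [← a0]; ring
    have q1 : (p1 : ℝ) * p1 = ((x1 : ℝ) - O) ^ 2 := by rw [← a1]; ring
    have q2 : (p2 : ℝ) * p2 = ((y0 : ℝ) - O) ^ 2 := by rw [← a2]; ring
    have q3 : (p3 : ℝ) * p3 = ((y1 : ℝ) - O) ^ 2 := by rw [← a3]; ring
    rw [q0, q1, q2, q3, e0, e1, e2, e3]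
    linear_combination ((((x1 : ℝ) - O) ^ 2 + ((y1 : ℝ) - O) ^ 2)) * h3'
  rw [key]
  linarith

end H58T
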