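import Pool.Agent.Lib.H58T.L1

namespace H58T

theorem l5_kd {j : ℕ} (hj : j < 30) : kd j ≤ 4 := by
  have : kd j = if 20 ≤ j then (j - 20) / 2 else j / 4 := by
    unfold kd
    rw [cnd_eq]
    by_cases h : 20 ≤ j
    · rw [if_pos (ble_iff.mpr h), if_pos h]; rfl
    · rw [if_neg (fun h' => h (ble_iff.mp h')), if_neg h]; rfl
  rw [this]
  split <;> omega

theorem l5_big0 (t g0 g1 : ℕ) : big0 t g0 g1 =
    if t = 0 then g0 + 8589934592 else if t ≤ 2 then 2 * g0 + 3 * g1 else 3 * g1 + 4294967296 := by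
  unfold big0
  rw [cnd_eq, cnd_eq]
  simp only [beq_iff, ble_iff, Nat.add_eq, Nat.mul_eq]

theorem l5_big1 (t g0 g1 : ℕ) : big1 t g0 g1 =
    if t = 0 then g1 + 8589934592 else if t ≤ 2 then (g0 + 2 * g1) + 4294967296
      else g0 + 8589934592 := by
  unfold big1
  rw [cnd_eq, cnd_eq]
  simp only [beq_iff, ble_iff, Nat.add_eq, Nat.mul_eq]

theorem l5_big (t g0 g1 : ℕ) (ht : t ≤ 4) (h0 : g0 < 2 ^ 32) (h1 : g1 < 2 ^ 32) :
    ∃ l0 l1 : ℤ, ((big0 t g0 g1 : ℕ) : ℤ) = l0 + 10737418240 ∧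
      ((big1 t g0 g1 : ℕ) : ℤ) = l1 + 10737418240 ∧
      big0 t g0 g1 ≤ 21474836480 ∧ big1 t g0 g1 ≤ 21474836480 ∧
      ∃ r : ℝ, 0 < r ∧ ((l0 : ℝ) + l1 * √3) =
        r * ((((g0 : ℤ) - 2147483648 : ℤ) : ℝ) + (((g1 : ℤ) - 2147483648 : ℤ) : ℝ) * √3) ∧
        ((t = 2 ∨ t = 4) → r * qr t = pr t) ∧ (¬ (t = 2 ∨ t = 4) → qr t = r * pr t) := by
  have h3 : √3 * √3 = 3 := Real.mul_self_sqrt (by norm_num)
  have h3p : (0 : ℝ) < √3 := Real.sqrt_pos.mpr (by norm_num)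
  interval_cases t
  · have b0 : big0 0 g0 g1 = g0 + 8589934592 := by rw [l5_big0]; norm_num
    have b1 : big1 0 g0 g1 = g1 + 8589934592 := by rw [l5_big1]; norm_num
    refine ⟨(g0 : ℤ) - 2147483648, (g1 : ℤ) - 2147483648, ?_, ?_, ?_, ?_, 1, by norm_num, ?_, ?_, ?_⟩
    · rw [b0]; push_cast; ring
    · rw [b1]; push_cast; ring
    · rw [b0]; omega
    · rw [b1]; omega
    · ring
    · intro h; omega
    · intro _; simp [pr, qr]
  · have b0 : big0 1 g0 g1 = 2 * g0 + 3 * g1 := by rw [l5_big0]; norm_num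
    have b1 : big1 1 g0 g1 = (g0 + 2 * g1) + 4294967296 := by rw [l5_big1]; norm_num
    refine ⟨2 * ((g0 : ℤ) - 2147483648) + 3 * ((g1 : ℤ) - 2147483648),
      ((g0 : ℤ) - 2147483648) + 2 * ((g1 : ℤ) - 2147483648), ?_, ?_, ?_, ?_, 2 + √3, by positivity, ?_, ?_, ?_⟩
    · rw [b0]; push_cast; ring
    · rw [b1]; push_cast; ring
    · rw [b0]; omega
    · rw [b1]; omega
    · push_cast; linear_combination (-((g1 : ℝ) - 2147483648)) * h3
    · intro h; omega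
    · intro _; simp only [pr, qr]; norm_num; linear_combination (-1 : ℝ) * h3
  · have b0 : big0 2 g0 g1 = 2 * g0 + 3 * g1 := by rw [l5_big0]; norm_num
    have b1 : big1 2 g0 g1 = (g0 + 2 * g1) + 4294967296 := by rw [l5_big1]; norm_num
    refine ⟨2 * ((g0 : ℤ) - 2147483648) + 3 * ((g1 : ℤ) - 2147483648),
      ((g0 : ℤ) - 2147483648) + 2 * ((g1 : ℤ) - 2147483648), ?_, ?_, ?_, ?_, 2 + √3, by positivity, ?_, ?_, ?_⟩
    · rw [b0]; push_cast; ring
    · rw [b1]; push_cast; ring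
    · rw [b0]; omega
    · rw [b1]; omega
    · push_cast; linear_combination (-((g1 : ℝ) - 2147483648)) * h3
    · intro _; simp only [pr, qr]; norm_num; linear_combination (1 : ℝ) * h3
    · intro h; omega
  · have b0 : big0 3 g0 g1 = 3 * g1 + 4294967296 := by rw [l5_big0]; norm_num
    have b1 : big1 3 g0 g1 = g0 + 8589934592 := by rw [l5_big1]; norm_num
    refine ⟨3 * ((g1 : ℤ) - 2147483648), ((g0 : ℤ) - 2147483648), ?_, ?_, ?_, ?_, √3, h3p, ?_, ?_, ?_⟩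
    · rw [b0]; push_cast; ring
    · rw [b1]; push_cast; ring
    · rw [b0]; omega
    · rw [b1]; omega
    · push_cast; linear_combination (-((g1 : ℝ) - 2147483648)) * h3
    · intro h; omega
    · intro _; simp only [pr, qr]; norm_num
  · have b0 : big0 4 g0 g1 = 3 * g1 + 4294967296 := by rw [l5_big0]; norm_num
    have b1 : big1 4 g0 g1 = g0 + 8589934592 := by rw [l5_big1]; norm_num
    refine ⟨3 * ((g1 : ℤ) - 2147483648), ((g0 : ℤ) - 2147483648), ?_, ?_, ?_, ?_, √3, h3p, ?_, ?_, ?_⟩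
    · rw [b0]; push_cast; ring
    · rw [b1]; push_cast; ring
    · rw [b0]; omega
    · rw [b1]; omega
    · push_cast; linear_combination (-((g1 : ℝ) - 2147483648)) * h3
    · intro _; simp only [pr, qr]; norm_num
    · intro h; omega

theorem l5_st (b : Bool) (s : ℕ) (v : ℤ) (hs : s ≤ 21474836480) (hv : (s : ℤ) = v + 10737418240) :
    cnd b (Nat.sub 21474836480 s) s ≤ 1 * 2 ^ 37 ∧
      ((cnd b (Nat.sub 21474836480 s) s : ℕ) : ℤ) =
        (if b = true then -v else v) + 10737418240 * ((1 : ℕ) : ℤ) := by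
  rw [cnd_eq]
  have e : Nat.sub 21474836480 s = 21474836480 - s := rfl
  rw [e]
  cases b
  · simp only [Bool.false_eq_true, if_false]
    refine ⟨by omega, by omega⟩
  · simp only [if_true]
    refine ⟨by omega, by omega⟩

theorem l5_pack (x0 x1 y0 y1 : ℕ) :
    pack x0 x1 y0 y1 = x0 + x1 * 2 ^ 64 + y0 * 2 ^ 128 + y1 * 2 ^ 192 + 1 * 2 ^ 256 := by
  have e : pack x0 x1 y0 y1 = x0 + (x1 <<< 64 + (y0 <<< 128 + (y1 <<< 192 + 1 <<< 256))) := rfl
  rw [e]
  simp only [Nat.shiftLeft_eq]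
  ring

theorem l5_gx (c : ℕ) : gx c = if bor (Nat.beq c 0) (Nat.beq c 3) = true then -1 else 1 := by
  unfold gx
  by_cases h : c = 0 ∨ c = 3
  · rw [if_pos h, if_pos]
    rw [bor_iff, beq_iff, beq_iff]; exact h
  · rw [if_neg h, if_neg]
    rw [bor_iff, beq_iff, beq_iff]; exact h

theorem l5_gy (c : ℕ) : gy c = if Nat.ble 2 c = true then -1 else 1 := by
  unfold gy
  by_cases h : 2 ≤ c
  · rw [if_pos h, if_pos (ble_iff.mpr h)]
  · rw [if_neg h, if_neg (fun h' => h (ble_iff.mp h'))]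

/-- one coordinate with its sign -/
theorem l5_co (b : Bool) (g : ℝ) (hg : g = if b = true then -1 else 1) (s0 s1 : ℕ) (v0 v1 : ℤ)
    (hs0 : s0 ≤ 21474836480) (hs1 : s1 ≤ 21474836480) (h0 : (s0 : ℤ) = v0 + 10737418240)
    (h1 : (s1 : ℤ) = v1 + 10737418240) :
    ∃ a b' : ℤ, cnd b (Nat.sub 21474836480 s0) s0 ≤ 1 * 2 ^ 37 ∧
      cnd b (Nat.sub 21474836480 s1) s1 ≤ 1 * 2 ^ 37 ∧
      ((cnd b (Nat.sub 21474836480 s0) s0 : ℕ) : ℤ) = a + 10737418240 * ((1 : ℕ) : ℤ) ∧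
      ((cnd b (Nat.sub 21474836480 s1) s1 : ℕ) : ℤ) = b' + 10737418240 * ((1 : ℕ) : ℤ) ∧
      ((a : ℝ) + b' * √3) = g * ((v0 : ℝ) + v1 * √3) := by
  obtain ⟨p1, p2⟩ := l5_st b s0 v0 hs0 h0
  obtain ⟨p3, p4⟩ := l5_st b s1 v1 hs1 h1
  refine ⟨_, _, p1, p3, p2, p4, ?_⟩
  rw [hg]
  cases b
  · simp
  · simp; ring

/-- **L5 (M/L).** The vector of a leaf.
PROOF. Let `B = 2147483648`, `u0 = g0 - B`, `u1 = g1 - B` (integers), `t = kd j ≤ 4`, `c = cor j ≤ 3`. The short coordinate is `u0 + u1 √3`, stored as `s0 = g0 + 4 B = u0 + 5 B`, `s1`; the long coordinate is `r (u0 + u1 √3)` with the ratio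
`r = 1` (`t = 0`), `r = 2 + √3` (`t = 1, 2`; `(√3 + 1) / (√3 - 1) = 2 + √3`), `r = √3` (`t = 3, 4`), i.e. `l0 + l1 √3` with `(l0, l1) = (u0, u1)`, `(2 u0 + 3 u1, u0 + 2 u1)`, `(3 u1, u0)`; check `big0 t g0 g1 = l0 + 5 B`, `big1 t g0 g1 = l1 + 5 B`.
For `t = 0, 1, 3` the first coordinate is the short one (`pr t ≤ qr t`), for `t = 2, 4` the second. A coordinate with sign `-1` (`gx c = -1` for `c = 0, 3`; `gy c = -1` for `c = 2, 3`) is stored as `10 B - s`, which is `- value + 5 B`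
(no truncation: `s ≤ 10 B`). So with `V = pack x0 x1 y0 y1` (`Nat.shiftLeft_eq`) we get `Pk V 1 a b c d` where `(a + b √3, c + d √3) = (gx c * first, gy c * second)`. Bounds: all numbers are `≤ 10 B < 2^37`.
Suggested: first prove for each `t ∈ {0, .., 4}` and each pair of signs; `interval_cases j` (30 cases, each by `simp`, `norm_num`, `omega`, `nlinarith`/`ring` with `√3 * √3 = 3`) is also possible, but do the sign cases by a lemma.
Sign: if `0 ≤ u0 + u1 √3` (`nneg_spec`), both coordinates times their signs are nonnegative. Value: `gx * x + gy * y = short + long`. -/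
theorem lvec_spec {j g0 g1 : ℕ} (hj : j < 30) (h0 : g0 < 2 ^ 32) (h1 : g1 < 2 ^ 32) :
    ∃ (V : ℕ) (a b c d : ℤ), (∀ k : ℕ → Bool, lvec j g0 g1 k = k V) ∧ Pk V 1 a b c d ∧
      ((a : ℝ) + b * √3) * dY j = ((c : ℝ) + d * √3) * dX j ∧
      (nneg g0 2147483648 g1 2147483648 = true →
        0 ≤ gx (cor j) * ((a : ℝ) + b * √3) ∧ 0 ≤ gy (cor j) * ((c : ℝ) + d * √3)) ∧
      gx (cor j) * ((a : ℝ) + b * √3) + gy (cor j) * ((c : ℝ) + d * √3) =
        (((g0 + 8589934592 + big0 (kd j) g0 g1 : ℕ) : ℝ) - 21474836480) +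
        (((g1 + 8589934592 + big1 (kd j) g0 g1 : ℕ) : ℝ) - 21474836480) * √3 := by
  set u0 : ℤ := (g0 : ℤ) - 2147483648 with hu0
  set u1 : ℤ := (g1 : ℤ) - 2147483648 with hu1
  obtain ⟨l0, l1, c1, c2, c3, c4, r, hr, hrel, hd1, hd2⟩ := l5_big (kd j) g0 g1 (l5_kd hj) h0 h1
  rw [← hu0, ← hu1] at hrel
  have s1 : g0 + 8589934592 ≤ 21474836480 := by omega
  have s2 : g1 + 8589934592 ≤ 21474836480 := by omega
  have s3 : ((g0 + 8589934592 : ℕ) : ℤ) = u0 + 10737418240 := by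
    rw [hu0]; push_cast; ring
  have s4 : ((g1 + 8589934592 : ℕ) : ℤ) = u1 + 10737418240 := by
    rw [hu1]; push_cast; ring
  have gxs : gx (cor j) * gx (cor j) = 1 := by
    unfold gx; split <;> norm_num
  have gys : gy (cor j) * gy (cor j) = 1 := by
    unfold gy; split <;> norm_num
  have hvS : (((g0 + 8589934592 + big0 (kd j) g0 g1 : ℕ) : ℝ) - 21474836480) +
        (((g1 + 8589934592 + big1 (kd j) g0 g1 : ℕ) : ℝ) - 21474836480) * √3 =
        ((u0 : ℝ) + u1 * √3) + ((l0 : ℝ) + l1 * √3) := by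
    have d1 : ((g0 + 8589934592 + big0 (kd j) g0 g1 : ℕ) : ℝ) = (u0 : ℝ) + l0 + 21474836480 := by
      have : ((g0 + 8589934592 + big0 (kd j) g0 g1 : ℕ) : ℤ) = u0 + l0 + 21474836480 := by
        push_cast; rw [c1, hu0]; ring
      exact_mod_cast this
    have d2 : ((g1 + 8589934592 + big1 (kd j) g0 g1 : ℕ) : ℝ) = (u1 : ℝ) + l1 + 21474836480 := by
      have : ((g1 + 8589934592 + big1 (kd j) g0 g1 : ℕ) : ℤ) = u1 + l1 + 21474836480 := by
        push_cast; rw [c2, hu1]; ring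
      exact_mod_cast this
    rw [d1, d2]; ring
  have hS : nneg g0 2147483648 g1 2147483648 = true → 0 ≤ (u0 : ℝ) + u1 * √3 := by
    intro h
    have := nneg_spec h
    rw [hu0, hu1]
    push_cast
    push_cast at this
    linarith
  by_cases ht : kd j = 2 ∨ kd j = 4
  · obtain ⟨a, b, q1, q2, q3, q4, q5⟩ := l5_co (bor (Nat.beq (cor j) 0) (Nat.beq (cor j) 3)) (gx (cor j))
      (l5_gx _) _ _ l0 l1 c3 c4 c1 c2
    obtain ⟨c, d, q1', q2', q3', q4', q5'⟩ := l5_co (Nat.ble 2 (cor j)) (gy (cor j))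
      (l5_gy _) _ _ u0 u1 s1 s2 s3 s4
    have hb : bor (Nat.beq (kd j) 2) (Nat.beq (kd j) 4) = true := by
      rw [bor_iff, beq_iff, beq_iff]; exact ht
    refine ⟨_, a, b, c, d, ?_, ⟨_, _, _, _, l5_pack _ _ _ _, q1, q2, q1', q2', q3, q4, q3', q4'⟩, ?_, ?_, ?_⟩
    · intro k
      simp only [lvec, frc_eq, hb]
    · rw [q5, q5', hrel]
      unfold dX dY
      have := hd1 ht
      rw [← this]
      ring
    · intro h
      have h' := hS h
      rw [q5, q5', ← mul_assoc, ← mul_assoc, gxs, gys, one_mul, one_mul, hrel]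
      exact ⟨mul_nonneg hr.le h', h'⟩
    · rw [q5, q5', ← mul_assoc, ← mul_assoc, gxs, gys, one_mul, one_mul, hvS]
      ring
  · obtain ⟨a, b, q1, q2, q3, q4, q5⟩ := l5_co (bor (Nat.beq (cor j) 0) (Nat.beq (cor j) 3)) (gx (cor j))
      (l5_gx _) _ _ u0 u1 s1 s2 s3 s4
    obtain ⟨c, d, q1', q2', q3', q4', q5'⟩ := l5_co (Nat.ble 2 (cor j)) (gy (cor j))
      (l5_gy _) _ _ l0 l1 c3 c4 c1 c2
    have hb : bor (Nat.beq (kd j) 2) (Nat.beq (kd j) 4) = false := by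
      rw [← Bool.not_eq_true, bor_iff, beq_iff, beq_iff]; exact ht
    refine ⟨_, a, b, c, d, ?_, ⟨_, _, _, _, l5_pack _ _ _ _, q1, q2, q1', q2', q3, q4, q3', q4'⟩, ?_, ?_, ?_⟩
    · intro k
      simp only [lvec, frc_eq, hb]
    · rw [q5, q5', hrel]
      unfold dX dY
      have := hd2 ht
      rw [this]
      ring
    · intro h
      have h' := hS h
      rw [q5, q5', ← mul_assoc, ← mul_assoc, gxs, gys, one_mul, one_mul, hrel]
      exact ⟨h', mul_nonneg hr.le h'⟩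
    · rw [q5, q5', ← mul_assoc, ← mul_assoc, gxs, gys, one_mul, one_mul, hvS]

end H58T
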