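import Pool.Agent.Lib.H58T.L5

namespace H58T

open Finset

/-- the recursion of `lvs`, started at `m` -/
noncomputable def l6N (E S m : ℕ) :
    ℕ → ℕ → ℕ → ℕ → (List (ℕ × ℕ) → ℕ → ℕ → ℕ → ℕ → Bool) → Bool :=
  Nat.rec (motive := fun _ => ℕ → ℕ → ℕ → ℕ → (List (ℕ × ℕ) → ℕ → ℕ → ℕ → ℕ → Bool) → Bool)
    (fun i v0 v1 n k => k [] i v0 v1 n)
    (fun j r i v0 v1 n k => Bool.rec (r i v0 v1 n k)
      (frc (fld E i) fun g0 => frc (fld E (Nat.succ i)) fun g1 => frc (Nat.add i 2) fun i' =>
       lvec j g0 g1 fun V =>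
        Bool.rec (r i' v0 v1 n fun L => k ((j, V) :: L))
          (band (nneg g0 2147483648 g1 2147483648)
            (frc (Nat.add v0 (Nat.add (Nat.add g0 8589934592) (big0 (kd j) g0 g1))) fun v0' =>
             frc (Nat.add v1 (Nat.add (Nat.add g1 8589934592) (big1 (kd j) g0 g1))) fun v1' =>
             frc (Nat.succ n) fun n' => r i' v0' v1' n' fun L => k ((j, V) :: L)))
          (Nat.ble (Nat.succ j) 20))
      (tb S j)) m

theorem l6_succ (E S m i v0 v1 n : ℕ) (k : List (ℕ × ℕ) → ℕ → ℕ → ℕ → ℕ → Bool) :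
    l6N E S (m + 1) i v0 v1 n k = Bool.rec (l6N E S m i v0 v1 n k)
      (frc (fld E i) fun g0 => frc (fld E (Nat.succ i)) fun g1 => frc (Nat.add i 2) fun i' =>
       lvec m g0 g1 fun V =>
        Bool.rec (l6N E S m i' v0 v1 n fun L => k ((m, V) :: L))
          (band (nneg g0 2147483648 g1 2147483648)
            (frc (Nat.add v0 (Nat.add (Nat.add g0 8589934592) (big0 (kd m) g0 g1))) fun v0' =>
             frc (Nat.add v1 (Nat.add (Nat.add g1 8589934592) (big1 (kd m) g0 g1))) fun v1' =>
             frc (Nat.succ n) fun n' => l6N E S m i' v0' v1' n' fun L => k ((m, V) :: L)))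
          (Nat.ble (Nat.succ m) 20))
      (tb S m) := rfl

/-- the term of the value sum -/
noncomputable def l6t (a b c d : ℕ → ℤ) (j : ℕ) : ℝ :=
  gx (cor j) * ((a j : ℝ) + b j * √3) + gy (cor j) * ((c j : ℝ) + d j * √3)

theorem l6_upd (a b c d : ℕ → ℤ) (m : ℕ) (a0 b0 c0 d0 : ℤ)
    (h0 : a m = 0 ∧ b m = 0 ∧ c m = 0 ∧ d m = 0) :
    ∑ j ∈ range 20, l6t (Function.update a m a0) (Function.update b m b0)
      (Function.update c m c0) (Function.update d m d0) j =
    ∑ j ∈ range 20, l6t a b c d j + (if m < 20 then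
      gx (cor m) * ((a0 : ℝ) + b0 * √3) + gy (cor m) * ((c0 : ℝ) + d0 * √3) else 0) := by
  have h : ∀ j ∈ range 20, l6t (Function.update a m a0) (Function.update b m b0)
      (Function.update c m c0) (Function.update d m d0) j = l6t a b c d j +
      (if j = m then gx (cor m) * ((a0 : ℝ) + b0 * √3) + gy (cor m) * ((c0 : ℝ) + d0 * √3) else 0) := by
    intro j _
    by_cases hj : j = m
    · subst hj
      simp [l6t, h0.1, h0.2.1, h0.2.2.1, h0.2.2.2]
    · simp [l6t, hj]
  rw [Finset.sum_congr rfl h, Finset.sum_add_distrib, Finset.sum_ite_eq']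
  simp only [Finset.mem_range]

theorem l6_aux (E S m : ℕ) (hm : m ≤ 30) : ∀ (i v0 v1 n : ℕ)
    (k : List (ℕ × ℕ) → ℕ → ℕ → ℕ → ℕ → Bool), l6N E S m i v0 v1 n k = true →
    ∃ (L : List (ℕ × ℕ)) (i' v0' v1' n' : ℕ) (a b c d : ℕ → ℤ), k L i' v0' v1' n' = true ∧
      (L.map Prod.fst).Nodup ∧
      (∀ j, (∃ V, (j, V) ∈ L) ↔ j < m ∧ S.testBit j = true) ∧
      (∀ p ∈ L, Pk p.2 1 (a p.1) (b p.1) (c p.1) (d p.1)) ∧
      (∀ j, ¬ (j < m ∧ S.testBit j = true) → a j = 0 ∧ b j = 0 ∧ c j = 0 ∧ d j = 0) ∧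
      (∀ j, ((a j : ℝ) + b j * √3) * dY j = ((c j : ℝ) + d j * √3) * dX j) ∧
      (∀ j, j < 20 → 0 ≤ gx (cor j) * ((a j : ℝ) + b j * √3) ∧ 0 ≤ gy (cor j) * ((c j : ℝ) + d j * √3)) ∧
      ∑ j ∈ range 20, l6t a b c d j =
        (((v0' : ℝ) - v0) - 21474836480 * ((n' : ℝ) - n)) +
        (((v1' : ℝ) - v1) - 21474836480 * ((n' : ℝ) - n)) * √3 := by
  induction m with
  | zero =>
    intro i v0 v1 n k h
    refine ⟨[], i, v0, v1, n, fun _ => 0, fun _ => 0, fun _ => 0, fun _ => 0, h, by simp, by simp,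
      by simp, by simp, by simp, by simp, ?_⟩
    simp [l6t]
  | succ m ih =>
    intro i v0 v1 n k h
    have ih' := ih (by omega)
    rw [l6_succ, brec_eq] at h
    by_cases hb : tb S m = true
    · rw [if_pos hb] at h
      rw [tb_eq] at hb
      rw [frc_eq, frc_eq, frc_eq] at h
      obtain ⟨V, a0, b0, c0, d0, hk, hpk, hdir, hsgn, hval⟩ :=
        lvec_spec (j := m) (by omega) (fld_lt E i) (fld_lt E (Nat.succ i))
      rw [hk, brec_eq] at h
      -- common final step
      have fin : ∀ (v0' v1' n' : ℕ), (m < 20 → 0 ≤ gx (cor m) * ((a0 : ℝ) + b0 * √3) ∧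
          0 ≤ gy (cor m) * ((c0 : ℝ) + d0 * √3)) →
          (((v0' : ℝ) - v0) - 21474836480 * ((n' : ℝ) - n)) +
            (((v1' : ℝ) - v1) - 21474836480 * ((n' : ℝ) - n)) * √3 = (if m < 20 then
            gx (cor m) * ((a0 : ℝ) + b0 * √3) + gy (cor m) * ((c0 : ℝ) + d0 * √3) else 0) →
          l6N E S m (Nat.add i 2) v0' v1' n' (fun L => k ((m, V) :: L)) = true →
          ∃ (L : List (ℕ × ℕ)) (i' v0' v1' n' : ℕ) (a b c d : ℕ → ℤ), k L i' v0' v1' n' = true ∧
            (L.map Prod.fst).Nodup ∧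
            (∀ j, (∃ V, (j, V) ∈ L) ↔ j < m + 1 ∧ S.testBit j = true) ∧
            (∀ p ∈ L, Pk p.2 1 (a p.1) (b p.1) (c p.1) (d p.1)) ∧
            (∀ j, ¬ (j < m + 1 ∧ S.testBit j = true) → a j = 0 ∧ b j = 0 ∧ c j = 0 ∧ d j = 0) ∧
            (∀ j, ((a j : ℝ) + b j * √3) * dY j = ((c j : ℝ) + d j * √3) * dX j) ∧
            (∀ j, j < 20 → 0 ≤ gx (cor j) * ((a j : ℝ) + b j * √3) ∧
              0 ≤ gy (cor j) * ((c j : ℝ) + d j * √3)) ∧
            ∑ j ∈ range 20, l6t a b c d j =
              (((v0' : ℝ) - v0) - 21474836480 * ((n' : ℝ) - n)) +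
              (((v1' : ℝ) - v1) - 21474836480 * ((n' : ℝ) - n)) * √3 := by
        intro w0 w1 n1 hs hv hr
        obtain ⟨L, i2, v2, v3, n2, a, b, c, d, e1, e2, e3, e4, e5, e6, e7, e8⟩ := ih' _ _ _ _ _ hr
        have hz : a m = 0 ∧ b m = 0 ∧ c m = 0 ∧ d m = 0 := e5 m (by omega)
        have hnot : ∀ p ∈ L, p.1 ≠ m := by
          intro p hp hpm
          have := (e3 p.1).mp ⟨p.2, hp⟩
          omega
        refine ⟨(m, V) :: L, i2, v2, v3, n2, Function.update a m a0, Function.update b m b0,
          Function.update c m c0, Function.update d m d0, e1, ?_, ?_, ?_, ?_, ?_, ?_, ?_⟩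
        · rw [List.map_cons, List.nodup_cons]
          refine ⟨?_, e2⟩
          intro hmem
          obtain ⟨p, hp, hpm⟩ := List.mem_map.mp hmem
          exact hnot p hp hpm
        · intro j
          constructor
          · rintro ⟨W, hW⟩
            rcases List.mem_cons.mp hW with h1 | h1
            · have : j = m := congrArg Prod.fst h1
              subst this
              exact ⟨by omega, hb⟩
            · have := (e3 j).mp ⟨W, h1⟩
              exact ⟨by omega, this.2⟩
          · rintro ⟨h1, h2⟩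
            by_cases hj : j = m
            · subst hj
              exact ⟨V, List.mem_cons_self⟩
            · obtain ⟨W, hW⟩ := (e3 j).mpr ⟨by omega, h2⟩
              exact ⟨W, List.mem_cons_of_mem _ hW⟩
        · intro p hp
          rcases List.mem_cons.mp hp with h1 | h1
          · subst h1
            simpa using hpk
          · have := hnot p h1
            simp only [Function.update_of_ne this]
            exact e4 p h1
        · intro j hj
          have hjm : j ≠ m := by
            intro h1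
            subst h1
            exact hj ⟨by omega, hb⟩
          simp only [Function.update_of_ne hjm]
          exact e5 j (fun h1 => hj ⟨by omega, h1.2⟩)
        · intro j
          by_cases hjm : j = m
          · subst hjm
            simpa using hdir
          · simp only [Function.update_of_ne hjm]
            exact e6 j
        · intro j hj
          by_cases hjm : j = m
          · subst hjm
            simpa using hs hj
          · simp only [Function.update_of_ne hjm]
            exact e7 j hj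
        · rw [l6_upd a b c d m a0 b0 c0 d0 hz, e8, ← hv]
          ring
      by_cases hlt : m < 20
      · rw [if_pos (ble_iff.mpr hlt), band_iff, frc_eq, frc_eq, frc_eq] at h
        refine fin _ _ _ (fun _ => hsgn h.1) ?_ h.2
        rw [if_pos hlt, hval]
        have e1 : ((Nat.add v0 (Nat.add (Nat.add (fld E i) 8589934592)
            (big0 (kd m) (fld E i) (fld E (Nat.succ i)))) : ℕ) : ℝ) = (v0 : ℝ) +
            ((fld E i + 8589934592 + big0 (kd m) (fld E i) (fld E (Nat.succ i)) : ℕ) : ℝ) := by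
          rw [← Nat.cast_add]; rfl
        have e2 : ((Nat.add v1 (Nat.add (Nat.add (fld E (Nat.succ i)) 8589934592)
            (big1 (kd m) (fld E i) (fld E (Nat.succ i)))) : ℕ) : ℝ) = (v1 : ℝ) +
            ((fld E (Nat.succ i) + 8589934592 + big1 (kd m) (fld E i) (fld E (Nat.succ i)) : ℕ) : ℝ) := by
          rw [← Nat.cast_add]; rfl
        have e3 : ((Nat.succ n : ℕ) : ℝ) = (n : ℝ) + 1 := by
          push_cast; ring
        rw [e1, e2, e3]
        ring
      · have hbf : ¬ (Nat.ble (Nat.succ m) 20 = true) := fun h' => hlt (ble_iff.mp h')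
        rw [if_neg hbf] at h
        refine fin _ _ _ (fun h' => absurd h' hlt) ?_ h
        rw [if_neg hlt]
        ring
    · rw [if_neg hb] at h
      rw [tb_eq] at hb
      obtain ⟨L, i2, v2, v3, n2, a, b, c, d, e1, e2, e3, e4, e5, e6, e7, e8⟩ := ih' _ _ _ _ _ h
      refine ⟨L, i2, v2, v3, n2, a, b, c, d, e1, e2, ?_, e4, ?_, e6, e7, e8⟩
      · intro j
        rw [e3]
        constructor
        · rintro ⟨h1, h2⟩
          exact ⟨by omega, h2⟩
        · rintro ⟨h1, h2⟩
          refine ⟨?_, h2⟩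
          by_contra h3
          have : j = m := by omega
          subst this
          exact hb h2
      · intro j hj
        exact e5 j (fun h1 => hj ⟨by omega, h1.2⟩)

/-- **L6 (M).** The vectors of a component.
PROOF. Prove by induction on `m ≤ 30` (for all `i v0 v1 n k`) the same statement for the function `lvsN m` which is defined as `lvs` with the recursion started at `m` instead of `30` (`lvs E S i v0 v1 n k = lvsN 30 ...` is `rfl`), where in `Vecs` the bound
`30` is replaced by `m` (own auxiliary structure or conjunction `l6_...`) and the value sum runs over `j < m`, `j < 20`.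
`m = 0`: `L = []`, all functions zero. `m + 1`: if bit `m` of `S` is not set: the induction hypothesis, value unchanged. If it is set: remove `frc`, `lvec_spec` for `j = m` (fields are `< 2^32` by `fld_lt`) gives `V, a, b, c, d`; if `m < 20`:
`nneg ...` is true (sign) and the values are added, `n' = n + 1`; then apply the induction hypothesis to the inner call with the continuation `fun L => k ((m, V) :: L)`, and update the functions at `m` (`Function.update`). The keys of the inner list are `< m`, so `nodup` holds. -/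
theorem lvs_spec {E S i v0 v1 n : ℕ} {k : List (ℕ × ℕ) → ℕ → ℕ → ℕ → ℕ → Bool}
    (h : lvs E S i v0 v1 n k = true) :
    ∃ (L : List (ℕ × ℕ)) (i' v0' v1' n' : ℕ) (a b c d : ℕ → ℤ), k L i' v0' v1' n' = true ∧
      Vecs S L a b c d ∧
      (∀ j, ((a j : ℝ) + b j * √3) * dY j = ((c j : ℝ) + d j * √3) * dX j) ∧
      (∀ j, j < 20 → 0 ≤ gx (cor j) * ((a j : ℝ) + b j * √3) ∧ 0 ≤ gy (cor j) * ((c j : ℝ) + d j * √3)) ∧
      ∑ j ∈ range 20, (gx (cor j) * ((a j : ℝ) + b j * √3) + gy (cor j) * ((c j : ℝ) + d j * √3)) =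
        (((v0' : ℝ) - v0) - 21474836480 * ((n' : ℝ) - n)) +
        (((v1' : ℝ) - v1) - 21474836480 * ((n' : ℝ) - n)) * √3 := by
  obtain ⟨L, i2, v2, v3, n2, a, b, c, d, e1, e2, e3, e4, e5, e6, e7, e8⟩ :=
    l6_aux E S 30 le_rfl i v0 v1 n k h
  exact ⟨L, i2, v2, v3, n2, a, b, c, d, e1, ⟨e2, e3, e4, e5⟩, e6, e7, e8⟩

end H58T
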