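import Pool.Agent.Lib.H58T.C0

namespace H58T

open Finset

theorem l9a_one {x y : ℕ → ℝ} {M : ℝ} (h1 : ∀ k, x k ^ 2 + y k ^ 2 ≤ M) {w : ℕ}
    (hw : w = 0 ∨ ∃ k, w = 2 ^ k) :
    (∑ k ∈ range 30 with w.testBit k = true, x k) ^ 2 +
      (∑ k ∈ range 30 with w.testBit k = true, y k) ^ 2 ≤ M := by
  have h0 : (0 : ℝ) ≤ M := le_trans (by positivity) (h1 0)
  rcases hw with rfl | ⟨j, rfl⟩
  · have e : (range 30).filter (fun k => Nat.testBit 0 k = true) = ∅ := by
      apply Finset.filter_false_of_mem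
      intro k _
      rw [Nat.zero_testBit]
      simp
    rw [e]
    simpa using h0
  · have e : ∀ z : ℕ → ℝ, ∑ k ∈ range 30 with (2 ^ j).testBit k = true, z k = if j < 30 then z j else 0 := by
      intro z
      by_cases hj : j < 30
      · rw [if_pos hj]
        have e1 : (range 30).filter (fun k => (2 ^ j).testBit k = true) = {j} := by
          ext k
          rw [Finset.mem_filter, Finset.mem_range, Nat.testBit_two_pow, decide_eq_true_eq, Finset.mem_singleton]
          constructor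
          · rintro ⟨_, h⟩
            exact h.symm
          · rintro rfl
            exact ⟨hj, rfl⟩
        rw [e1, Finset.sum_singleton]
      · rw [if_neg hj]
        apply Finset.sum_eq_zero
        intro k hk
        rw [Finset.mem_filter, Finset.mem_range, Nat.testBit_two_pow, decide_eq_true_eq] at hk
        omega
    rw [e, e]
    by_cases hj : j < 30
    · rw [if_pos hj, if_pos hj]
      exact h1 j
    · rw [if_neg hj, if_neg hj]
      simpa using h0

theorem l9a_sum {S : ℕ} {A : Finset ℕ} (hA : A ⊆ range 30) {z : ℕ → ℝ}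
    (hout : ∀ k, ¬ (k < 30 ∧ S.testBit k = true) → z k = 0) :
    ∑ k ∈ A, z k = ∑ k ∈ range 30 with (msk A S).testBit k = true, z k := by
  have e1 : A = (range 30).filter (fun k => k ∈ A) := by
    ext k
    rw [Finset.mem_filter]
    exact ⟨fun h => ⟨hA h, h⟩, fun h => h.2⟩
  conv_lhs => rw [e1]
  rw [Finset.sum_filter, Finset.sum_filter]
  refine Finset.sum_congr rfl (fun k hk => ?_)
  rw [testBit_msk hA]
  by_cases h1 : k ∈ A
  · by_cases h2 : S.testBit k = true
    · simp [h1, h2]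
    · have := hout k (fun h => h2 h.2)
      simp [h1, h2, this]
  · simp [h1]

theorem l9a_compl {S : ℕ} {A : Finset ℕ} (hA : A ⊆ range 30) {z : ℕ → ℝ}
    (hout : ∀ k, ¬ (k < 30 ∧ S.testBit k = true) → z k = 0) (hz : ∑ k ∈ range 30, z k = 0) :
    ∑ k ∈ range 30 with (msk A S ^^^ S).testBit k = true, z k =
      - ∑ k ∈ range 30 with (msk A S).testBit k = true, z k := by
  rw [eq_neg_iff_add_eq_zero, ← hz, Finset.sum_filter, Finset.sum_filter, ← Finset.sum_add_distrib]
  refine Finset.sum_congr rfl (fun k hk => ?_)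
  rw [Nat.testBit_xor, testBit_msk hA]
  by_cases h2 : S.testBit k = true
  · by_cases h1 : k ∈ A
    · simp [h1, h2]
    · simp [h1, h2]
  · have := hout k (fun h => h2 h.2)
    simp [h2, this]

/-- **L9A (M).** The flow through a cut of the world, in terms of the mask.
PROOF. Let `v = msk A S`. The sum over `A` is the sum over `k ∈ range 30` with `v.testBit k` (`testBit_msk`; `A ⊆ range 30`; `x k = 0` if `S.testBit k` is false). The sum over `k ∈ range 30` with `(v ^^^ S).testBit k` is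
the sum over the bits of `S` outside `A`, so the two sums add up to `0` (`hsum`). Cases of `Cut S C v` (`triv_iff`): `v = 0`: both sums are `0`. `v = 2 ^ j`: the sums are `x j, y j` (`j < 30`; if `j ≥ 30` they are `0`). `v ^^^ S = 0` or `2 ^ j`: the same for the negative sums.
`v ∈ C`, `v ^^^ S ∈ C`: `hC`. (`(-s) ^ 2 = s ^ 2`.) -/
theorem cut_bound {S : ℕ} {C : List ℕ} {A : Finset ℕ} (hA : A ⊆ range 30) (hc : Cut S C (msk A S))
    {x y : ℕ → ℝ} {M : ℝ} (hout : ∀ k, ¬ (k < 30 ∧ S.testBit k = true) → x k = 0 ∧ y k = 0)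
    (hx : ∑ k ∈ range 30, x k = 0) (hy : ∑ k ∈ range 30, y k = 0) (h1 : ∀ k, x k ^ 2 + y k ^ 2 ≤ M)
    (hC : ∀ w ∈ C, (∑ k ∈ range 30 with w.testBit k = true, x k) ^ 2 +
      (∑ k ∈ range 30 with w.testBit k = true, y k) ^ 2 ≤ M) :
    (∑ k ∈ A, x k) ^ 2 + (∑ k ∈ A, y k) ^ 2 ≤ M := by
  have ox : ∀ k, ¬ (k < 30 ∧ S.testBit k = true) → x k = 0 := fun k h => (hout k h).1
  have oy : ∀ k, ¬ (k < 30 ∧ S.testBit k = true) → y k = 0 := fun k h => (hout k h).2
  have key : ∀ w : ℕ, (w = msk A S ∨ w = msk A S ^^^ S) →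
      (∑ k ∈ range 30 with w.testBit k = true, x k) ^ 2 +
        (∑ k ∈ range 30 with w.testBit k = true, y k) ^ 2 ≤ M →
      (∑ k ∈ A, x k) ^ 2 + (∑ k ∈ A, y k) ^ 2 ≤ M := by
    intro w hw h
    rw [l9a_sum hA ox, l9a_sum hA oy]
    rcases hw with rfl | rfl
    · exact h
    · rw [l9a_compl hA ox hx, l9a_compl hA oy hy, neg_sq, neg_sq] at h
      exact h
  rcases hc with h | h | h
  · rw [triv_iff] at h
    rcases h with h | h
    · exact key _ (Or.inl rfl) (l9a_one h1 h)
    · exact key _ (Or.inr rfl) (l9a_one h1 h)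
  · exact key _ (Or.inl rfl) (hC _ h)
  · exact key _ (Or.inr rfl) (hC _ h)

end H58T
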