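import Pool.Agent.Lib.H58T.YT

/-! H58T: the kernel checks the table of the connected case. -/

namespace H58T

theorem ya_ok : chkR 1 2 2 YT 0 246 = true := by decide +kernel

end H58T
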