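import Pool.Agent.Lib.H58T.C5A
import Pool.Agent.Lib.H58T.G9B
import Pool.Agent.Lib.H58T.KA
import Pool.Agent.Lib.H58T.YA

/-! # H58T: the theorem on connected sets, from the table -/

namespace H58T

theorem good_YT : ∀ j < 246, Good 1 (2 + 2 * √3) (cfgE (bgv YT j)) := by
  have e : ((1 : ℕ) : ℝ) = 1 ∧ ((2 : ℕ) : ℝ) = 2 := by norm_num
  have h0 := chkR_sound (R := 1) (T0 := 2) (T1 := 2) (by norm_num) ya_ok (fun j hj => absurd hj (by omega))
  intro j hj
  have := h0 j (by omega)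
  rwa [e.1, e.2] at this

theorem world1 (Λ : ℝ) (w : World Λ) (hw : ∀ k < 20, w.pres 0 k) : 2 + 2 * √3 ≤ 2 * √1 * Λ := by
  refine roots1 (R := 1) ?_ w hw
  intro Λ w hw
  have h : bget YT 245 (mt 0 0 1048575 0 [] []) = true := by decide +kernel
  rw [bget_eq] at h
  exact good_YT 245 (by norm_num) Λ w (mt_sound h w hw.c0 hw.c1 hw.s0 hw.s1 hw.q0 hw.q1)

end H58T
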