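import Pool.Agent.Lib.H58T.XT

/-! H58T: the kernel checks the entries 4800, ..., 6350 of the table of the two component case. -/

namespace H58T

theorem xd_ok : chkR 2 4 2 XT 4800 1551 = true := by decide +kernel

end H58T
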