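import Pool.Agent.Lib.H58T.C5
import Pool.Agent.Lib.H58T.G9A
import Pool.Agent.Lib.H58T.KA
import Pool.Agent.Lib.H58T.XA
import Pool.Agent.Lib.H58T.XB
import Pool.Agent.Lib.H58T.XC
import Pool.Agent.Lib.H58T.XD

/-! # H58T: the theorem on two components, from the table -/

namespace H58T

/-- A root of the table. -/
theorem root_good {R T : ℝ} {X : BT} {r P0 P1 : ℕ} (hg : Good R T (cfgE (bgv X r)))
    (h : bget X r (mt 0 0 P0 P1 [] []) = true) : Good R T (rt P0 P1) := by
  intro Λ w hw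
  rw [bget_eq] at h
  exact hg Λ w (mt_sound h w hw.c0 hw.c1 hw.s0 hw.s1 hw.q0 hw.q1)

theorem good_XT : ∀ j < 6351, Good 2 (4 + 2 * √3) (cfgE (bgv XT j)) := by
  have e : ((2 : ℕ) : ℝ) = 2 ∧ ((4 : ℕ) : ℝ) = 4 := by norm_num
  have h0 := chkR_sound (R := 2) (T0 := 4) (T1 := 2) (by norm_num) xa_ok (fun j hj => absurd hj (by omega))
  have h1 := chkR_sound (R := 2) (T0 := 4) (T1 := 2) (by norm_num) xb_ok (fun j hj => h0 j (by omega))
  have h2 := chkR_sound (R := 2) (T0 := 4) (T1 := 2) (by norm_num) xc_ok (fun j hj => h1 j (by omega))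
  have h3 := chkR_sound (R := 2) (T0 := 4) (T1 := 2) (by norm_num) xd_ok (fun j hj => h2 j (by omega))
  intro j hj
  have := h3 j (by omega)
  rwa [e.1, e.2] at this

theorem world2 (Λ : ℝ) (w : World Λ) : 4 + 2 * √3 ≤ 2 * √2 * Λ :=
  roots2 (root_good (good_XT 1625 (by norm_num)) (by decide +kernel))
    (root_good (good_XT 6345 (by norm_num)) (by decide +kernel))
    (root_good (good_XT 2693 (by norm_num)) (by decide +kernel))
    (root_good (good_XT 6350 (by norm_num)) (by decide +kernel)) w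

end H58T
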