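import Pool.Agent.Lib.H58T.XT00
import Pool.Agent.Lib.H58T.XT01
import Pool.Agent.Lib.H58T.XT02
import Pool.Agent.Lib.H58T.XT03
import Pool.Agent.Lib.H58T.XT04
import Pool.Agent.Lib.H58T.XT05
import Pool.Agent.Lib.H58T.XT06
import Pool.Agent.Lib.H58T.XT07

/-! H58T: the table of all certificates. -/

namespace H58T

noncomputable section

def XT : BT :=
(.node (.node (.node XT00 XT04) (.node XT02 XT06)) (.node (.node XT01 XT05) (.node XT03 XT07)))

end

end H58T
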