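import Pool.Agent.Lib.H58T.YT00

/-! H58T: the table of all certificates. -/

namespace H58T

noncomputable section

def YT : BT :=
YT00

end

end H58T
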